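import Pool.Agent.Helper446.Comp

set_option autoImplicit false

/-!
Dependent choice for recursively enumerable relations.
-/

namespace Pool.Agent.H437R3

open Pool.Agent.Helper446

theorem dep_choice {σ : Type} [Primcodable σ] (step : ℕ → σ → σ → Prop)
    (hstep : REPred fun x : (ℕ × σ) × σ => step x.1.1 x.1.2 x.2) (Valid : ℕ → σ → Prop) (s0 : σ)
    (h0 : Valid 0 s0) (hS : ∀ n s, Valid n s → ∃ s', step n s s')
    (hV : ∀ n s s', Valid n s → step n s s' → Valid (n + 1) s') :
    ∃ f : ℕ → σ, Computable f ∧ f 0 = s0 ∧ ∀ n, Valid n (f n) ∧ step n (f n) (f (n + 1)) := by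
  obtain ⟨g, hg, hd, hs⟩ := RE.uniformize (r := fun (x : ℕ × σ) s' => step x.1 x.2 s') hstep
  let F : ℕ →. σ := fun n => n.rec (Part.some s0) (fun k ih => ih.bind fun s => g (k, s))
  have hF : Partrec F := by
    have := Partrec.nat_rec (f := fun n : ℕ => n) (g := fun _ : ℕ => Part.some s0)
      (h := fun (_ : ℕ) (x : ℕ × σ) => g (x.1, x.2)) Computable.id
      (Computable.const s0) (by
        have h1 : Computable fun y : ℕ × (ℕ × σ) => y.2 := Computable.snd
        exact hg.comp h1)
    exact this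
  have hFs : ∀ n, F (n + 1) = (F n).bind fun s => g (n, s) := fun n => rfl
  have key : ∀ n, ∃ s, F n = Part.some s ∧ Valid n s := by
    intro n
    induction n with
    | zero => exact ⟨s0, rfl, h0⟩
    | succ n ih =>
      obtain ⟨s, h1, h2⟩ := ih
      have h3 : (g (n, s)).Dom := (hd (n, s)).2 (hS n s h2)
      have h4 := Part.get_mem h3
      refine ⟨(g (n, s)).get h3, ?_, hV n s _ h2 (hs _ _ h4)⟩
      rw [hFs, h1, Part.bind_some]
      exact (Part.some_get h3).symm
  choose f hf1 hf2 using key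
  refine ⟨f, ?_, ?_, ?_⟩
  · exact hF.of_eq fun n => hf1 n
  · have h5 := hf1 0
    have h6 : F 0 = Part.some s0 := rfl
    rw [h6] at h5
    exact (Part.some_injective h5).symm
  · intro n
    refine ⟨hf2 n, ?_⟩
    have h7 := hf1 (n + 1)
    rw [hFs, hf1 n, Part.bind_some] at h7
    have h8 : f (n + 1) ∈ g (n, f n) := by rw [h7]; exact Part.mem_some _
    exact hs (n, f n) _ h8

end Pool.Agent.H437R3
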