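import Mathlib

set_option autoImplicit false

/-!
A group with a length function embeds into the group of isometries of a complete metric space, the
completion of the group.
-/

namespace Pool.Agent.H437R3

open UniformSpace

/-- The left-invariant metric given by a length function. -/
noncomputable def lengthMetric {H : Type} [Group H] (D : H → ℝ) (h1 : D 1 = 0)
    (hpos : ∀ x, D x = 0 → x = 1) (hinv : ∀ x, D x⁻¹ = D x) (htri : ∀ x y, D (x * y) ≤ D x + D y) :
    MetricSpace H where
  dist x y := D (x⁻¹ * y)
  dist_self x := by simp [h1]
  dist_comm x y := by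
    show D (x⁻¹ * y) = D (y⁻¹ * x)
    rw [← hinv (x⁻¹ * y)]
    simp
  dist_triangle x y z := by
    show D (x⁻¹ * z) ≤ D (x⁻¹ * y) + D (y⁻¹ * z)
    have := htri (x⁻¹ * y) (y⁻¹ * z)
    simpa [mul_assoc] using this
  eq_of_dist_eq_zero {x y} h := by
    have h2 : x⁻¹ * y = 1 := hpos _ h
    exact (inv_mul_eq_one.1 h2)

theorem embed (H : Type) [Group H] (D : H → ℝ) (h1 : D 1 = 0)
    (hpos : ∀ x, D x = 0 → x = 1) (hinv : ∀ x, D x⁻¹ = D x)
    (htri : ∀ x y, D (x * y) ≤ D x + D y) :
    ∃ (X : Type) (_ : MetricSpace X) (_ : CompleteSpace X) (ι : H → X) (Φ : H →* (X ≃ᵢ X)),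
      DenseRange ι ∧ Function.Injective ι ∧ (∀ x y, dist (ι x) (ι y) = D (x⁻¹ * y)) ∧
        ∀ g x, Φ g (ι x) = ι (g * x) := by
  letI : MetricSpace H := lengthMetric D h1 hpos hinv htri
  have hdist : ∀ x y : H, dist x y = D (x⁻¹ * y) := fun x y => rfl
  have hiso : ∀ g : H, Isometry (fun x : H => g * x) := by
    intro g
    apply Isometry.of_dist_eq
    intro x y
    rw [hdist, hdist]
    congr 1
    group
  let M : H → Completion H → Completion H := fun g => Completion.map (fun x : H => g * x)
  have hM : ∀ g, Isometry (M g) := fun g => (hiso g).completion_map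
  have hMc : ∀ g x : H, M g (x : Completion H) = ((g * x : H) : Completion H) := fun g x =>
    Completion.map_coe (hiso g).uniformContinuous x
  have hMM : ∀ g h x, M g (M h x) = M (g * h) x := by
    intro g h x
    have h2 : M g ∘ M h = M (g * h) := by
      show Completion.map _ ∘ Completion.map _ = Completion.map _
      rw [Completion.map_comp (hiso g).uniformContinuous (hiso h).uniformContinuous]
      congr 1
      funext y
      simp [mul_assoc]
    exact congrFun h2 x
  have hM1 : ∀ x, M 1 x = x := by
    intro x
    have h2 : M 1 = id := by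
      show Completion.map _ = _
      have : (fun x : H => 1 * x) = id := by funext x; simp
      rw [this, Completion.map_id]
    exact congrFun h2 x
  let E : H → (Completion H ≃ᵢ Completion H) := fun g =>
    { toFun := M g
      invFun := M g⁻¹
      left_inv := fun x => by rw [hMM, inv_mul_cancel, hM1]
      right_inv := fun x => by rw [hMM, mul_inv_cancel, hM1]
      isometry_toFun := hM g }
  refine ⟨Completion H, inferInstance, inferInstance, fun x => (x : Completion H),
    { toFun := E
      map_one' := by
        ext x
        exact hM1 x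
      map_mul' := by
        intro g h
        ext x
        exact (hMM g h x).symm }, Completion.denseRange_coe, Completion.coe_injective H, ?_, ?_⟩
  · intro x y
    rw [Completion.dist_eq, hdist]
  · intro g x
    exact hMc g x

end Pool.Agent.H437R3
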