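import Mathlib
import Pool.Agent.Helper941.Hyp.Cls

/-!
Additional facts on the structures of `Helper941.Hyp`: nodes with an odd flow are true nodes, and
padding for the universal `Σ¹₁` predicate.
-/

set_option autoImplicit false
set_option maxHeartbeats 400000

namespace Pool.Agent.H437R3.Iso

open Encodable Denumerable Nat.Partrec Pool.Agent.Helper941 Pool.Agent.Helper941.IsoProb
open Pool.Agent.Helper941.Zeta Pool.Agent.Helper941.Dim Pool.Agent.Helper941.Hyp

section
variable {d : Dat} {T : ℕ → Prop} {pr g : ℕ → ℕ}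

/-- a node with an odd flow is a true node -/
theorem pers_of_flow (hS : Spec T pr d) (hT : TH T pr) (hg : TP d g) {t : ℕ → ℕ}
    (hF : Flow d.pa t) {u : ℕ} (hu : 1 ≤ u) (hp : par (t u) = true) :
    Pers d g u (d.J u - 1) := by
  have hnx : ∀ v, ∃ w, par (t v) = true → (t v).testBit w = true := by
    intro v
    by_cases h : par (t v) = true
    · obtain ⟨w, hw⟩ := exists_of_par h
      exact ⟨w, fun _ => hw⟩
    · exact ⟨0, fun h' => (h h').elim⟩
  choose nx hnx using hnx
  have hodd : ∀ v w, (t v).testBit w = true → par (t w) = true := by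
    intro v w hw
    obtain ⟨h1, h2⟩ := hF.child v w hw
    rw [← hF.par w h1, h2, hw]
  have ha : ∀ k, par (t (nx^[k] u)) = true := by
    intro k
    induction k with
    | zero => exact hp
    | succ k ih =>
      rw [Function.iterate_succ_apply']
      exact hodd _ _ (hnx _ ih)
  have hb : ∀ k, 1 ≤ nx^[k + 1] u ∧ d.pa (nx^[k + 1] u) = nx^[k] u := by
    intro k
    rw [Function.iterate_succ_apply']
    exact hF.child _ _ (hnx _ (ha k))
  have hpos : ∀ k, 1 ≤ nx^[k] u := by
    intro k
    cases k with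
    | zero => exact hu
    | succ k => exact (hb k).1
  have hJ : ∀ k, d.J (nx^[k + 1] u) ≠ 0 := by
    intro k hc
    have h1 := hS.leaf (hpos (k + 1)) hc
    have h2 := (hb k).2
    have := hpos k
    omega
  have hon : ∀ k, on d (nx^[k] u) (nx^[k + 1] u) (d.J (nx^[k] u) - 1) := by
    intro k
    obtain ⟨j, hj⟩ : ∃ j, d.J (nx^[k + 1] u) = j + 1 := ⟨d.J (nx^[k + 1] u) - 1, by
      have := hJ k
      omega⟩
    obtain ⟨_, _, _, h4, _⟩ := hS.child hT (hpos (k + 1)) hj
    rw [(hb k).2] at h4
    have h5 : d.J (nx^[k] u) - 1 = pr j := by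
      have := h4.1
      omega
    rw [h5]
    exact h4
  have hlt : ∀ k, nx^[k] u < nx^[k + 1] u := by
    intro k
    have := hS.pa_lt hT (hpos (k + 1))
    rw [(hb k).2] at this
    exact this
  have hmono : StrictMono fun k => nx^[k] u := strictMono_nat_of_lt_succ hlt
  -- `u` is current at all the stages of the chain
  have key : ∀ m k, k ≤ m → on d (nx^[k] u) (nx^[m + 1] u) (d.J (nx^[k] u) - 1) := by
    intro m
    have : ∀ i, i ≤ m → on d (nx^[m - i] u) (nx^[m + 1] u) (d.J (nx^[m - i] u) - 1) := by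
      intro i
      induction i with
      | zero => intro _; exact hon m
      | succ i ih =>
        intro hi
        have h1 := ih (by omega)
        have h2 : m - i = (m - (i + 1)) + 1 := by omega
        rw [h2] at h1
        have h3 := hS.on_pa hT (hpos _) (by
          have := hmono.monotone (show m - (i + 1) + 1 ≤ m + 1 by omega)
          exact this) h1
        rw [(hb _).2] at h3
        have h4 : d.J (nx^[m - (i + 1)] u) - 1 =
            pr (d.J (nx^[m - (i + 1) + 1] u) - 1) := by
          have := h3.1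
          omega
        rw [h4]
        exact h3
    intro k hk
    have h := this (m - k) (by omega)
    rwa [show m - (m - k) = k by omega] at h
  have hu0 : ∀ m, on d u (nx^[m + 1] u) (d.J u - 1) := fun m => key m 0 (by omega)
  have hJu : d.J u = d.J u - 1 + 1 := (hu0 0).1
  have hnl : ∀ s, u < s → ¬ lft d s u (d.J u - 1) := by
    intro s hs
    have h1 : s ≤ nx^[s + 1] u := by
      have : s + 1 ≤ nx^[s + 1] u := hmono.le_apply
      omega
    exact (hu0 s).2.2 s (by omega) hs
  refine ⟨hJu, ?_, hnl⟩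
  intro i
  induction i using Nat.strong_induction_on with
  | _ i ih =>
    intro hi
    have h1 : g i ≤ d.O u i := by
      obtain ⟨N, hN⟩ := hg.left i
      have h2 := (hu0 N).2.1
      have h3 : N ≤ nx^[N + 1] u := by
        have : N + 1 ≤ nx^[N + 1] u := hmono.le_apply
        omega
      have h4 := hN _ h3 (fun i' hi' => by
        rw [← h2 i' (by omega)]
        exact ih i' hi' (by omega))
      rw [← h2 i hi] at h4
      exact h4
    obtain ⟨s, hs, hv⟩ := hg.inf (i + 1) (u + 1)
    by_contra hne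
    refine hnl s (by omega) ⟨i, hi, ?_, ?_⟩
    · intro i' hi'
      rw [hv i' (by omega), ih i' hi' (by omega)]
    · rw [hv i (by omega)]
      have : g i ≠ d.O u i := fun h => hne h.symm
      omega

end

/-- there is at most one odd node with a given label -/
theorem y_uniq {u u' : ℕ} (hu : 1 ≤ u) (hu' : 1 ≤ u') (h : Y u) (h' : Y u')
    (hJ : dH.J u = dH.J u') : u = u' := by
  obtain ⟨g, hg⟩ := exists_tp (d := dH) spec_H.O_le
  obtain ⟨t, hF, ht⟩ := h
  obtain ⟨t', hF', ht'⟩ := h'
  have h1 := pers_of_flow spec_H th_HT hg hF hu ht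
  have h2 := pers_of_flow spec_H th_HT hg hF' hu' ht'
  rw [← hJ] at h2
  exact h1.uniq spec_H th_HT hg h2

/-! ### padding -/

/-- the `k`-th padding of the index `i` -/
def pad (i k : ℕ) : ℕ := encode (Code.comp (Code.const k) (ofNat Code i))

theorem pad_inj {i k i' k' : ℕ} (h : pad i k = pad i' k') : i = i' ∧ k = k' := by
  have h1 := encode_injective h
  rw [Code.comp.injEq] at h1
  refine ⟨?_, Code.const_inj h1.1⟩
  have := congrArg encode h1.2
  rwa [encode_ofNat, encode_ofNat] at this

theorem c_pad {α : Type} [Primcodable α] {f g : α → ℕ} (hf : Computable f) (hg : Computable g) :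
    Computable fun a => pad (f a) (g a) := by
  refine Computable.encode.comp ?_
  exact (Code.primrec₂_comp.to_comp).comp ((Code.primrec_const.to_comp).comp hg)
    ((Computable.ofNat Code).comp hf)

theorem uu1_iff (e x : ℕ) : UU1 e x ↔ ∃ f : ℕ → ℕ, ∀ m,
    ¬ (Code.eval (ofNat Code e) (Nat.pair x (encode ((List.range m).map f)))).Dom := by
  refine exists_congr fun f => ?_
  constructor
  · intro h m hd
    obtain ⟨s, hs⟩ := (haltsIn_iff _ _).1 hd
    exact ut_range.1 (h (m + s)) m (by omega) (haltsIn_mono _ _ (by omega) hs)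
  · intro h n
    rw [ut_range]
    intro m _ hm
    exact h m ((haltsIn_iff _ _).2 ⟨n, hm⟩)

theorem pad_dom (i k x : ℕ) : (Code.eval (ofNat Code (pad i k)) x).Dom ↔
    (Code.eval (ofNat Code i) x).Dom := by
  unfold pad
  rw [ofNat_encode]
  show (Part.bind (Code.eval (ofNat Code i) x) (Code.eval (Code.const k))).Dom ↔ _
  rw [Part.bind_dom]
  constructor
  · rintro ⟨h, _⟩
    exact h
  · intro h
    refine ⟨h, ?_⟩
    rw [Code.eval_const]
    trivial

theorem uu1_pad (i k x : ℕ) : UU1 (pad i k) x ↔ UU1 i x := by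
  rw [uu1_iff, uu1_iff]
  refine exists_congr fun f => forall_congr' fun m => not_congr ?_
  exact pad_dom _ _ _

/-! ### the nodes -/

/-- a child of the root which has a child -/
def Nd (u : ℕ) : Prop := (1 ≤ u ∧ pH u = 0) ∧ ∃ w, 1 ≤ w ∧ pH w = u

/-- the label of the node `u` is the index `pad i k`, where `k ≤ i` -/
def Lb (u i k : ℕ) : Prop := dH.J u = lab (pad i k) + 1 ∧ k ≤ i

theorem lab_inj {a b : ℕ} (h : lab a = lab b) : a = b := by
  unfold lab at h
  have := encode_injective h
  simpa using this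

theorem Lb.uniq {u i k i' k' : ℕ} (h : Lb u i k) (h' : Lb u i' k') : i = i' ∧ k = k' := by
  refine pad_inj (lab_inj ?_)
  have h1 := h.1
  have h2 := h'.1
  omega

/-- nodes and the universal predicate -/
theorem exists_nd_iff (e : ℕ) : (∃ u, Nd u ∧ dH.J u = lab e + 1 ∧ Y u) ↔ UU1 e e := by
  rw [← path_iff]
  constructor
  · rintro ⟨u, ⟨⟨hu, hp⟩, _⟩, hJ, t, hF, ht⟩
    obtain ⟨l, hl, h1⟩ := path_of_flow spec_H th_HT hF (u := u) (by
      have := hF.par u hu
      rw [hp] at this
      rw [this, ht])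
    exact ⟨l, hl, by omega⟩
  · rintro ⟨l, hl, h1⟩
    obtain ⟨t, w, hF, h0, hw, h2, h3⟩ := flow_of_path spec_H th_HT hl
    refine ⟨w 1, ⟨⟨(hw 0).1, ?_⟩, w 2, (hw 1).1, (hw 1).2⟩, ?_, t, hF, ?_⟩
    · have := (hw 0).2
      rw [h0] at this
      exact this
    · rw [h2 1, h1]
    · rw [h3, par_two_pow]

/-- the node is determined by a structure -/
theorem nd_uniq {u v : ℕ} {b c : Bool} (hu : ∃ w, 1 ≤ w ∧ pH w = u)
    {t : ℕ → ℕ} (ht : ∀ p, Valid pH p → (PP u b p ↔ PP v c (sh t p))) : u = v := by
  obtain ⟨w, hw, hpw⟩ := hu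
  have h1 : ∃ X, Valid pH (Nat.pair u X) ∧ par X = b := by
    cases b with
    | false => exact ⟨0, valid_base _ _, par_zero⟩
    | true =>
      refine ⟨2 ^ w, ?_, par_two_pow _⟩
      intro x hx
      rw [Nat.unpair_pair] at hx ⊢
      rw [Nat.testBit_two_pow] at hx
      have hx' : w = x := by simpa using hx
      rw [← hx']
      exact ⟨hw, hpw⟩
  obtain ⟨X, hX, hb⟩ := h1
  have h2 := (ht _ hX).1 ⟨by rw [Nat.unpair_pair], by rw [Nat.unpair_pair]; exact hb⟩
  have h3 := h2.1
  rw [sh_fst, Nat.unpair_pair] at h3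
  exact h3

end Pool.Agent.H437R3.Iso
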