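import Mathlib
import Pool.Agent.H437R3.IsoA

/-!
Indices of structures whose universe is a subset of the natural numbers.
-/

set_option autoImplicit false
set_option maxHeartbeats 400000

namespace Pool.Agent.H437R3.Iso

open Encodable Denumerable Nat.Partrec Pool.Agent.Helper941 Pool.Agent.Helper941.IsoProb
open Pool.Agent.Helper941.Zeta Pool.Agent.Helper941.Dim Pool.Agent.Helper941.Hyp

/-! ### isomorphisms -/

theorem iso_refl {ar : ℕ → ℕ} (A : IsoProb.Str ar) : A.Iso A :=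
  ⟨Equiv.refl _, fun _ _ => Iff.rfl⟩

theorem iso_symm {ar : ℕ → ℕ} {A B : IsoProb.Str ar} (h : A.Iso B) : B.Iso A := by
  obtain ⟨f, hf⟩ := h
  refine ⟨f.symm, fun i v => ?_⟩
  have h1 := hf i (v.map f.symm)
  rw [List.map_map, List.map_map] at h1
  have h2 : (fun x : A.dom => (f x : ℕ)) ∘ f.symm = fun x : B.dom => (x : ℕ) := by
    funext x
    simp
  rw [h2] at h1
  exact h1.symm

theorem iso_trans {ar : ℕ → ℕ} {A B C : IsoProb.Str ar} (h : A.Iso B) (h' : B.Iso C) :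
    A.Iso C := by
  obtain ⟨f, hf⟩ := h
  obtain ⟨g, hg⟩ := h'
  refine ⟨f.trans g, fun i v => ?_⟩
  have h1 := hg i (v.map f)
  rw [List.map_map, List.map_map] at h1
  exact (hf i v).trans h1

/-- a structure with universe `ω` -/
def full (B : Dim.Str) : IsoProb.Str ar2 where
  dom := Set.univ
  dom_nonempty := ⟨0, trivial⟩
  rel := fun i v => v.length = 2 ∧ B i (gt v 0) (gt v 1)
  rel_dom := fun _ _ h => ⟨h.1, fun _ _ => trivial⟩

theorem full_iso {A : Dim.Str} {B : IsoProb.Str ar2} : (full A).Iso B ↔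
    ∃ h : ℕ → ℕ, Function.Injective h ∧ (∀ y, y ∈ B.dom ↔ ∃ x, h x = y) ∧
      ∀ i x y, A i x y ↔ B.rel i [h x, h y] := by
  constructor
  · rintro ⟨f, hf⟩
    refine ⟨fun x => f ⟨x, trivial⟩, ?_, ?_, ?_⟩
    · intro x y hxy
      have h1 : f ⟨x, trivial⟩ = f ⟨y, trivial⟩ := Subtype.ext hxy
      exact congrArg Subtype.val (f.injective h1)
    · intro y
      constructor
      · intro hy
        refine ⟨(f.symm ⟨y, hy⟩ : ℕ), ?_⟩
        show ((f (f.symm ⟨y, hy⟩)) : ℕ) = y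
        rw [Equiv.apply_symm_apply]
      · rintro ⟨x, rfl⟩
        exact (f ⟨x, trivial⟩).2
    · intro i x y
      have h1 := hf i [⟨x, trivial⟩, ⟨y, trivial⟩]
      exact (show A i x y ↔ _ from ⟨fun h => ⟨rfl, h⟩, fun h => h.2⟩).trans h1
  · rintro ⟨h, hinj, hd, hr⟩
    have hb : Function.Bijective fun x : (full A).dom => (⟨h x, (hd _).2 ⟨x, rfl⟩⟩ : B.dom) := by
      constructor
      · intro x y hxy
        exact Subtype.ext (hinj (congrArg Subtype.val hxy))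
      · rintro ⟨y, hy⟩
        obtain ⟨x, hx⟩ := (hd y).1 hy
        exact ⟨⟨x, trivial⟩, Subtype.ext hx⟩
    refine ⟨Equiv.ofBijective _ hb, fun i v => ?_⟩
    constructor
    · rintro ⟨h1, h2⟩
      obtain ⟨a, b, rfl⟩ := List.length_eq_two.1 (by simpa using h1)
      exact (hr i a b).1 h2
    · intro h1
      have h2 := (B.rel_dom _ _ h1).1
      obtain ⟨a, b, rfl⟩ := List.length_eq_two.1 (by simpa using h2)
      exact ⟨rfl, (hr i a b).2 h1⟩

theorem full_full {A B : Dim.Str} : (full A).Iso (full B) ↔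
    ∃ f : ℕ ≃ ℕ, ∀ i x y, A i x y ↔ B i (f x) (f y) := by
  rw [full_iso]
  constructor
  · rintro ⟨h, hinj, hd, hr⟩
    refine ⟨Equiv.ofBijective h ⟨hinj, fun y => (hd y).1 trivial⟩, fun i x y => ?_⟩
    rw [hr]
    exact ⟨fun h => h.2, fun h => ⟨rfl, h⟩⟩
  · rintro ⟨f, hf⟩
    refine ⟨f, f.injective, fun y => ⟨fun _ => ⟨f.symm y, by simp⟩, fun _ => trivial⟩,
      fun i x y => ?_⟩
    rw [hf]
    exact ⟨fun h => ⟨rfl, h⟩, fun h => h.2⟩

/-! ### indices -/

/-- codes of atomic sentences -/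
abbrev Q := ℕ ⊕ ℕ × List ℕ

def DI (e x : ℕ) : Prop := Code.eval (ofNat Code e) (encode (Sum.inl x : Q)) = Part.some 1

def RI (e i : ℕ) (v : List ℕ) : Prop :=
  Code.eval (ofNat Code e) (encode (Sum.inr (i, v) : Q)) = Part.some 1

def Ix (e : ℕ) : Prop :=
  (∀ q : Q, Code.eval (ofNat Code e) (encode q) = Part.some 1 ∨
    Code.eval (ofNat Code e) (encode q) = Part.some 0) ∧ (∃ x, DI e x) ∧
  ∀ q : ℕ × List ℕ, RI e q.1 q.2 → q.2.length = 2 ∧ DI e (gt q.2 0) ∧ DI e (gt q.2 1)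

/-- the structure given by an index -/
def SX (e : ℕ) (h : Ix e) : IsoProb.Str ar2 where
  dom := {x | DI e x}
  dom_nonempty := h.2.1
  rel := RI e
  rel_dom := fun i v hv => by
    obtain ⟨h1, h2, h3⟩ := h.2.2 (i, v) hv
    obtain ⟨a, b, rfl⟩ := List.length_eq_two.1 h1
    refine ⟨rfl, fun x hx => ?_⟩
    rcases List.mem_cons.1 hx with rfl | hx
    · exact h2
    · rcases List.mem_cons.1 hx with rfl | hx
      · exact h3
      · simp at hx

theorem index_SX {e : ℕ} (h : Ix e) : IsoProb.IndexOf e (SX e h) := by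
  intro q
  have key : (SX e h).Holds q ↔ Code.eval (ofNat Code e) (encode q) = Part.some 1 := by
    rcases q with x | ⟨i, v⟩
    · exact Iff.rfl
    · exact Iff.rfl
  rw [key]
  refine ⟨fun h1 => h1, fun h1 => ?_⟩
  rcases h.1 q with h2 | h2
  · exact (h1 h2).elim
  · exact h2

theorem eq_of_ix {e : ℕ} {A : IsoProb.Str ar2} (h : IsoProb.IndexOf e A) :
    ∃ h' : Ix e, A = SX e h' := by
  classical
  have hor : ∀ q : Q, Code.eval (ofNat Code e) (encode q) = Part.some 1 ∨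
      Code.eval (ofNat Code e) (encode q) = Part.some 0 := fun q => by
    by_cases hq : A.Holds q
    · exact Or.inl ((h q).1 hq)
    · exact Or.inr ((h q).2 hq)
  have key : ∀ q : Q, A.Holds q ↔ Code.eval (ofNat Code e) (encode q) = Part.some 1 := by
    intro q
    constructor
    · exact (h q).1
    · intro h1
      by_contra hc
      exact some_ne (h1.symm.trans ((h q).2 hc))
  have hdom : ∀ x, x ∈ A.dom ↔ DI e x := fun x => key (Sum.inl x)
  have hrel : ∀ i v, A.rel i v ↔ RI e i v := fun i v => key (Sum.inr (i, v))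
  have hix : Ix e := by
    refine ⟨hor, ?_, ?_⟩
    · obtain ⟨x, hx⟩ := A.dom_nonempty
      exact ⟨x, (hdom x).1 hx⟩
    · rintro ⟨i, v⟩ hv
      obtain ⟨h1, h2⟩ := A.rel_dom i v ((hrel i v).2 hv)
      obtain ⟨a, b, rfl⟩ := List.length_eq_two.1 h1
      exact ⟨rfl, (hdom a).1 (h2 a (by simp)), (hdom b).1 (h2 b (by simp))⟩
  refine ⟨hix, ?_⟩
  obtain ⟨dom, dne, rel, rd⟩ := A
  have e1 : dom = {x | DI e x} := Set.ext hdom
  have e2 : rel = RI e := by
    funext i v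
    exact propext (hrel i v)
  subst e1 e2
  rfl

/-- uniformly computable families of structures have computable families of indices -/
theorem exists_ix {β : Type} [Primcodable β] {M : β → Dim.Str}
    (hM : ComputablePred fun q : β × ℕ × ℕ × ℕ => M q.1 q.2.1 q.2.2.1 q.2.2.2) :
    ∃ g : β → ℕ, Computable g ∧ ∀ b, IsoProb.IndexOf (g b) (full (M b)) := by
  classical
  have hc : Computable fun p : β × Q => (Sum.casesOn p.2 (fun _ => 1) (fun r =>
      if r.2.length = 2 ∧ M p.1 r.1 (gt r.2 0) (gt r.2 1) then 1 else 0) : ℕ) := by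
    refine Computable.sumCasesOn (c_snd c_id) (Computable.const 1).to₂ ?_
    refine Computable.to₂ (f := fun s : (β × Q) × ℕ × List ℕ =>
      if s.2.2.length = 2 ∧ M s.1.1 s.2.1 (gt s.2.2 0) (gt s.2.2 1) then 1 else 0) ?_
    have hl : Computable fun s : (β × Q) × ℕ × List ℕ => s.2.2 := c_snd (c_snd c_id)
    refine c_ite (p_and (p_eq (Computable.list_length.comp hl) (c_const 2)) ?_)
      (c_const 1) (c_const 0)
    exact computablePred_comp hM (c_pair (c_fst (c_fst c_id)) (c_pair (c_fst (c_snd c_id))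
      (c_pair (c_gt hl (c_const 0)) (c_gt hl (c_const 1)))))
  obtain ⟨c, hc⟩ := Code.exists_code.1 hc.partrec
  refine ⟨fun b => encode (Code.curry c (encode b)), ?_, fun b q => ?_⟩
  · exact Computable.encode.comp ((Code.primrec₂_curry.to_comp).comp (c_const c)
      Computable.encode)
  · have h1 : Code.eval (ofNat Code (encode (Code.curry c (encode b)))) (encode q) =
        Part.some (Sum.casesOn q (fun _ => 1) (fun r =>
      if r.2.length = 2 ∧ M b r.1 (gt r.2 0) (gt r.2 1) then 1 else 0) : ℕ) := by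
      rw [ofNat_encode, Code.eval_curry, hc]
      have : decode (α := β × Q) (Nat.pair (encode b) (encode q)) = some (b, q) := by
        have h2 : Nat.pair (encode b) (encode q) = encode (b, q) := rfl
        rw [h2, encodek]
      simp [this]
    rw [h1]
    rcases q with x | ⟨i, v⟩
    · exact ⟨fun _ => rfl, fun h => (h trivial).elim⟩
    · constructor
      · intro h
        have h' : v.length = 2 ∧ M b i (gt v 0) (gt v 1) := h
        show Part.some (if v.length = 2 ∧ M b i (gt v 0) (gt v 1) then 1 else 0) = _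
        rw [if_pos h']
      · intro h
        have h' : ¬ (v.length = 2 ∧ M b i (gt v 0) (gt v 1)) := h
        show Part.some (if v.length = 2 ∧ M b i (gt v 0) (gt v 1) then 1 else 0) = _
        rw [if_neg h']

/-! ### copies by computable isomorphisms -/

/-- `e` is an index of a structure isomorphic to `MS (PP u b)` by a computable map -/
def Cx (u : ℕ) (b : Bool) (e : ℕ) : Prop := Ix e ∧ (∀ x y, RI e 0 [x, y] → x = y) ∧
  ∃ h : ℕ → ℕ, Computable h ∧ Function.Injective h ∧ (∀ y, DI e y ↔ ∃ x, h x = y) ∧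
    (∀ i x y, i ≠ 0 → (Rel pH false i (el pH x) (el pH y) ↔ RI e i [h x, h y])) ∧
    ∀ x, (PP u b (el pH x) ↔ RI e 0 [h x, h x])

theorem Cx.iso {u : ℕ} {b : Bool} {e : ℕ} (h : Cx u b e) :
    (full (MS (PP u b))).Iso (SX e h.1) := by
  obtain ⟨h0, h1, f, _, hinj, hd, h2, h3⟩ := h
  rw [full_iso]
  refine ⟨f, hinj, hd, fun i x y => ?_⟩
  show _ ↔ RI e i [f x, f y]
  by_cases hi : i = 0
  · subst hi
    rw [ms_zero]
    constructor
    · rintro ⟨rfl, h4⟩
      exact (h3 x).1 h4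
    · intro h4
      have h5 := hinj (h1 _ _ h4)
      subst h5
      exact ⟨rfl, (h3 x).2 h4⟩
  · rw [ms_ne hi]
    exact h2 i x y hi

/-- a computable infinite set is enumerated by a computable injective function -/
theorem exists_enum {P : ℕ → Prop} (hP : ComputablePred P) (hinf : (setOf P).Infinite) :
    ∃ ν : ℕ → ℕ, Computable ν ∧ Function.Injective ν ∧ ∀ y, P y ↔ ∃ x, ν x = y := by
  classical
  have hcount : Computable fun p : ℕ => Nat.count P p := by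
    have h : Computable fun p : ℕ => (Nat.rec 0 (fun n b => b + (if P n then 1 else 0)) p : ℕ) := by
      refine Computable.nat_rec (f := fun p : ℕ => p) (g := fun _ => 0)
        (h := fun (_ : ℕ) (q : ℕ × ℕ) => (q.2 + (if P q.1 then 1 else 0) : ℕ)) Computable.id
        (Computable.const _) ?_
      refine c_add (c_snd (c_snd c_id)) (c_ite ?_ (c_const 1) (c_const 0))
      exact computablePred_comp hP (c_fst (c_snd c_id))
    refine h.of_eq fun p => ?_
    induction p with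
    | zero => rfl
    | succ p ih => rw [Nat.count_succ, ← ih]
  have hnth : Computable fun n : ℕ => Nat.nth P n := by
    have h := c_least (P := fun n m : ℕ => P m ∧ Nat.count P m = n)
      (p_and (computablePred_comp hP (c_snd c_id)) (p_eq (hcount.comp (c_snd c_id))
        (c_fst c_id))) (fun n => ⟨Nat.nth P n, Nat.nth_mem_of_infinite hinf n,
          Nat.count_nth_of_infinite hinf n⟩)
    refine h.of_eq fun n => ?_
    have : {m | P m ∧ Nat.count P m = n} = {Nat.nth P n} := by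
      ext m
      rw [Set.mem_singleton_iff]
      show P m ∧ Nat.count P m = n ↔ _
      constructor
      · rintro ⟨h1, h2⟩
        rw [← h2, Nat.nth_count h1]
      · rintro rfl
        exact ⟨Nat.nth_mem_of_infinite hinf n, Nat.count_nth_of_infinite hinf n⟩
    rw [this, csInf_singleton]
  refine ⟨fun n => Nat.nth P n, hnth, Nat.nth_injective hinf, fun y => ?_⟩
  constructor
  · intro hy
    exact ⟨Nat.count P y, Nat.nth_count hy⟩
  · rintro ⟨x, rfl⟩
    exact Nat.nth_mem_of_infinite hinf x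

theorem eval_comp {e : ℕ} (h : Ix e) {β : Type} [Primcodable β] {f : β → Q} (hf : Computable f) :
    ComputablePred fun b => Code.eval (ofNat Code e) (encode (f b)) = Part.some 1 := by
  have h1 : ∀ q : Q, ∃ y, Code.eval (ofNat Code e) (encode q) = Part.some y := by
    intro q
    rcases h.1 q with h2 | h2
    · exact ⟨1, h2⟩
    · exact ⟨0, h2⟩
  choose v hv using h1
  have hc : Computable v := by
    have h2 : Partrec fun q : Q => Code.eval (ofNat Code e) (encode q) :=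
      Code.eval_part.comp (Computable.const _) Computable.encode
    exact h2.of_eq fun q => by rw [hv q]; rfl
  refine (p_eq (hc.comp hf) (c_const 1)).of_eq fun b => ?_
  rw [hv]
  exact Part.some_inj.symm

theorem comp_DI {e : ℕ} (h : Ix e) : ComputablePred (DI e) :=
  eval_comp h (f := fun x : ℕ => (Sum.inl x : Q)) Computable.sumInl

theorem comp_RI {e : ℕ} (h : Ix e) : ComputablePred fun q : ℕ × List ℕ => RI e q.1 q.2 :=
  eval_comp h (f := fun q : ℕ × List ℕ => (Sum.inr q : Q)) Computable.sumInr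

theorem cx_of_iso {u : ℕ} {b : Bool} {e : ℕ} (he : Ix e)
    (h : (full (MS (PP u b))).Iso (SX e he)) : Cx u b e ∨ (Y u ∧ Cx u (!b) e) := by
  obtain ⟨F, hFi, hFd, hFr⟩ := full_iso.1 h
  have hFd' : ∀ y, DI e y ↔ ∃ x, F x = y := hFd
  have hFr' : ∀ i x y, MS (PP u b) i x y ↔ RI e i [F x, F y] := hFr
  obtain ⟨ν, hνc, hνi, hνd⟩ := exists_enum (comp_DI he) (by
    refine Set.infinite_of_injective_forall_mem hFi fun x => ?_
    exact (hFd' _).2 ⟨x, rfl⟩)
  -- the structure with universe `ω`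
  let B : Dim.Str := fun i x y => RI e i [ν x, ν y]
  have hBc : ComputablePred fun q : Unit × ℕ × ℕ × ℕ => B q.2.1 q.2.2.1 q.2.2.2 := by
    refine computablePred_comp (comp_RI he) (f := fun q : Unit × ℕ × ℕ × ℕ =>
      (q.2.1, [ν q.2.2.1, ν q.2.2.2])) (c_pair (c_fst (c_snd c_id)) ?_)
    exact Computable.list_cons.comp (hνc.comp (c_fst (c_snd (c_snd c_id))))
      (Computable.list_cons.comp (hνc.comp (c_snd (c_snd (c_snd c_id)))) (c_const []))
  obtain ⟨g, _, hg⟩ := exists_idx (β := Unit) (M := fun _ => B) hBc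
  obtain ⟨hidx, hBS⟩ := eq_of_index (hg ())
  have hB : B = SI (g ()) := by
    have := congrArg frS hBS
    rwa [frS_toS, frS_toS] at this
  have hB' : ∀ i x y, SI (g ()) i x y ↔ RI e i [ν x, ν y] := fun i x y => by rw [← hB]
  have hiso : Hyp.Iso (toS (MS (PP u b))) (toS (SI (g ()))) := by
    rw [iso_toS]
    have hex : ∀ x, ∃ y, ν y = F x := fun x => (hνd _).1 ((hFd' _).2 ⟨x, rfl⟩)
    choose f hf using hex
    refine ⟨Equiv.ofBijective f ⟨?_, ?_⟩, fun i x y => ?_⟩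
    · intro x y hxy
      exact hFi (by rw [← hf x, ← hf y, hxy])
    · intro y
      obtain ⟨x, hx⟩ := (hFd' _).1 ((hνd (ν y)).2 ⟨y, rfl⟩)
      exact ⟨x, hνi (by rw [hf, hx])⟩
    · rw [hB', hFr']
      show _ ↔ RI e i [ν (f x), ν (f y)]
      rw [hf, hf]
  have key : ∀ c, Cls u c (g ()) → Cx u c e := by
    rintro c ⟨_, h1, k, hk, h2, h3⟩
    refine ⟨he, ?_, fun x => ν (k x), hνc.comp hk, hνi.comp k.injective, fun y => ?_, ?_, ?_⟩
    · intro x y hxy
      obtain ⟨_, h4, h5⟩ := he.2.2 (0, [x, y]) hxy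
      obtain ⟨x', rfl⟩ := (hνd x).1 h4
      obtain ⟨y', rfl⟩ := (hνd y).1 h5
      rw [h1 x' y' ((hB' _ _ _).2 hxy)]
    · rw [hνd]
      constructor
      · rintro ⟨x, hx⟩
        exact ⟨k.symm x, by simp [hx]⟩
      · rintro ⟨x, hx⟩
        exact ⟨k x, hx⟩
    · intro i x y hi
      rw [h2 i x y hi, hB']
    · intro x
      rw [h3 x, hB']
  rcases cls_of_iso hidx hiso with h1 | ⟨h1, h2⟩
  · exact Or.inl (key _ h1)
  · exact Or.inr ⟨h1, key _ h2⟩

theorem yx_iso {u : ℕ} (h : Y u) (b : Bool) :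
    (full (MS (PP u b))).Iso (full (MS (PP u (!b)))) := by
  rw [full_full]
  exact iso_toS.1 (y_iso h b)

theorem cx_iff {u : ℕ} {b : Bool} {e : ℕ} : (∃ he : Ix e,
    (full (MS (PP u b))).Iso (SX e he)) ↔ Cx u b e ∨ (Y u ∧ Cx u (!b) e) := by
  constructor
  · rintro ⟨h1, h2⟩
    exact cx_of_iso h1 h2
  · rintro (h | ⟨h1, h2⟩)
    · exact ⟨h.1, h.iso⟩
    · exact ⟨h2.1, iso_trans (yx_iso h1 b) h2.iso⟩

/-! ### the complexity of `Cx` -/

theorem delta_DI {α : Type} [Primcodable α] {e x : α → ℕ} (he : Computable e)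
    (hx : Computable x) : Delta11 fun a => DI (e a) (x a) :=
  delta_eval he (Computable.encode.comp (Computable.sumInl.comp hx)) (c_const 1)

theorem delta_RI {α : Type} [Primcodable α] {e i : α → ℕ} {v : α → List ℕ} (he : Computable e)
    (hi : Computable i) (hv : Computable v) : Delta11 fun a => RI (e a) (i a) (v a) :=
  delta_eval he (Computable.encode.comp (Computable.sumInr.comp (c_pair hi hv))) (c_const 1)

theorem delta_Ix : Delta11 Ix := by
  have h1 : Delta11 fun p : ℕ × Q => Code.eval (ofNat Code p.1) (encode p.2) = Part.some 1 :=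
    delta_eval (c_fst c_id) (Computable.encode.comp (c_snd c_id)) (c_const 1)
  have h0 : Delta11 fun p : ℕ × Q => Code.eval (ofNat Code p.1) (encode p.2) = Part.some 0 :=
    delta_eval (c_fst c_id) (Computable.encode.comp (c_snd c_id)) (c_const 0)
  have h2 : Delta11 fun e : ℕ => ∃ x, DI e x :=
    Delta11.ex (P := fun p : ℕ × ℕ => DI p.1 p.2) (delta_DI (c_fst c_id) (c_snd c_id))
  have hl : Computable fun p : ℕ × ℕ × List ℕ => p.2.2 := c_snd (c_snd c_id)
  have h3 : Delta11 fun e : ℕ => ∀ q : ℕ × List ℕ, RI e q.1 q.2 →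
      q.2.length = 2 ∧ DI e (gt q.2 0) ∧ DI e (gt q.2 1) := by
    refine Delta11.all' (P := fun p : ℕ × ℕ × List ℕ => RI p.1 p.2.1 p.2.2 →
      p.2.2.length = 2 ∧ DI p.1 (gt p.2.2 0) ∧ DI p.1 (gt p.2.2 1)) ?_
    refine (delta_RI (c_fst c_id) (c_fst (c_snd c_id)) hl).imp
      ((Delta11.of_computable (p_eq (Computable.list_length.comp hl) (c_const 2))).and
        ((delta_DI (c_fst c_id) (c_gt hl (c_const 0))).and
          (delta_DI (c_fst c_id) (c_gt hl (c_const 1)))))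
  exact ((h1.or h0).all').and (h2.and h3)

def CxP (u : ℕ) (b : Bool) (e k : ℕ) : Prop :=
  (∀ x, ∃ y, EvE k x y) ∧ (∀ y, DI e y → ∃ x, EvE k x y) ∧
  (∀ q : ℕ × ℕ, EvE k q.1 q.2 → DI e q.2) ∧
  (∀ q : ℕ × ℕ × ℕ, EvE k q.1 q.2.2 → EvE k q.2.1 q.2.2 → q.1 = q.2.1) ∧
  (∀ q : ℕ × ℕ × ℕ × ℕ × ℕ, EvE k q.2.1 q.2.2.2.1 → EvE k q.2.2.1 q.2.2.2.2 → q.1 ≠ 0 →
    (Rel pH false q.1 (el pH q.2.1) (el pH q.2.2.1) ↔ RI e q.1 [q.2.2.2.1, q.2.2.2.2])) ∧
  ∀ q : ℕ × ℕ, EvE k q.1 q.2 → (PP u b (el pH q.1) ↔ RI e 0 [q.2, q.2])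

theorem cx_iff' {u : ℕ} {b : Bool} {e : ℕ} : Cx u b e ↔
    Ix e ∧ (∀ q : ℕ × ℕ, RI e 0 [q.1, q.2] → q.1 = q.2) ∧ ∃ k, CxP u b e k := by
  constructor
  · rintro ⟨h1, h2, f, hfc, hinj, hd, h3, h4⟩
    obtain ⟨c, hc⟩ := Code.exists_code.1 (Partrec.nat_iff.1 hfc.partrec)
    have hev : ∀ x y, EvE (encode c) x y ↔ f x = y := by
      intro x y
      unfold EvE
      rw [ofNat_encode, hc]
      exact Part.some_inj
    refine ⟨h1, fun q => h2 q.1 q.2, encode c, fun x => ⟨f x, (hev _ _).2 rfl⟩,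
      fun y hy => ?_, fun q hq => ?_, fun q hq1 hq2 => ?_,
      fun q hq1 hq2 hq3 => ?_, fun q hq => ?_⟩
    · obtain ⟨x, hx⟩ := (hd y).1 hy
      exact ⟨x, (hev _ _).2 hx⟩
    · rw [hev] at hq
      exact (hd _).2 ⟨_, hq⟩
    · rw [hev] at hq1 hq2
      exact hinj (hq1.trans hq2.symm)
    · rw [hev] at hq1 hq2
      rw [← hq1, ← hq2]
      exact h3 _ _ _ hq3
    · rw [hev] at hq
      rw [← hq]
      exact h4 _
  · rintro ⟨h1, h2, k, h3, h4, h4', h5, h6, h7⟩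
    choose f hf using h3
    refine ⟨h1, fun x y => h2 (x, y), f, ?_, ?_, fun y => ?_, fun i x y hi => ?_, fun x => ?_⟩
    · have h8 : Partrec fun x : ℕ => Code.eval (ofNat Code k) x :=
        Code.eval_part.comp (Computable.const _) Computable.id
      exact h8.of_eq fun x => hf x
    · intro x y hxy
      refine h5 (x, y, f x) (hf x) ?_
      show EvE k y (f x)
      rw [hxy]
      exact hf y
    · constructor
      · intro hy
        obtain ⟨x, hx⟩ := h4 y hy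
        exact ⟨x, Part.some_inj.1 ((hf x).symm.trans hx)⟩
      · rintro ⟨x, rfl⟩
        exact h4' (x, f x) (hf x)
    · exact h6 (i, x, y, f x, f y) (hf x) (hf y) hi
    · exact h7 (x, f x) (hf x)

theorem delta_Cx : Delta11 fun p : ℕ × ℕ × Bool => Cx p.2.1 p.2.2 p.1 := by
  have hel : Computable (el pH) := c_el c_pH
  have h1 : Delta11 fun p : ℕ × ℕ × Bool => Ix p.1 := delta_Ix.comp (c_fst c_id)
  have hpl : ∀ {α : Type} [Primcodable α] {f g : α → ℕ}, Computable f → Computable g →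
      Computable fun a => [f a, g a] := fun hf hg =>
    Computable.list_cons.comp hf (Computable.list_cons.comp hg (c_const []))
  have h2 : Delta11 fun p : ℕ × ℕ × Bool => ∀ q : ℕ × ℕ, RI p.1 0 [q.1, q.2] → q.1 = q.2 := by
    refine Delta11.all' (P := fun r : (ℕ × ℕ × Bool) × ℕ × ℕ =>
      RI r.1.1 0 [r.2.1, r.2.2] → r.2.1 = r.2.2) ?_
    exact (delta_RI (c_fst (c_fst c_id)) (c_const 0) (hpl (c_fst (c_snd c_id))
      (c_snd (c_snd c_id)))).imp (Delta11.of_computable (p_eq (c_fst (c_snd c_id))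
        (c_snd (c_snd c_id))))
  have h3 : Delta11 fun r : (ℕ × ℕ × Bool) × ℕ => ∀ x, ∃ y, EvE r.2 x y :=
    Delta11.all (P := fun s : ((ℕ × ℕ × Bool) × ℕ) × ℕ => ∃ y, EvE s.1.2 s.2 y)
      (Delta11.ex (P := fun s : (((ℕ × ℕ × Bool) × ℕ) × ℕ) × ℕ => EvE s.1.1.2 s.1.2 s.2)
        (delta_EvE (c_snd (c_fst (c_fst c_id))) (c_snd (c_fst c_id)) (c_snd c_id)))
  have h4 : Delta11 fun r : (ℕ × ℕ × Bool) × ℕ => ∀ y, DI r.1.1 y → ∃ x, EvE r.2 x y :=
    Delta11.all (P := fun s : ((ℕ × ℕ × Bool) × ℕ) × ℕ => DI s.1.1.1 s.2 →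
      ∃ x, EvE s.1.2 x s.2)
      ((delta_DI (c_fst (c_fst (c_fst c_id))) (c_snd c_id)).imp
      (Delta11.ex (P := fun s : (((ℕ × ℕ × Bool) × ℕ) × ℕ) × ℕ => EvE s.1.1.2 s.2 s.1.2)
        (delta_EvE (c_snd (c_fst (c_fst c_id))) (c_snd c_id) (c_snd (c_fst c_id)))))
  have h4' : Delta11 fun r : (ℕ × ℕ × Bool) × ℕ => ∀ q : ℕ × ℕ, EvE r.2 q.1 q.2 →
      DI r.1.1 q.2 := by
    refine Delta11.all' (P := fun s : ((ℕ × ℕ × Bool) × ℕ) × ℕ × ℕ =>
      EvE s.1.2 s.2.1 s.2.2 → DI s.1.1.1 s.2.2) ?_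
    exact (delta_EvE (c_snd (c_fst c_id)) (c_fst (c_snd c_id)) (c_snd (c_snd c_id))).imp
      (delta_DI (c_fst (c_fst (c_fst c_id))) (c_snd (c_snd c_id)))
  have h5 : Delta11 fun r : (ℕ × ℕ × Bool) × ℕ => ∀ q : ℕ × ℕ × ℕ,
      EvE r.2 q.1 q.2.2 → EvE r.2 q.2.1 q.2.2 → q.1 = q.2.1 := by
    refine Delta11.all' (P := fun s : ((ℕ × ℕ × Bool) × ℕ) × ℕ × ℕ × ℕ =>
      EvE s.1.2 s.2.1 s.2.2.2 → EvE s.1.2 s.2.2.1 s.2.2.2 → s.2.1 = s.2.2.1) ?_
    have hk : Computable fun s : ((ℕ × ℕ × Bool) × ℕ) × ℕ × ℕ × ℕ => s.1.2 :=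
      c_snd (c_fst c_id)
    have ha : Computable fun s : ((ℕ × ℕ × Bool) × ℕ) × ℕ × ℕ × ℕ => s.2.1 :=
      c_fst (c_snd c_id)
    have hb : Computable fun s : ((ℕ × ℕ × Bool) × ℕ) × ℕ × ℕ × ℕ => s.2.2.1 :=
      c_fst (c_snd (c_snd c_id))
    have hc : Computable fun s : ((ℕ × ℕ × Bool) × ℕ) × ℕ × ℕ × ℕ => s.2.2.2 :=
      c_snd (c_snd (c_snd c_id))
    exact (delta_EvE hk ha hc).imp ((delta_EvE hk hb hc).imp
      (Delta11.of_computable (p_eq ha hb)))
  have h6 : Delta11 fun r : (ℕ × ℕ × Bool) × ℕ => ∀ q : ℕ × ℕ × ℕ × ℕ × ℕ,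
      EvE r.2 q.2.1 q.2.2.2.1 → EvE r.2 q.2.2.1 q.2.2.2.2 → q.1 ≠ 0 →
      (Rel pH false q.1 (el pH q.2.1) (el pH q.2.2.1) ↔
        RI r.1.1 q.1 [q.2.2.2.1, q.2.2.2.2]) := by
    refine Delta11.all' (P := fun s : ((ℕ × ℕ × Bool) × ℕ) × ℕ × ℕ × ℕ × ℕ × ℕ =>
      EvE s.1.2 s.2.2.1 s.2.2.2.2.1 → EvE s.1.2 s.2.2.2.1 s.2.2.2.2.2 → s.2.1 ≠ 0 →
      (Rel pH false s.2.1 (el pH s.2.2.1) (el pH s.2.2.2.1) ↔
        RI s.1.1.1 s.2.1 [s.2.2.2.2.1, s.2.2.2.2.2])) ?_
    have hk : Computable fun s : ((ℕ × ℕ × Bool) × ℕ) × ℕ × ℕ × ℕ × ℕ × ℕ => s.1.2 :=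
      c_snd (c_fst c_id)
    have he : Computable fun s : ((ℕ × ℕ × Bool) × ℕ) × ℕ × ℕ × ℕ × ℕ × ℕ => s.1.1.1 :=
      c_fst (c_fst (c_fst c_id))
    have hi : Computable fun s : ((ℕ × ℕ × Bool) × ℕ) × ℕ × ℕ × ℕ × ℕ × ℕ => s.2.1 :=
      c_fst (c_snd c_id)
    have hx : Computable fun s : ((ℕ × ℕ × Bool) × ℕ) × ℕ × ℕ × ℕ × ℕ × ℕ => s.2.2.1 :=
      c_fst (c_snd (c_snd c_id))
    have hy : Computable fun s : ((ℕ × ℕ × Bool) × ℕ) × ℕ × ℕ × ℕ × ℕ × ℕ => s.2.2.2.1 :=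
      c_fst (c_snd (c_snd (c_snd c_id)))
    have hx' : Computable fun s : ((ℕ × ℕ × Bool) × ℕ) × ℕ × ℕ × ℕ × ℕ × ℕ =>
        s.2.2.2.2.1 := c_fst (c_snd (c_snd (c_snd (c_snd c_id))))
    have hy' : Computable fun s : ((ℕ × ℕ × Bool) × ℕ) × ℕ × ℕ × ℕ × ℕ × ℕ =>
        s.2.2.2.2.2 := c_snd (c_snd (c_snd (c_snd (c_snd c_id))))
    have hR : ComputablePred fun s : ((ℕ × ℕ × Bool) × ℕ) × ℕ × ℕ × ℕ × ℕ × ℕ =>
        Rel pH false s.2.1 (el pH s.2.2.1) (el pH s.2.2.2.1) :=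
      computablePred_comp (P := fun q : ℕ × ℕ × ℕ => Rel pH false q.1 q.2.1 q.2.2)
        (p_rel c_pH false) (c_pair hi (c_pair (hel.comp hx) (hel.comp hy)))
    exact (delta_EvE hk hx hx').imp ((delta_EvE hk hy hy').imp
      ((Delta11.of_computable (p_not (p_eq hi (c_const 0)))).imp
        ((Delta11.of_computable hR).iff (delta_RI he hi (hpl hx' hy')))))
  have h7 : Delta11 fun r : (ℕ × ℕ × Bool) × ℕ => ∀ q : ℕ × ℕ,
      EvE r.2 q.1 q.2 → (PP r.1.2.1 r.1.2.2 (el pH q.1) ↔ RI r.1.1 0 [q.2, q.2]) := by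
    refine Delta11.all' (P := fun s : ((ℕ × ℕ × Bool) × ℕ) × ℕ × ℕ =>
      EvE s.1.2 s.2.1 s.2.2 → (PP s.1.1.2.1 s.1.1.2.2 (el pH s.2.1) ↔
        RI s.1.1.1 0 [s.2.2, s.2.2])) ?_
    have hk : Computable fun s : ((ℕ × ℕ × Bool) × ℕ) × ℕ × ℕ => s.1.2 :=
      c_snd (c_fst c_id)
    have he : Computable fun s : ((ℕ × ℕ × Bool) × ℕ) × ℕ × ℕ => s.1.1.1 :=
      c_fst (c_fst (c_fst c_id))
    have hu : Computable fun s : ((ℕ × ℕ × Bool) × ℕ) × ℕ × ℕ => s.1.1.2.1 :=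
      c_fst (c_snd (c_fst (c_fst c_id)))
    have hb : Computable fun s : ((ℕ × ℕ × Bool) × ℕ) × ℕ × ℕ => s.1.1.2.2 :=
      c_snd (c_snd (c_fst (c_fst c_id)))
    have hx : Computable fun s : ((ℕ × ℕ × Bool) × ℕ) × ℕ × ℕ => s.2.1 :=
      c_fst (c_snd c_id)
    have hx' : Computable fun s : ((ℕ × ℕ × Bool) × ℕ) × ℕ × ℕ => s.2.2 :=
      c_snd (c_snd c_id)
    have hP : ComputablePred fun s : ((ℕ × ℕ × Bool) × ℕ) × ℕ × ℕ =>
        PP s.1.1.2.1 s.1.1.2.2 (el pH s.2.1) :=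
      p_and (p_eq (c_up1 (hel.comp hx)) hu) (p_eqb (c_par (c_up2 (hel.comp hx))) hb)
    exact (delta_EvE hk hx hx').imp ((Delta11.of_computable hP).iff
      (delta_RI he (c_const 0) (hpl hx' hx')))
  have h8 : Delta11 fun r : (ℕ × ℕ × Bool) × ℕ => CxP r.1.2.1 r.1.2.2 r.1.1 r.2 :=
    h3.and (h4.and (h4'.and (h5.and (h6.and h7))))
  have h9 : Delta11 fun p : ℕ × ℕ × Bool => ∃ k, CxP p.2.1 p.2.2 p.1 k :=
    Delta11.ex (P := fun r : (ℕ × ℕ × Bool) × ℕ => CxP r.1.2.1 r.1.2.2 r.1.1 r.2) h8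
  exact (h1.and (h2.and h9)).of_iff fun p => cx_iff'

end Pool.Agent.H437R3.Iso
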