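import Mathlib
import Pool.Agent.H437R3.IsoB

/-!
A class of structures with hyperarithmetic index set whose isomorphism problem is `Σ¹₁`, not
`Δ¹₁`, and not `Σ¹₁`-complete.
-/

set_option autoImplicit false
set_option maxHeartbeats 400000

namespace Pool.Agent.H437R3.Iso

open Encodable Denumerable Nat.Partrec Pool.Agent.Helper941 Pool.Agent.Helper941.IsoProb
open Pool.Agent.Helper941.Zeta Pool.Agent.Helper941.Dim Pool.Agent.Helper941.Hyp

/-! ### definitions -/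

/-- `y` is a pair of indices of structures with node `u` -/
def Val (y : ℕ × ℕ) (u : ℕ) : Prop := Nd u ∧ (∃ c, Cx u c y.1) ∧ ∃ c, Cx u c y.2

/-- the value of the `j`-th function at the `m`-th witness is a pair whose label, if any, has a
large index -/
def Big (j m : ℕ) : Prop := ∃ y : ℕ × ℕ, EvE j (Nat.pair j m) (encode y) ∧
  ∀ q : ℕ × ℕ × ℕ, Val y q.1 → Lb q.1 q.2.1 q.2.2 → j < q.2.1

/-- the `j`-th requirement restrains the label `pad i k` -/
def Rst (j i k : ℕ) : Prop := ∃ m, (Big j m ∧ ∀ m' < m, ¬ Big j m') ∧ ∃ y : ℕ × ℕ,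
  EvE j (Nat.pair j m) (encode y) ∧ ∃ u, Val y u ∧ Lb u i k

/-- the nodes which are used by the class -/
def DD (u : ℕ) : Prop := Nd u ∧ ∃ q : ℕ × ℕ, Lb u q.1 q.2 ∧ ∀ j < q.1, ¬ Rst j q.1 q.2

/-- the two structures are not trivially isomorphic -/
def Opp (y : ℕ × ℕ) : Prop := ¬ ∃ q : ℕ × Bool, Nd q.1 ∧ Cx q.1 q.2 y.1 ∧ Cx q.1 q.2 y.2

def Same (y' y : ℕ × ℕ) : Prop := ∃ q : ℕ × ℕ × ℕ × ℕ,
  (Val y q.1 ∧ Val y' q.2.1 ∧ Lb q.1 q.2.2.1 q.2.2.2 ∧ Lb q.2.1 q.2.2.1 q.2.2.2) ∧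
  ((Opp y ∧ Opp y' ∧ q.1 = q.2.1) ∨ (¬ Opp y ∧ ¬ Opp y'))

def Dup (j m : ℕ) : Prop := (∀ m', ¬ Big j m') ∧ ∃ m' < m, ∃ q : (ℕ × ℕ) × ℕ × ℕ,
  EvE j (Nat.pair j m') (encode q.1) ∧ EvE j (Nat.pair j m) (encode q.2) ∧ Same q.1 q.2

/-- the set which is not reducible to the isomorphism problem -/
def C0 (x : ℕ) : Prop := ¬ Dup x.unpair.1 x.unpair.2

/-- the class of structures -/
def K : Set (IsoProb.Str ar2) := {A | ∃ u b, DD u ∧ (full (MS (PP u b))).Iso A}

/-! ### complexity -/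

section
variable {α : Type} [Primcodable α]

theorem c_J {u : α → ℕ} (hu : Computable u) : Computable fun a => dH.J (u a) :=
  con_J p_HT c_prn hu

theorem c_lab {u : α → ℕ} (hu : Computable u) : Computable fun a => lab (u a) :=
  Computable.encode.comp (Computable.list_cons.comp hu (c_const []))

theorem delta_Cx' {u e : α → ℕ} {b : α → Bool} (hu : Computable u) (hb : Computable b)
    (he : Computable e) : Delta11 fun a => Cx (u a) (b a) (e a) :=
  delta_Cx.comp (f := fun a => (e a, u a, b a)) (c_pair he (c_pair hu hb))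

theorem delta_Nd {u : α → ℕ} (hu : Computable u) : Delta11 fun a => Nd (u a) := by
  have h1 : Delta11 fun a => 1 ≤ u a ∧ pH (u a) = 0 :=
    Delta11.of_computable (p_and (p_le (c_const 1) hu) (p_eq (c_pH.comp hu) (c_const 0)))
  have h2 : Delta11 fun a => ∃ w, 1 ≤ w ∧ pH w = u a := by
    refine Delta11.ex (P := fun p : α × ℕ => 1 ≤ p.2 ∧ pH p.2 = u p.1)
      (Delta11.of_computable (p_and (p_le (c_const 1) (c_snd c_id))
        (p_eq (c_pH.comp (c_snd c_id)) (hu.comp (c_fst c_id)))))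
  exact h1.and h2

theorem delta_Lb {u i k : α → ℕ} (hu : Computable u) (hi : Computable i) (hk : Computable k) :
    Delta11 fun a => Lb (u a) (i a) (k a) :=
  Delta11.of_computable (p_and (p_eq (c_J hu) (c_succ (c_lab (c_pad hi hk)))) (p_le hk hi))

theorem delta_Val {y : α → ℕ × ℕ} {u : α → ℕ} (hy : Computable y) (hu : Computable u) :
    Delta11 fun a => Val (y a) (u a) := by
  have h1 : Delta11 fun a => ∃ c, Cx (u a) c (y a).1 :=
    Delta11.ex' (P := fun p : α × Bool => Cx (u p.1) p.2 (y p.1).1)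
      (delta_Cx' (hu.comp (c_fst c_id)) (c_snd c_id) (c_fst (hy.comp (c_fst c_id))))
  have h2 : Delta11 fun a => ∃ c, Cx (u a) c (y a).2 :=
    Delta11.ex' (P := fun p : α × Bool => Cx (u p.1) p.2 (y p.1).2)
      (delta_Cx' (hu.comp (c_fst c_id)) (c_snd c_id) (c_snd (hy.comp (c_fst c_id))))
  exact (delta_Nd hu).and (h1.and h2)

theorem delta_Opp {y : α → ℕ × ℕ} (hy : Computable y) : Delta11 fun a => Opp (y a) := by
  refine Delta11.not (Delta11.ex' (P := fun p : α × ℕ × Bool => Nd p.2.1 ∧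
    Cx p.2.1 p.2.2 (y p.1).1 ∧ Cx p.2.1 p.2.2 (y p.1).2) ?_)
  have h1 : Computable fun p : α × ℕ × Bool => p.2.1 := c_fst (c_snd c_id)
  have h2 : Computable fun p : α × ℕ × Bool => p.2.2 := c_snd (c_snd c_id)
  have h3 : Computable fun p : α × ℕ × Bool => y p.1 := hy.comp (c_fst c_id)
  exact (delta_Nd h1).and ((delta_Cx' h1 h2 (c_fst h3)).and (delta_Cx' h1 h2 (c_snd h3)))

theorem delta_Big {j m : α → ℕ} (hj : Computable j) (hm : Computable m) :
    Delta11 fun a => Big (j a) (m a) := by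
  refine Delta11.ex' (P := fun p : α × ℕ × ℕ => EvE (j p.1) (Nat.pair (j p.1) (m p.1))
    (encode p.2) ∧ ∀ q : ℕ × ℕ × ℕ, Val p.2 q.1 → Lb q.1 q.2.1 q.2.2 → j p.1 < q.2.1) ?_
  have hj' : Computable fun p : α × ℕ × ℕ => j p.1 := hj.comp (c_fst c_id)
  have hm' : Computable fun p : α × ℕ × ℕ => m p.1 := hm.comp (c_fst c_id)
  refine (delta_EvE hj' (c_npair hj' hm') (Computable.encode.comp (c_snd c_id))).and ?_
  refine Delta11.all' (P := fun r : (α × ℕ × ℕ) × ℕ × ℕ × ℕ => Val r.1.2 r.2.1 →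
    Lb r.2.1 r.2.2.1 r.2.2.2 → j r.1.1 < r.2.2.1) ?_
  have h1 : Computable fun r : (α × ℕ × ℕ) × ℕ × ℕ × ℕ => r.2.1 := c_fst (c_snd c_id)
  have h2 : Computable fun r : (α × ℕ × ℕ) × ℕ × ℕ × ℕ => r.2.2.1 :=
    c_fst (c_snd (c_snd c_id))
  have h3 : Computable fun r : (α × ℕ × ℕ) × ℕ × ℕ × ℕ => r.2.2.2 :=
    c_snd (c_snd (c_snd c_id))
  exact (delta_Val (c_snd (c_fst c_id)) h1).imp ((delta_Lb h1 h2 h3).imp
    (Delta11.of_computable (p_lt (hj'.comp (c_fst c_id)) h2)))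

theorem delta_Rst {j i k : α → ℕ} (hj : Computable j) (hi : Computable i) (hk : Computable k) :
    Delta11 fun a => Rst (j a) (i a) (k a) := by
  refine Delta11.ex (P := fun p : α × ℕ => (Big (j p.1) p.2 ∧ ∀ m' < p.2, ¬ Big (j p.1) m') ∧
    ∃ y : ℕ × ℕ, EvE (j p.1) (Nat.pair (j p.1) p.2) (encode y) ∧
      ∃ u, Val y u ∧ Lb u (i p.1) (k p.1)) ?_
  have hj' : Computable fun p : α × ℕ => j p.1 := hj.comp (c_fst c_id)
  refine ((delta_Big hj' (c_snd c_id)).and ?_).and ?_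
  · refine Delta11.all (P := fun r : (α × ℕ) × ℕ => r.2 < r.1.2 → ¬ Big (j r.1.1) r.2) ?_
    exact (Delta11.of_computable (p_lt (c_snd c_id) (c_snd (c_fst c_id)))).imp
      (delta_Big (hj'.comp (c_fst c_id)) (c_snd c_id)).not
  · refine Delta11.ex' (P := fun r : (α × ℕ) × ℕ × ℕ =>
      EvE (j r.1.1) (Nat.pair (j r.1.1) r.1.2) (encode r.2) ∧
      ∃ u, Val r.2 u ∧ Lb u (i r.1.1) (k r.1.1)) ?_
    have hj2 : Computable fun r : (α × ℕ) × ℕ × ℕ => j r.1.1 := hj'.comp (c_fst c_id)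
    refine (delta_EvE hj2 (c_npair hj2 (c_snd (c_fst c_id)))
      (Computable.encode.comp (c_snd c_id))).and ?_
    refine Delta11.ex (P := fun s : ((α × ℕ) × ℕ × ℕ) × ℕ => Val s.1.2 s.2 ∧
      Lb s.2 (i s.1.1.1) (k s.1.1.1)) ?_
    have h0 : Computable fun s : ((α × ℕ) × ℕ × ℕ) × ℕ => s.1.1.1 :=
      c_fst (c_fst (c_fst c_id))
    exact (delta_Val (c_snd (c_fst c_id)) (c_snd c_id)).and
      (delta_Lb (c_snd c_id) (hi.comp h0) (hk.comp h0))

theorem delta_DD {u : α → ℕ} (hu : Computable u) : Delta11 fun a => DD (u a) := by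
  refine (delta_Nd hu).and (Delta11.ex' (P := fun p : α × ℕ × ℕ => Lb (u p.1) p.2.1 p.2.2 ∧
    ∀ j < p.2.1, ¬ Rst j p.2.1 p.2.2) ?_)
  have h1 : Computable fun p : α × ℕ × ℕ => p.2.1 := c_fst (c_snd c_id)
  have h2 : Computable fun p : α × ℕ × ℕ => p.2.2 := c_snd (c_snd c_id)
  refine (delta_Lb (hu.comp (c_fst c_id)) h1 h2).and ?_
  refine Delta11.all (P := fun r : (α × ℕ × ℕ) × ℕ => r.2 < r.1.2.1 →
    ¬ Rst r.2 r.1.2.1 r.1.2.2) ?_
  exact (Delta11.of_computable (p_lt (c_snd c_id) (h1.comp (c_fst c_id)))).imp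
    (delta_Rst (c_snd c_id) (h1.comp (c_fst c_id)) (h2.comp (c_fst c_id))).not

theorem delta_Same {y' y : α → ℕ × ℕ} (hy' : Computable y') (hy : Computable y) :
    Delta11 fun a => Same (y' a) (y a) := by
  refine Delta11.ex' (P := fun p : α × ℕ × ℕ × ℕ × ℕ =>
    (Val (y p.1) p.2.1 ∧ Val (y' p.1) p.2.2.1 ∧ Lb p.2.1 p.2.2.2.1 p.2.2.2.2 ∧
      Lb p.2.2.1 p.2.2.2.1 p.2.2.2.2) ∧
    ((Opp (y p.1) ∧ Opp (y' p.1) ∧ p.2.1 = p.2.2.1) ∨ (¬ Opp (y p.1) ∧ ¬ Opp (y' p.1)))) ?_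
  have h0 : Computable fun p : α × ℕ × ℕ × ℕ × ℕ => y p.1 := hy.comp (c_fst c_id)
  have h0' : Computable fun p : α × ℕ × ℕ × ℕ × ℕ => y' p.1 := hy'.comp (c_fst c_id)
  have h1 : Computable fun p : α × ℕ × ℕ × ℕ × ℕ => p.2.1 := c_fst (c_snd c_id)
  have h2 : Computable fun p : α × ℕ × ℕ × ℕ × ℕ => p.2.2.1 := c_fst (c_snd (c_snd c_id))
  have h3 : Computable fun p : α × ℕ × ℕ × ℕ × ℕ => p.2.2.2.1 :=
    c_fst (c_snd (c_snd (c_snd c_id)))
  have h4 : Computable fun p : α × ℕ × ℕ × ℕ × ℕ => p.2.2.2.2 :=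
    c_snd (c_snd (c_snd (c_snd c_id)))
  exact ((delta_Val h0 h1).and ((delta_Val h0' h2).and ((delta_Lb h1 h3 h4).and
    (delta_Lb h2 h3 h4)))).and (((delta_Opp h0).and ((delta_Opp h0').and
      (Delta11.of_computable (p_eq h1 h2)))).or ((delta_Opp h0).not.and (delta_Opp h0').not))

theorem delta_Dup {j m : α → ℕ} (hj : Computable j) (hm : Computable m) :
    Delta11 fun a => Dup (j a) (m a) := by
  refine (Delta11.all (P := fun p : α × ℕ => ¬ Big (j p.1) p.2)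
    (delta_Big (hj.comp (c_fst c_id)) (c_snd c_id)).not).and ?_
  refine Delta11.ex (P := fun p : α × ℕ => p.2 < m p.1 ∧ ∃ q : (ℕ × ℕ) × ℕ × ℕ,
    EvE (j p.1) (Nat.pair (j p.1) p.2) (encode q.1) ∧
    EvE (j p.1) (Nat.pair (j p.1) (m p.1)) (encode q.2) ∧ Same q.1 q.2) ?_
  refine (Delta11.of_computable (p_lt (c_snd c_id) (hm.comp (c_fst c_id)))).and ?_
  refine Delta11.ex' (P := fun r : (α × ℕ) × (ℕ × ℕ) × ℕ × ℕ =>
    EvE (j r.1.1) (Nat.pair (j r.1.1) r.1.2) (encode r.2.1) ∧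
    EvE (j r.1.1) (Nat.pair (j r.1.1) (m r.1.1)) (encode r.2.2) ∧ Same r.2.1 r.2.2) ?_
  have hj' : Computable fun r : (α × ℕ) × (ℕ × ℕ) × ℕ × ℕ => j r.1.1 :=
    hj.comp (c_fst (c_fst c_id))
  have hm' : Computable fun r : (α × ℕ) × (ℕ × ℕ) × ℕ × ℕ => m r.1.1 :=
    hm.comp (c_fst (c_fst c_id))
  have h1 : Computable fun r : (α × ℕ) × (ℕ × ℕ) × ℕ × ℕ => r.2.1 := c_fst (c_snd c_id)
  have h2 : Computable fun r : (α × ℕ) × (ℕ × ℕ) × ℕ × ℕ => r.2.2 := c_snd (c_snd c_id)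
  exact (delta_EvE hj' (c_npair hj' (c_snd (c_fst c_id))) (Computable.encode.comp h1)).and
    ((delta_EvE hj' (c_npair hj' hm') (Computable.encode.comp h2)).and (delta_Same h1 h2))

theorem delta_C0 : Delta11 C0 := (delta_Dup (c_up1 c_id) (c_up2 c_id)).not

theorem sigma_Y : Sigma11 Y := by
  refine sigma11_gen (R := fun q : ℕ × ℕ × List ℕ =>
    ((gt q.2.2 q.2.1.unpair.1).testBit q.2.1.unpair.2 = true →
      1 ≤ q.2.1.unpair.2 ∧ pH q.2.1.unpair.2 = q.2.1.unpair.1) ∧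
    (1 ≤ q.2.1.unpair.2 → (gt q.2.2 (pH q.2.1.unpair.2)).testBit q.2.1.unpair.2 =
      par (gt q.2.2 q.2.1.unpair.2)) ∧ par (gt q.2.2 q.1) = true)
    (u := fun p => p.1 + p.2.unpair.1 + p.2.unpair.2 + pH p.2.unpair.2 + 1) ?_ ?_ fun u => ?_
  · have hl : Computable fun q : ℕ × ℕ × List ℕ => q.2.2 := c_snd (c_snd c_id)
    have h1 : Computable fun q : ℕ × ℕ × List ℕ => q.2.1.unpair.1 :=
      c_up1 (c_fst (c_snd c_id))
    have h2 : Computable fun q : ℕ × ℕ × List ℕ => q.2.1.unpair.2 :=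
      c_up2 (c_fst (c_snd c_id))
    exact p_and (p_imp (p_testBit (c_gt hl h1) h2) (p_and (p_le (c_const 1) h2)
      (p_eq (c_pH.comp h2) h1))) (p_and (p_imp (p_le (c_const 1) h2)
      (p_eqb (c_testBit (c_gt hl (c_pH.comp h2)) h2) (c_par (c_gt hl h2))))
      (p_of_bool (c_par (c_gt hl (c_fst c_id)))))
  · have h2 : Computable fun p : ℕ × ℕ => p.2.unpair.2 := c_up2 (c_snd c_id)
    exact c_succ (c_add (c_add (c_add (c_fst c_id) (c_up1 (c_snd c_id))) h2) (c_pH.comp h2))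
  · constructor
    · rintro ⟨t, hF, ht⟩
      refine ⟨t, fun n => ?_⟩
      simp only
      rw [gt_range t (by omega), gt_range t (by omega), gt_range t (by omega),
        gt_range t (by omega)]
      exact ⟨hF.child _ _, hF.par _, ht⟩
    · rintro ⟨t, ht⟩
      have key : ∀ v w, ((t v).testBit w = true → 1 ≤ w ∧ pH w = v) ∧
          (1 ≤ w → (t (pH w)).testBit w = par (t w)) ∧ par (t u) = true := by
        intro v w
        have h := ht (Nat.pair v w)
        simp only [Nat.unpair_pair] at h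
        rw [gt_range t (by omega), gt_range t (by omega), gt_range t (by omega),
          gt_range t (by omega)] at h
        exact h
      exact ⟨t, ⟨fun v w => (key v w).1, fun w => (key 0 w).2.1⟩, (key 0 0).2.2⟩

end

/-! ### the isomorphism problem -/

theorem node_uniq {A : IsoProb.Str ar2} {u u' : ℕ} {c c' : Bool} (hu : Nd u)
    (h : (full (MS (PP u c))).Iso A) (h' : (full (MS (PP u' c'))).Iso A) : u = u' := by
  obtain ⟨t, _, ht⟩ := ms_iso.1 (full_full.1 (iso_trans h (iso_symm h')))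
  exact nd_uniq hu.2 ht

theorem cx_uniq {e u u' : ℕ} {c c' : Bool} (hu : Nd u) (h : Cx u c e) (h' : Cx u' c' e) :
    u = u' := node_uniq hu h.iso h'.iso

theorem Val.uniq {y : ℕ × ℕ} {u u' : ℕ} (h : Val y u) (h' : Val y u') : u = u' := by
  obtain ⟨h1, ⟨c, h2⟩, _⟩ := h
  obtain ⟨_, ⟨c', h3⟩, _⟩ := h'
  exact cx_uniq h1 h2 h3

theorem k_closed : ∀ A ∈ K, ∀ B, A.Iso B → B ∈ K := by
  rintro A ⟨u, b, h1, h2⟩ B h3
  exact ⟨u, b, h1, iso_trans h2 h3⟩

theorem idx_k (e : ℕ) : IsoProb.IndexSet K e ↔ ∃ q : ℕ × Bool, DD q.1 ∧ Cx q.1 q.2 e := by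
  constructor
  · rintro ⟨A, ⟨u, b, hu, hA⟩, he⟩
    obtain ⟨h1, rfl⟩ := eq_of_ix he
    rcases cx_of_iso h1 hA with h3 | ⟨_, h3⟩
    · exact ⟨(u, b), hu, h3⟩
    · exact ⟨(u, !b), hu, h3⟩
  · rintro ⟨⟨u, b⟩, hu, h⟩
    exact ⟨SX e h.1, ⟨u, b, hu, h.iso⟩, index_SX h.1⟩

theorem delta_idx : Delta11 (IsoProb.IndexSet K) := by
  refine (Delta11.ex' (P := fun p : ℕ × ℕ × Bool => DD p.2.1 ∧ Cx p.2.1 p.2.2 p.1) ?_).of_iff
    idx_k
  exact (delta_DD (c_fst (c_snd c_id))).and delta_Cx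

def G (u : ℕ) (b : Bool) (p : ℕ × ℕ) : Prop :=
  Cx u b p.2 ∧ (Cx u b p.1 ∨ (Y u ∧ Cx u (!b) p.1))

theorem ek_iff (p : ℕ × ℕ) : IsoProblem K p ↔ ∃ u, DD u ∧ (G u false p ∨ G u true p) := by
  have h0 : (∃ u, DD u ∧ (G u false p ∨ G u true p)) ↔ ∃ u b, DD u ∧ G u b p := by
    constructor
    · rintro ⟨u, h1, h2 | h2⟩
      · exact ⟨u, false, h1, h2⟩
      · exact ⟨u, true, h1, h2⟩
    · rintro ⟨u, b, h1, h2⟩
      cases b with
      | false => exact ⟨u, h1, Or.inl h2⟩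
      | true => exact ⟨u, h1, Or.inr h2⟩
  rw [h0]
  constructor
  · rintro ⟨A, _, B, ⟨u, b, hu, hB⟩, hx, hy, hAB⟩
    obtain ⟨h1, rfl⟩ := eq_of_ix hx
    obtain ⟨h2, rfl⟩ := eq_of_ix hy
    obtain ⟨b', hb'⟩ : ∃ b', Cx u b' p.2 := by
      rcases cx_of_iso h2 hB with h3 | ⟨_, h3⟩
      · exact ⟨_, h3⟩
      · exact ⟨_, h3⟩
    exact ⟨u, b', hu, hb', cx_of_iso h1 (iso_trans hb'.iso (iso_symm hAB))⟩
  · rintro ⟨u, b, hu, h1, h2⟩
    obtain ⟨h3, h4⟩ := cx_iff.2 h2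
    exact ⟨SX p.1 h3, ⟨u, b, hu, h4⟩, SX p.2 h1.1, ⟨u, b, hu, h1.iso⟩, index_SX h3,
      index_SX h1.1, iso_trans (iso_symm h4) h1.iso⟩

theorem sigma_ek : Sigma11 (IsoProblem K) := by
  have hG : ∀ b, Sigma11 fun q : (ℕ × ℕ) × ℕ => G q.2 b q.1 := by
    intro b
    exact (delta_Cx' (c_snd c_id) (c_const b) (c_snd (c_fst c_id))).1.and
      ((delta_Cx' (c_snd c_id) (c_const b) (c_fst (c_fst c_id))).1.or
        ((sigma_Y.comp (c_snd c_id)).and
          (delta_Cx' (c_snd c_id) (c_const (!b)) (c_fst (c_fst c_id))).1))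
  have h1 : Sigma11 fun q : (ℕ × ℕ) × ℕ => DD q.2 ∧ (G q.2 false q.1 ∨ G q.2 true q.1) :=
    (delta_DD (c_snd c_id)).1.and ((hG false).or (hG true))
  exact h1.ex.of_iff ek_iff

theorem dd_lb {u i k : ℕ} (h : Lb u i k) : DD u ↔ Nd u ∧ ∀ j < i, ¬ Rst j i k := by
  unfold DD
  refine and_congr_right fun _ => ?_
  constructor
  · rintro ⟨⟨i', k'⟩, h1, h2⟩
    obtain ⟨h3, h4⟩ := h.uniq h1
    subst h3 h4
    exact h2
  · intro h1
    exact ⟨(i, k), h, h1⟩

theorem ek_val {y : ℕ × ℕ} {u : ℕ} (h : Val y u) :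
    IsoProblem K y ↔ DD u ∧ (¬ Opp y ∨ Y u) := by
  rw [ek_iff]
  obtain ⟨hN, ⟨c1, hc1⟩, ⟨c2, hc2⟩⟩ := h
  constructor
  · rintro ⟨u', hD, hG⟩
    have hG' : ∃ b, G u' b y := hG.elim (fun h => ⟨_, h⟩) fun h => ⟨_, h⟩
    obtain ⟨b, hb1, hb2⟩ := hG'
    have hu : u' = u := cx_uniq hD.1 hb1 hc2
    subst hu
    refine ⟨hD, ?_⟩
    rcases hb2 with h1 | ⟨h1, _⟩
    · exact Or.inl fun ho => ho ⟨(u', b), hD.1, h1, hb1⟩
    · exact Or.inr h1
  · rintro ⟨hD, h1⟩
    refine ⟨u, hD, ?_⟩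
    have key : ∃ b, G u b y := by
      rcases h1 with h1 | h1
      · unfold Opp at h1
        rw [not_not] at h1
        obtain ⟨⟨u', b⟩, h2, h3, h4⟩ := h1
        have hu : u' = u := cx_uniq h2 h3 hc1
        subst hu
        exact ⟨b, h4, Or.inl h3⟩
      · refine ⟨c2, hc2, ?_⟩
        by_cases hc : c1 = c2
        · subst hc
          exact Or.inl hc1
        · have : c1 = !c2 := by cases c1 <;> cases c2 <;> simp_all
          rw [this] at hc1
          exact Or.inr ⟨h1, hc1⟩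
    obtain ⟨b, hb⟩ := key
    cases b with
    | false => exact Or.inl hb
    | true => exact Or.inr hb

/-! ### the restraints -/

theorem evE_fun {j x a b : ℕ} (h : EvE j x a) (h' : EvE j x b) : a = b :=
  Part.some_inj.1 (h.symm.trans h')

theorem rst_uniq {j i k i' k' : ℕ} (h : Rst j i k) (h' : Rst j i' k') : i = i' ∧ k = k' := by
  obtain ⟨m, ⟨hb, hm⟩, y, hy, u, hu, hl⟩ := h
  obtain ⟨m', ⟨hb', hm'⟩, y', hy', u', hu', hl'⟩ := h'
  have h1 : m = m' := by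
    rcases lt_trichotomy m m' with h2 | h2 | h2
    · exact (hm' m h2 hb).elim
    · exact h2
    · exact (hm m' h2 hb').elim
  subst h1
  have h2 : y = y' := encode_injective (evE_fun hy hy')
  subst h2
  have h3 := hu.uniq hu'
  subst h3
  exact hl.uniq hl'

theorem exists_free (i : ℕ) : ∃ k ≤ i, ∀ j < i, ¬ Rst j i k := by
  classical
  by_contra hc
  push Not at hc
  choose! f hf using hc
  obtain ⟨a, ha, b, hb, hab, hfab⟩ := Finset.exists_ne_map_eq_of_card_lt_of_maps_to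
    (s := Finset.range (i + 1)) (t := Finset.range i) (by simp) (f := f) (by
      intro a ha
      have ha' : a ≤ i := by
        have := Finset.mem_range.1 (Finset.mem_coe.1 ha)
        omega
      exact Finset.mem_coe.2 (Finset.mem_range.2 (hf a ha').1))
  have ha' : a ≤ i := by
    have := Finset.mem_range.1 ha
    omega
  have hb' : b ≤ i := by
    have := Finset.mem_range.1 hb
    omega
  have h1 := (hf a ha').2
  have h2 := (hf b hb').2
  rw [hfab] at h1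
  exact hab (rst_uniq h1 h2).2

/-! ### the isomorphism problem is not hyperarithmetic -/

theorem not_delta_ek : ¬ Delta11 (IsoProblem K) := by
  intro h
  have hP : ComputablePred fun q : (ℕ × Bool) × ℕ => PP q.1.1 q.1.2 q.2 :=
    p_and (p_eq (c_up1 (c_snd c_id)) (c_fst (c_fst c_id)))
      (p_eqb (c_par (c_up2 (c_snd c_id))) (c_snd (c_fst c_id)))
  obtain ⟨g, hg, hgi⟩ := exists_ix (β := ℕ × Bool) (M := fun q => MS (PP q.1 q.2))
    (ms_comp (P := fun q : ℕ × Bool => PP q.1 q.2) hP)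
  let V : ℕ → Prop := fun e => ∃ u, (DD u ∧ dH.J u = lab e + 1) ∧
    IsoProblem K (g (u, false), g (u, true))
  have hV : Delta11 V := by
    refine Delta11.ex (P := fun p : ℕ × ℕ => (DD p.2 ∧ dH.J p.2 = lab p.1 + 1) ∧
      IsoProblem K (g (p.2, false), g (p.2, true))) ?_
    exact ((delta_DD (c_snd c_id)).and (Delta11.of_computable (p_eq (c_J (c_snd c_id))
      (c_succ (c_lab (c_fst c_id)))))).and (h.comp (c_pair
        (hg.comp (c_pair (c_snd c_id) (c_const false)))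
        (hg.comp (c_pair (c_snd c_id) (c_const true)))))
  have hiso : ∀ u, DD u → (IsoProblem K (g (u, false), g (u, true)) ↔ Y u) := by
    intro u hu
    rw [← pp_iso, ← full_full]
    constructor
    · rintro ⟨A, _, B, _, hx, hy, hAB⟩
      obtain ⟨h1, rfl⟩ := eq_of_ix hx
      obtain ⟨h2, rfl⟩ := eq_of_ix hy
      obtain ⟨h3, h4⟩ := eq_of_ix (hgi (u, false))
      obtain ⟨h5, h6⟩ := eq_of_ix (hgi (u, true))
      rw [h4, h6]
      exact hAB
    · intro h3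
      exact ⟨_, ⟨u, false, hu, iso_refl _⟩, _, ⟨u, true, hu, iso_refl _⟩, hgi _, hgi _, h3⟩
  obtain ⟨i, hi⟩ := universal11 hV.2
  obtain ⟨k, hk, hfree⟩ := exists_free i
  set e := pad i k with he
  have h1 : V e ↔ UU1 e e := by
    rw [← exists_nd_iff]
    refine exists_congr fun u => ?_
    constructor
    · rintro ⟨⟨h2, h3⟩, h4⟩
      exact ⟨h2.1, h3, (hiso u h2).1 h4⟩
    · rintro ⟨h2, h3, h4⟩
      have h5 : DD u := (dd_lb (i := i) (k := k) ⟨h3, hk⟩).2 ⟨h2, hfree⟩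
      exact ⟨⟨h5, h3⟩, (hiso u h5).2 h4⟩
  have h2 := hi e
  have h3 := uu1_pad i k e
  rw [← he] at h3
  by_cases hv : V e
  · exact (h2.2 (h3.1 (h1.1 hv))) hv
  · exact hv (h1.2 (h3.2 (h2.1 hv)))

/-! ### the isomorphism problem is not complete -/

theorem same_ek {y' y : ℕ × ℕ} (h : Same y' y) : IsoProblem K y' ↔ IsoProblem K y := by
  obtain ⟨⟨u, u', i, k⟩, ⟨h1, h2, h3, h4⟩, h5⟩ := h
  simp only at h1 h2 h3 h4 h5
  rw [ek_val h1, ek_val h2, dd_lb h3, dd_lb h4]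
  have h1' := h1.1
  have h2' := h2.1
  rcases h5 with ⟨h6, h7, rfl⟩ | ⟨h6, h7⟩
  · simp only [h6, h7]
  · simp [h6, h7, h1', h2']

theorem same_trans {y1 y2 y3 : ℕ × ℕ} (h : Same y1 y2) (h' : Same y2 y3) : Same y1 y3 := by
  obtain ⟨⟨u2, u1, i, k⟩, ⟨h1, h2, h3, h4⟩, h5⟩ := h
  obtain ⟨⟨u3, u2', i', k'⟩, ⟨h1', h2', h3', h4'⟩, h5'⟩ := h'
  simp only at h1 h2 h3 h4 h5 h1' h2' h3' h4' h5'
  have hu := h1.uniq h2'
  subst hu
  obtain ⟨hi, hk⟩ := h3.uniq h4'
  subst hi hk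
  refine ⟨(u3, u1, i, k), ⟨h1', h2, h3', h4⟩, ?_⟩
  simp only
  rcases h5 with ⟨h6, h7, h8⟩ | ⟨h6, h7⟩
  · rcases h5' with ⟨h6', h7', h8'⟩ | ⟨h6', h7'⟩
    · exact Or.inl ⟨h6', h7, h8'.trans h8⟩
    · exact (h7' h6).elim
  · rcases h5' with ⟨h6', h7', h8'⟩ | ⟨h6', h7'⟩
    · exact (h6 h7').elim
    · exact Or.inr ⟨h6', h7⟩

theorem not_reducible : ¬ ManyOneReducible C0 (IsoProblem K) := by
  classical
  rintro ⟨f, hf, hred⟩
  obtain ⟨c, hc⟩ := Code.exists_code.1 (Partrec.nat_iff.1 ((Computable.encode.comp hf).partrec))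
  set j := encode c with hj
  have hev : ∀ x z, EvE j x z ↔ encode (f x) = z := by
    intro x z
    unfold EvE
    rw [hj, ofNat_encode, hc]
    exact Part.some_inj
  have hx1 : ∀ m, (Nat.pair j m).unpair.1 = j := fun m => by rw [Nat.unpair_pair]
  have hx2 : ∀ m, (Nat.pair j m).unpair.2 = m := fun m => by rw [Nat.unpair_pair]
  let F : ℕ → ℕ × ℕ := fun m => f (Nat.pair j m)
  have hC : ∀ m, ¬ Dup j m ↔ IsoProblem K (F m) := by
    intro m
    have := hred (Nat.pair j m)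
    unfold C0 at this
    rw [hx1, hx2] at this
    exact this
  have hbig : ∀ m, Big j m ↔ ∀ q : ℕ × ℕ × ℕ, Val (F m) q.1 → Lb q.1 q.2.1 q.2.2 → j < q.2.1 := by
    intro m
    constructor
    · rintro ⟨y, hy, h⟩
      have : F m = y := encode_injective ((hev _ _).1 hy)
      rw [this]
      exact h
    · intro h
      exact ⟨F m, (hev _ _).2 rfl, h⟩
  by_cases hB : ∃ m, Big j m
  · -- a restraint
    have hm := Nat.find_spec hB
    have hmin : ∀ m' < Nat.find hB, ¬ Big j m' := fun m' h => Nat.find_min hB h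
    set m := Nat.find hB
    have h1 : ¬ Dup j m := fun h => h.1 m hm
    have h2 := (hC m).1 h1
    obtain ⟨u, hD, hG⟩ := (ek_iff _).1 h2
    have hG' : ∃ b, G u b (F m) := hG.elim (fun h => ⟨_, h⟩) fun h => ⟨_, h⟩
    obtain ⟨b, hb1, hb2⟩ := hG'
    have hval : Val (F m) u := by
      refine ⟨hD.1, ?_, b, hb1⟩
      rcases hb2 with h3 | ⟨_, h3⟩
      · exact ⟨_, h3⟩
      · exact ⟨_, h3⟩
    obtain ⟨_, ⟨i, k⟩, hL, hfree⟩ := hD
    have hlt := (hbig m).1 hm (u, i, k) hval hL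
    exact hfree j hlt ⟨m, ⟨hm, hmin⟩, F m, (hev _ _).2 rfl, u, hval, hL⟩
  · push Not at hB
    have hsm : ∀ m, ∃ q : ℕ × ℕ × ℕ, Val (F m) q.1 ∧ Lb q.1 q.2.1 q.2.2 ∧ q.2.1 ≤ j := by
      intro m
      have := hB m
      rw [hbig] at this
      push Not at this
      exact this
    by_cases hD : ∃ m, ∃ m' < m, Same (F m') (F m)
    · obtain ⟨m, m1, hm1, hs1⟩ := hD
      have hex : ∃ m', m' < m ∧ Same (F m') (F m) := ⟨m1, hm1, hs1⟩
      have h0 := Nat.find_spec hex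
      have hmin : ∀ m' < Nat.find hex, ¬ (m' < m ∧ Same (F m') (F m)) :=
        fun m' h => Nat.find_min hex h
      set m0 := Nat.find hex
      have hd : Dup j m := ⟨hB, m0, h0.1, (F m0, F m), (hev _ _).2 rfl, (hev _ _).2 rfl, h0.2⟩
      have hnd : ¬ Dup j m0 := by
        rintro ⟨_, m2, hm2, ⟨y2, y0⟩, h3, h4, h5⟩
        have e2 : F m2 = y2 := encode_injective ((hev _ _).1 h3)
        have e0 : F m0 = y0 := encode_injective ((hev _ _).1 h4)
        simp only at h5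
        rw [← e2, ← e0] at h5
        exact hmin m2 hm2 ⟨by omega, same_trans h5 h0.2⟩
      have h6 := (hC m0).1 hnd
      rw [same_ek h0.2] at h6
      exact (hC m).2 h6 hd
    · push Not at hD
      choose q hq1 hq2 hq3 using hsm
      have hin : ∀ m, IsoProblem K (F m) := by
        intro m
        refine (hC m).1 ?_
        rintro ⟨_, m', hm', ⟨y', y⟩, h3, h4, h5⟩
        have e2 : F m' = y' := encode_injective ((hev _ _).1 h3)
        have e0 : F m = y := encode_injective ((hev _ _).1 h4)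
        simp only at h5
        rw [← e2, ← e0] at h5
        exact hD m m' hm' h5
      -- pigeonhole
      let κ : ℕ → ℕ × ℕ × Bool := fun m => ((q m).2.1, (q m).2.2, decide (Opp (F m)))
      let S : Finset (ℕ × ℕ × Bool) := Finset.range (j + 1) ×ˢ (Finset.range (j + 1) ×ˢ
        Finset.univ)
      obtain ⟨a, _, b, _, hab, hκ⟩ := Finset.exists_ne_map_eq_of_card_lt_of_maps_to
        (s := Finset.range (S.card + 1)) (t := S) (by simp) (f := κ) (by
          intro m _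
          have h1 := hq3 m
          have h2 := (hq2 m).2
          refine Finset.mem_coe.2 (Finset.mem_product.2 ⟨Finset.mem_range.2 ?_,
            Finset.mem_product.2 ⟨Finset.mem_range.2 ?_, Finset.mem_univ _⟩⟩)
          · show (q m).2.1 < j + 1
            omega
          · show (q m).2.2 < j + 1
            omega)
      have key : ∀ a b, a < b → κ a = κ b → False := by
        intro a b hlt hκ
        have e1 : (q a).2.1 = (q b).2.1 := by
          show (κ a).1 = (κ b).1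
          rw [hκ]
        have e2 : (q a).2.2 = (q b).2.2 := by
          show (κ a).2.1 = (κ b).2.1
          rw [hκ]
        have e3 : decide (Opp (F a)) = decide (Opp (F b)) := by
          show (κ a).2.2 = (κ b).2.2
          rw [hκ]
        have e3' : Opp (F a) ↔ Opp (F b) := decide_eq_decide.1 e3
        have la := hq2 a
        rw [e1, e2] at la
        refine hD b a hlt ⟨((q b).1, (q a).1, (q b).2.1, (q b).2.2),
          ⟨hq1 b, hq1 a, hq2 b, la⟩, ?_⟩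
        simp only
        by_cases ho : Opp (F b)
        · left
          refine ⟨ho, e3'.2 ho, ?_⟩
          have ya : Y (q a).1 := by
            rcases ((ek_val (hq1 a)).1 (hin a)).2 with h | h
            · exact (h (e3'.2 ho)).elim
            · exact h
          have yb : Y (q b).1 := by
            rcases ((ek_val (hq1 b)).1 (hin b)).2 with h | h
            · exact (h ho).elim
            · exact h
          refine y_uniq (hq1 b).1.1.1 (hq1 a).1.1.1 yb ya ?_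
          rw [(hq2 b).1, la.1]
        · exact Or.inr ⟨ho, fun h => ho (e3'.1 h)⟩
      rcases lt_trichotomy a b with h | h | h
      · exact key a b h hκ
      · exact hab h
      · exact key b a h hκ.symm

theorem main : ∃ (ar : ℕ → ℕ) (_ : Computable ar) (K : Set (IsoProb.Str ar)),
    (∀ A ∈ K, ∀ B, A.Iso B → B ∈ K) ∧ Delta11 (IsoProb.IndexSet K) ∧
    Sigma11 (IsoProblem K) ∧ ¬ Delta11 (IsoProblem K) ∧
    ∃ S : ℕ → Prop, Delta11 S ∧ ¬ ManyOneReducible S (IsoProblem K) :=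
  ⟨ar2, Computable.const 2, K, k_closed, delta_idx, sigma_ek, not_delta_ek, C0, delta_C0,
    not_reducible⟩

end Pool.Agent.H437R3.Iso
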