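import Mathlib
import Pool.Agent.Helper578.JD.HGen

/-!
There is a noncomputable low set.
-/

set_option autoImplicit false

namespace Pool.Agent.H437R3.Low

open Encodable Pool.Agent.Helper578.JD Pool.Agent.Helper578.JD.Oracle
open Pool.Agent.Helper578.JD.Defs
open Nat.Partrec (Code)

theorem cmod2' {α : Type*} [Primcodable α] {f : α → ℕ} (hf : Computable f) :
    Computable fun a => f a % 2 := (Primrec.nat_mod.to_comp).comp hf (Computable.const 2)

theorem cdiv2' {α : Type*} [Primcodable α] {f : α → ℕ} (hf : Computable f) :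
    Computable fun a => f a / 2 := (Primrec.nat_div.to_comp).comp hf (Computable.const 2)

theorem Red_join {A B C : Set ℕ} (hA : Red A C) (hB : Red B C) : Red (join A B) C := by
  rw [Red_iff] at hA hB ⊢
  have hd : Computable fun n : ℕ => n / 2 := cdiv2' Computable.id
  have hm : Computable fun n : ℕ => n % 2 := cmod2' Computable.id
  constructor
  · refine REIn.or (REIn.and (REIn.of_re (RE.eq hm (Computable.const 0))) (hA.1.comp hd))
      (REIn.and (REIn.of_re (RE.eq hm (Computable.const 1))) (hB.1.comp hd))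
  · refine (REIn.or (REIn.and (REIn.of_re (RE.eq hm (Computable.const 0))) (hA.2.comp hd))
      (REIn.and (REIn.of_re (RE.eq hm (Computable.const 1))) (hB.2.comp hd))).of_eq fun n => ?_
    show _ ↔ ¬ ((n % 2 = 0 ∧ n / 2 ∈ A) ∨ (n % 2 = 1 ∧ n / 2 ∈ B))
    constructor
    · rintro (⟨h1, h2⟩ | ⟨h1, h2⟩) (⟨h3, h4⟩ | ⟨h3, h4⟩)
      · exact h2 h4
      · omega
      · omega
      · exact h2 h4
    · intro h
      rcases Nat.mod_two_eq_zero_or_one n with h1 | h1
      · exact Or.inl ⟨h1, fun h2 => h (Or.inl ⟨h1, h2⟩)⟩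
      · exact Or.inr ⟨h1, fun h2 => h (Or.inr ⟨h1, h2⟩)⟩

theorem Red_of_comp {A B : Set ℕ} (h : ComputablePred (· ∈ A)) : Red A B := by
  rw [Red_iff]
  exact ⟨REIn.of_re h.to_re, REIn.of_re h.not.to_re⟩

theorem jump_mono {A B : Set ℕ} (h : Red A B) : Red (jump A) (jump B) := by
  obtain ⟨f, hf, hf'⟩ := REIn_iff_jump.1 (reMono (mem_jump_re (A := A)) h)
  rw [Red_iff]
  exact ⟨(REIn.mem hf).of_eq fun n => (hf' n).symm,
    (REIn.not_mem hf).of_eq fun n => not_congr (hf' n).symm⟩

theorem lt_comp : ComputablePred fun p : ℕ × ℕ => p.1 < p.2 :=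
  Primrec.nat_lt.computablePred

/-- the hierarchy at `1` is the jump -/
theorem H_one_le : Red (H (wellFounded_lt (α := ℕ)) ∅ 1) (jump ∅) := by
  rw [H_eq]
  refine Red_join (Red_of_comp (by
    exact ComputablePred.computable_iff.2 ⟨fun _ => false, Computable.const _, by
      funext n; simp⟩)) ?_
  have h0 : Red (H (wellFounded_lt (α := ℕ)) ∅ 0) ∅ := by
    rw [H_eq]
    refine Red_join (Red.refl _) (Red_of_comp ?_)
    refine ComputablePred.computable_iff.2 ⟨fun _ => false, Computable.const _, ?_⟩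
    funext n
    simp
  have h1 : Red (jump (H (wellFounded_lt (α := ℕ)) ∅ 0)) (jump ∅) := jump_mono h0
  rw [Red_iff] at h1 ⊢
  have hc : Computable fun n : ℕ => n.unpair.2 := Computable.snd.comp Computable.unpair
  have hc1 : Computable fun n : ℕ => n.unpair.1 := Computable.fst.comp Computable.unpair
  constructor
  · refine ((REIn.of_re (RE.eq hc1 (Computable.const 0))).and (h1.1.comp hc)).of_eq fun n => ?_
    show _ ↔ n.unpair.1 < 1 ∧ _
    constructor
    · rintro ⟨h2, h3⟩
      rw [h2]
      exact ⟨by omega, h3⟩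
    · rintro ⟨h2, h3⟩
      have h4 : n.unpair.1 = 0 := by omega
      rw [h4] at h3
      exact ⟨h4, h3⟩
  · refine ((REIn.of_re (RE.ne hc1 (Computable.const 0))).or (h1.2.comp hc)).of_eq fun n => ?_
    show _ ↔ ¬ (n.unpair.1 < 1 ∧ _)
    constructor
    · rintro (h2 | h2) ⟨h3, h4⟩
      · omega
      · have h5 : n.unpair.1 = 0 := by omega
        rw [h5] at h4
        exact h2 h4
    · intro h2
      by_cases h3 : n.unpair.1 = 0
      · right
        intro h4
        exact h2 ⟨by omega, by rw [h3]; exact h4⟩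
      · exact Or.inl h3

theorem not_comp_of_gen {X Z : Set ℕ} (h : OneGen X Z) : ¬ ComputablePred (· ∈ X) := by
  classical
  intro hX
  have hV : REIn Z fun c : Info => (∃ x ∈ c.1, x ∉ X) ∨ ∃ x ∈ c.2, x ∈ X := by
    refine REIn.of_re (RE.or ?_ ?_)
    · exact RE.ex_mem (p := fun (_ : Info) x => x ∉ X) (l := fun c => c.1)
        (RE.comp hX.not.to_re (f := fun x : Info × ℕ => x.2) Computable.snd) Computable.fst
    · exact RE.ex_mem (p := fun (_ : Info) x => x ∈ X) (l := fun c => c.2)
        (RE.comp hX.to_re (f := fun x : Info × ℕ => x.2) Computable.snd) Computable.snd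
  rcases h _ hV with ⟨p, hp, h1⟩ | ⟨p, hp, h1⟩
  · rcases h1 with ⟨x, hx, h2⟩ | ⟨x, hx, h2⟩
    · exact h2 (hp.1 x hx)
    · exact hp.2 x hx h2
  · obtain ⟨x, hx⟩ := Infinite.exists_notMem_finset (p.1 ++ p.2).toFinset
    have hx1 : x ∉ p.1 := fun h => hx (by simp [h])
    have hx2 : x ∉ p.2 := fun h => hx (by simp [h])
    by_cases hxX : x ∈ X
    · refine h1 ([], [x]) (Or.inr ⟨x, by simp, hxX⟩) ?_
      intro y hy hy'
      have hy1 : y ∈ p.1 := by simpa [app] using hy
      have hy2 : y ∈ p.2 ∨ y = x := by simpa [app] using hy'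
      rcases hy2 with h3 | h3
      · exact okCons hp y hy1 h3
      · exact hx1 (h3 ▸ hy1)
    · refine h1 ([x], []) (Or.inl ⟨x, by simp, hxX⟩) ?_
      intro y hy hy'
      have hy1 : y ∈ p.1 ∨ y = x := by simpa [app] using hy
      have hy2 : y ∈ p.2 := by simpa [app] using hy'
      rcases hy1 with h3 | h3
      · exact okCons hp y h3 hy2
      · exact hx2 (h3 ▸ hy2)

/-- a noncomputable low set -/
theorem exists_low : ∃ X : Set ℕ, Red (jump X) (jump ∅) ∧ ¬ ComputablePred (· ∈ X) := by
  have hR := wellFounded_lt (α := ℕ)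
  obtain ⟨X, h1, h2⟩ := exists_generic hR lt_comp 1
  refine ⟨X, ?_, not_comp_of_gen (h2 0 (by norm_num))⟩
  have h3 := HG.H_generic hR lt_comp (fun _ _ _ => lt_trans) h2
  have h4 : Red (jump X) (H hR X 1) := by
    have h5 : Red X (H hR X 0) := Red_H hR X 0
    refine (jump_mono h5).trans ?_
    rw [Red_iff]
    refine ⟨(REIn.mem (f := fun m => 2 * Nat.pair 0 m + 1) ?_).of_eq fun m => ?_,
      (REIn.not_mem (f := fun m => 2 * Nat.pair 0 m + 1) ?_).of_eq fun m => ?_⟩
    · exact Computable.succ.comp ((Primrec.nat_mul.to_comp).comp (Computable.const 2)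
        ((Primrec₂.natPair.to_comp).comp (Computable.const 0) Computable.id))
    · rw [mem_H_odd]; exact and_iff_right (by norm_num)
    · exact Computable.succ.comp ((Primrec.nat_mul.to_comp).comp (Computable.const 2)
        ((Primrec₂.natPair.to_comp).comp (Computable.const 0) Computable.id))
    · rw [mem_H_odd]; exact not_congr (and_iff_right (by norm_num))
  exact h4.trans (h3.trans (Red_join (h1.trans H_one_le) H_one_le))

end Pool.Agent.H437R3.Low
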