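import Mathlib
import Pool.Agent.H437R3.IntC

/-!
Codes for the elements of the field `ℚ(r)`, where `r` is a transcendental real number.
-/

set_option autoImplicit false

namespace Pool.Agent.H437R3.LowCode

open Polynomial Encodable
open Pool.Agent.Helper578.JD

/-- Horner evaluation, leading coefficient first -/
def evl {R : Type*} [CommRing R] (l : List ℤ) (i x : R) : R :=
  l.foldl (fun (s : R) (c : ℤ) => s * x + (c : R)) i

theorem evl_nil {R : Type*} [CommRing R] (i x : R) : evl [] i x = i := rfl

theorem evl_cons {R : Type*} [CommRing R] (c : ℤ) (l : List ℤ) (i x : R) :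
    evl (c :: l) i x = evl l (i * x + c) x := rfl

theorem evl_concat {R : Type*} [CommRing R] (l : List ℤ) (c : ℤ) (i x : R) :
    evl (l ++ [c]) i x = evl l i x * x + c := by simp [evl]

theorem evl_map {R S : Type*} [CommRing R] [CommRing S] (φ : R →+* S) (l : List ℤ) (i x : R) :
    φ (evl l i x) = evl l (φ i) (φ x) := by
  induction l generalizing i with
  | nil => rfl
  | cons c l ih =>
    rw [evl_cons, evl_cons, ih]
    simp

/-- a code: numerator, and denominator with a positive leading coefficient -/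
abbrev Cd := List ℤ × ℕ × List ℤ

def num {R : Type*} [CommRing R] (a : Cd) (x : R) : R := evl a.1 0 x
def den {R : Type*} [CommRing R] (a : Cd) (x : R) : R := evl a.2.2 ((a.2.1 : R) + 1) x
def len (a : Cd) : ℕ := a.1.length + a.2.2.length

theorem num_map {R S : Type*} [CommRing R] [CommRing S] (φ : R →+* S) (a : Cd) (x : R) :
    φ (num a x) = num a (φ x) := by
  unfold num
  rw [evl_map, map_zero]

theorem den_map {R S : Type*} [CommRing R] [CommRing S] (φ : R →+* S) (a : Cd) (x : R) :
    φ (den a x) = den a (φ x) := by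
  unfold den
  rw [evl_map, map_add, map_natCast, map_one]

theorem deg_evl (l : List ℤ) (P : ℤ[X]) : (evl l P X).natDegree ≤ P.natDegree + l.length := by
  induction l generalizing P with
  | nil => simp [evl_nil]
  | cons c l ih =>
    rw [evl_cons]
    refine (ih _).trans ?_
    have h1 : (P * X + (c : ℤ[X])).natDegree ≤ P.natDegree + 1 := by
      refine (natDegree_add_le _ _).trans (max_le ?_ ?_)
      · refine natDegree_mul_le.trans ?_
        have := natDegree_X_le (R := ℤ)
        omega
      · rw [natDegree_intCast]; omega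
    simp only [List.length_cons]
    omega

theorem evl_ne (l : List ℤ) {P : ℤ[X]} (hP : P ≠ 0) : evl l P X ≠ 0 := by
  induction l generalizing P with
  | nil => exact hP
  | cons c l ih =>
    rw [evl_cons]
    refine ih fun h => ?_
    have h1 := congrArg (fun Q : ℤ[X] => Q.coeff (P.natDegree + 1)) h
    simp only [coeff_add, coeff_mul_X, coeff_zero] at h1
    have h2 : ((c : ℤ[X])).coeff (P.natDegree + 1) = 0 := by
      rw [← C_eq_intCast]
      exact coeff_C_succ
    rw [h2, add_zero] at h1
    exact hP (leadingCoeff_eq_zero.1 h1)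

theorem deg_num (a : Cd) : (num a (X : ℤ[X])).natDegree ≤ len a := by
  have := deg_evl a.1 0
  simp only [natDegree_zero] at this
  unfold num len
  omega

theorem den_init (k : ℕ) : ((k : ℤ[X]) + 1) = C ((k : ℤ) + 1) := by simp

theorem deg_den (a : Cd) : (den a (X : ℤ[X])).natDegree ≤ len a := by
  have := deg_evl a.2.2 ((a.2.1 : ℤ[X]) + 1)
  rw [den_init, natDegree_C] at this
  unfold den len
  rw [den_init]
  omega

theorem den_ne (a : Cd) : den a (X : ℤ[X]) ≠ 0 := by
  refine evl_ne _ ?_
  rw [den_init]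
  intro h
  rw [C_eq_zero] at h
  omega

/-! ### every pair of polynomials has a code -/

theorem exists_num' (n : ℕ) : ∀ P : ℤ[X], P.natDegree ≤ n → ∃ l, evl l 0 X = P := by
  induction n with
  | zero =>
    intro P hP
    refine ⟨[P.coeff 0], ?_⟩
    rw [evl_cons, evl_nil, ← C_eq_intCast]
    conv_rhs => rw [eq_C_of_natDegree_le_zero hP]
    simp
  | succ n ih =>
    intro P hP
    obtain ⟨l, hl⟩ := ih (divX P) (by rw [natDegree_divX_eq_natDegree_tsub_one]; omega)
    refine ⟨l ++ [P.coeff 0], ?_⟩
    rw [evl_concat, hl, ← C_eq_intCast]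
    exact divX_mul_X_add P

theorem exists_num (P : ℤ[X]) : ∃ l, evl l 0 X = P := exists_num' _ P le_rfl

theorem exists_den_const {Q : ℤ[X]} (h0 : Q.natDegree ≤ 0) (hQ : Q ≠ 0) :
    ∃ (k : ℕ) (l : List ℤ), evl l ((k : ℤ[X]) + 1) X = Q ∨ evl l ((k : ℤ[X]) + 1) X = -Q := by
  have h1 := eq_C_of_natDegree_le_zero h0
  have h2 : Q.coeff 0 ≠ 0 := by
    intro h
    rw [h, C_0] at h1
    exact hQ h1
  refine ⟨(Q.coeff 0).natAbs - 1, [], ?_⟩
  rw [evl_nil, den_init]
  rcases lt_or_gt_of_ne h2 with h3 | h3
  · right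
    rw [h1, ← C_neg]
    congr 1
    simp
    omega
  · left
    rw [h1]
    congr 1
    simp
    omega

theorem exists_den' (n : ℕ) : ∀ Q : ℤ[X], Q.natDegree ≤ n → Q ≠ 0 →
    ∃ (k : ℕ) (l : List ℤ), evl l ((k : ℤ[X]) + 1) X = Q ∨ evl l ((k : ℤ[X]) + 1) X = -Q := by
  induction n with
  | zero => intro Q hQ h; exact exists_den_const hQ h
  | succ n ih =>
    intro Q hQ h
    by_cases h1 : divX Q = 0
    · refine exists_den_const ?_ h
      have h2 := divX_mul_X_add Q
      rw [h1, zero_mul, zero_add] at h2
      rw [← h2, natDegree_C]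
    · obtain ⟨k, l, hl⟩ := ih (divX Q) (by rw [natDegree_divX_eq_natDegree_tsub_one]; omega) h1
      rcases hl with hl | hl
      · refine ⟨k, l ++ [Q.coeff 0], Or.inl ?_⟩
        rw [evl_concat, hl, ← C_eq_intCast]
        exact divX_mul_X_add Q
      · refine ⟨k, l ++ [-Q.coeff 0], Or.inr ?_⟩
        rw [evl_concat, hl, ← C_eq_intCast]
        conv_rhs => rw [← divX_mul_X_add Q]
        simp only [Int.cast_id, C_neg]
        ring


end Pool.Agent.H437R3.LowCode
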