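import Mathlib
import Pool.Agent.H437R3.LowPoly

/-!
Codes for the elements of the field `ℚ(r)`, where `r` is a transcendental real number.
-/

set_option autoImplicit false

namespace Pool.Agent.H437R3.LowCode

open Polynomial Encodable
open Pool.Agent.Helper578.JD

/-! ### values -/

variable {r : ℝ}

noncomputable def val (r : ℝ) (a : Cd) : ℝ := num a r / den a r

theorem num_r (r : ℝ) (a : Cd) : num a r = aeval r (num a (X : ℤ[X])) := by
  have := num_map (aeval (R := ℤ) r).toRingHom a X
  simp only [AlgHom.toRingHom_eq_coe, RingHom.coe_coe, aeval_X] at this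
  exact this.symm

theorem den_r (r : ℝ) (a : Cd) : den a r = aeval r (den a (X : ℤ[X])) := by
  have := den_map (aeval (R := ℤ) r).toRingHom a X
  simp only [AlgHom.toRingHom_eq_coe, RingHom.coe_coe, aeval_X] at this
  exact this.symm

theorem num_z (x : ℤ) (a : Cd) : num a x = eval x (num a (X : ℤ[X])) := by
  have := num_map (evalRingHom x) a X
  simp only [coe_evalRingHom, eval_X] at this
  exact this.symm

theorem den_z (x : ℤ) (a : Cd) : den a x = eval x (den a (X : ℤ[X])) := by
  have := den_map (evalRingHom x) a X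
  simp only [coe_evalRingHom, eval_X] at this
  exact this.symm

theorem den_r_ne (hr : Transcendental ℤ r) (a : Cd) : den a r ≠ 0 := by
  rw [den_r]
  intro h
  exact den_ne a (transcendental_iff.1 hr _ h)

/-- every quotient of polynomials has a code -/
theorem exists_code (hr : Transcendental ℤ r) (P Q : ℤ[X]) (hQ : Q ≠ 0) :
    ∃ a, val r a = aeval r P / aeval r Q := by
  obtain ⟨k, l, hl⟩ := exists_den' _ Q le_rfl hQ
  rcases hl with hl | hl
  · obtain ⟨l', hl'⟩ := exists_num P
    refine ⟨(l', k, l), ?_⟩
    unfold val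
    rw [num_r, den_r]
    unfold num den
    simp only
    rw [hl, hl']
  · obtain ⟨l', hl'⟩ := exists_num (-P)
    refine ⟨(l', k, l), ?_⟩
    unfold val
    rw [num_r, den_r]
    unfold num den
    simp only
    rw [hl, hl', map_neg, map_neg, neg_div_neg_eq]

/-! ### the zero test -/

theorem zero_test {T : ℤ[X]} {B : ℕ} (hB : T.natDegree < B) :
    T = 0 ↔ ∀ x < B, eval ((x : ℕ) : ℤ) T = 0 := by
  constructor
  · rintro rfl x _
    simp
  · intro h
    refine eq_zero_of_natDegree_lt_card_of_eval_eq_zero T (ι := Fin B)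
      (f := fun i => ((i : ℕ) : ℤ)) ?_ (fun i => h i i.2) (by simpa using hB)
    intro i j hij
    have hij' : ((i : ℕ) : ℤ) = ((j : ℕ) : ℤ) := hij
    exact Fin.ext (by exact_mod_cast hij')

theorem real_test (hr : Transcendental ℤ r) {T : ℤ[X]} {B : ℕ} (hB : T.natDegree < B) :
    aeval r T = 0 ↔ ∀ x < B, eval ((x : ℕ) : ℤ) T = 0 := by
  rw [← zero_test hB]
  constructor
  · intro h; exact transcendental_iff.1 hr _ h
  · rintro rfl; simp

def eqT {R : Type*} [CommRing R] (a b : Cd) (x : R) : R := num a x * den b x - num b x * den a x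

def addT {R : Type*} [CommRing R] (a b c : Cd) (x : R) : R :=
  (num a x * den b x + num b x * den a x) * den c x - num c x * (den a x * den b x)

def mulT {R : Type*} [CommRing R] (a b c : Cd) (x : R) : R :=
  (num a x * num b x) * den c x - num c x * (den a x * den b x)

theorem mul_le {P Q : ℤ[X]} {m n : ℕ} (hP : P.natDegree ≤ m) (hQ : Q.natDegree ≤ n) :
    (P * Q).natDegree ≤ m + n := natDegree_mul_le.trans (by omega)

theorem add_le {P Q : ℤ[X]} {m : ℕ} (hP : P.natDegree ≤ m) (hQ : Q.natDegree ≤ m) :
    (P + Q).natDegree ≤ m := (natDegree_add_le _ _).trans (max_le hP hQ)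

theorem sub_le {P Q : ℤ[X]} {m : ℕ} (hP : P.natDegree ≤ m) (hQ : Q.natDegree ≤ m) :
    (P - Q).natDegree ≤ m := (natDegree_sub_le _ _).trans (max_le hP hQ)

theorem eqT_iff (hr : Transcendental ℤ r) (a b : Cd) :
    val r a = val r b ↔ ∀ x < len a + len b + 1, eqT a b ((x : ℕ) : ℤ) = 0 := by
  have h1 : val r a = val r b ↔ aeval r (eqT a b (X : ℤ[X])) = 0 := by
    unfold val eqT
    rw [map_sub, map_mul, map_mul, ← num_r, ← num_r, ← den_r, ← den_r,
      div_eq_div_iff (den_r_ne hr a) (den_r_ne hr b), sub_eq_zero]
  rw [h1, real_test hr (B := len a + len b + 1)]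
  · refine forall_congr' fun x => forall_congr' fun _ => ?_
    unfold eqT
    rw [eval_sub, eval_mul, eval_mul, ← num_z, ← num_z, ← den_z, ← den_z]
  · have h1 := mul_le (deg_num a) (deg_den b)
    have h2 := mul_le (deg_num b) (deg_den a)
    exact Nat.lt_succ_of_le (sub_le h1 (h2.trans (Nat.add_comm _ _).le))

theorem addT_iff (hr : Transcendental ℤ r) (a b c : Cd) :
    val r a + val r b = val r c ↔
      ∀ x < len a + len b + len c + 1, addT a b c ((x : ℕ) : ℤ) = 0 := by
  have h1 : val r a + val r b = val r c ↔ aeval r (addT a b c (X : ℤ[X])) = 0 := by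
    have ha := den_r_ne hr a
    have hb := den_r_ne hr b
    have hc := den_r_ne hr c
    unfold val addT
    rw [map_sub, map_mul, map_add, map_mul, map_mul, map_mul, map_mul, ← num_r, ← num_r, ← num_r,
      ← den_r, ← den_r, ← den_r, div_add_div _ _ ha hb, div_eq_div_iff (mul_ne_zero ha hb) hc,
      sub_eq_zero]
    constructor
    · intro h; linear_combination h
    · intro h; linear_combination h
  rw [h1, real_test hr (B := len a + len b + len c + 1)]
  · refine forall_congr' fun x => forall_congr' fun _ => ?_
    unfold addT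
    simp only [eval_sub, eval_mul, eval_add, ← num_z, ← den_z]
  · have h1 := mul_le (deg_num a) (deg_den b)
    have h2 := mul_le (deg_num b) (deg_den a)
    have h3 := mul_le (add_le h1 (h2.trans (Nat.add_comm _ _).le)) (deg_den c)
    have h4 := mul_le (deg_num c) (mul_le (deg_den a) (deg_den b))
    exact Nat.lt_succ_of_le (sub_le h3 (h4.trans (Nat.add_comm _ _).le))

theorem mulT_iff (hr : Transcendental ℤ r) (a b c : Cd) :
    val r a * val r b = val r c ↔
      ∀ x < len a + len b + len c + 1, mulT a b c ((x : ℕ) : ℤ) = 0 := by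
  have h1 : val r a * val r b = val r c ↔ aeval r (mulT a b c (X : ℤ[X])) = 0 := by
    have ha := den_r_ne hr a
    have hb := den_r_ne hr b
    have hc := den_r_ne hr c
    unfold val mulT
    rw [map_sub, map_mul, map_mul, map_mul, map_mul, ← num_r, ← num_r, ← num_r,
      ← den_r, ← den_r, ← den_r, div_mul_div_comm, div_eq_div_iff (mul_ne_zero ha hb) hc,
      sub_eq_zero]
  rw [h1, real_test hr (B := len a + len b + len c + 1)]
  · refine forall_congr' fun x => forall_congr' fun _ => ?_
    unfold mulT
    simp only [eval_sub, eval_mul, ← num_z, ← den_z]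
  · have h3 := mul_le (mul_le (deg_num a) (deg_num b)) (deg_den c)
    have h4 := mul_le (deg_num c) (mul_le (deg_den a) (deg_den b))
    exact Nat.lt_succ_of_le (sub_le h3 (h4.trans (Nat.add_comm _ _).le))

/-! ### computability -/

section
variable {α : Type*} [Primcodable α]

@[fun_prop] theorem c_evl {l : α → List ℤ} {i x : α → ℤ} (hl : Computable l) (hi : Computable i)
    (hx : Computable x) : Computable fun a => evl (l a) (i a) (x a) := by
  have hh : Computable₂ fun (a : α) (p : ℤ × ℤ) => p.1 * x a + ((p.2 : ℤ)) := by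
    show Computable fun q : α × ℤ × ℤ => q.2.1 * x q.1 + q.2.2
    fun_prop
  exact RE.list_foldl hl hi hh

@[fun_prop] theorem c_num {a : α → Cd} {x : α → ℤ} (ha : Computable a) (hx : Computable x) :
    Computable fun p => (num (a p) (x p) : ℤ) := by
  unfold num
  fun_prop

@[fun_prop] theorem c_den {a : α → Cd} {x : α → ℤ} (ha : Computable a) (hx : Computable x) :
    Computable fun p => (den (a p) (x p) : ℤ) := by
  have h : Computable fun p => (((a p).2.1 : ℤ) + 1) := by fun_prop
  unfold den
  fun_prop

@[fun_prop] theorem c_len {a : α → Cd} (ha : Computable a) : Computable fun p => len (a p) := by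
  unfold len
  fun_prop

theorem cp_ball {p : α → ℕ → Prop} (hp : ComputablePred fun x : α × ℕ => p x.1 x.2) {f : α → ℕ}
    (hf : Computable f) : ComputablePred fun a => ∀ i < f a, p a i := by
  refine RE.cp_of_re (RE.all_lt hp.to_re hf) ?_
  have h := RE.exN (p := fun (a : α) (i : ℕ) => i < f a ∧ ¬ p a i)
    (RE.and (RE.lt Computable.snd (hf.comp Computable.fst)) hp.not.to_re)
  refine h.of_eq fun a => ?_
  push Not
  rfl

theorem cp_val_eq (hr : Transcendental ℤ r) {a b : α → Cd} (ha : Computable a)
    (hb : Computable b) : ComputablePred fun p => val r (a p) = val r (b p) := by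
  refine (cp_ball (p := fun p x => eqT (a p) (b p) ((x : ℕ) : ℤ) = 0)
    (f := fun p => len (a p) + len (b p) + 1) ?_ (by fun_prop)).of_eq fun p =>
      (eqT_iff hr _ _).symm
  unfold eqT
  exact IntC.cp_ieq (by fun_prop) (by fun_prop)

theorem cp_val_add (hr : Transcendental ℤ r) {a b c : α → Cd} (ha : Computable a)
    (hb : Computable b) (hc : Computable c) :
    ComputablePred fun p => val r (a p) + val r (b p) = val r (c p) := by
  refine (cp_ball (p := fun p x => addT (a p) (b p) (c p) ((x : ℕ) : ℤ) = 0)
    (f := fun p => len (a p) + len (b p) + len (c p) + 1) ?_ (by fun_prop)).of_eq fun p =>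
      (addT_iff hr _ _ _).symm
  unfold addT
  exact IntC.cp_ieq (by fun_prop) (by fun_prop)

theorem cp_val_mul (hr : Transcendental ℤ r) {a b c : α → Cd} (ha : Computable a)
    (hb : Computable b) (hc : Computable c) :
    ComputablePred fun p => val r (a p) * val r (b p) = val r (c p) := by
  refine (cp_ball (p := fun p x => mulT (a p) (b p) (c p) ((x : ℕ) : ℤ) = 0)
    (f := fun p => len (a p) + len (b p) + len (c p) + 1) ?_ (by fun_prop)).of_eq fun p =>
      (mulT_iff hr _ _ _).symm
  unfold mulT
  exact IntC.cp_ieq (by fun_prop) (by fun_prop)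

end

end Pool.Agent.H437R3.LowCode
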