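import Mathlib
import Pool.Agent.Helper578.JD.Defs

/-!
Presentations of fields, the atomic diagram of an ordering, and low sets.
-/

set_option autoImplicit false

namespace Pool.Agent.H437R3.OrdField

open Pool.Agent.Helper578.JD Pool.Agent.Helper578.JD.Defs

/-- A presentation of `F`: a bijection from a set `dom` of natural numbers onto `F`. It gives a
structure with domain `dom` which is isomorphic to `F`. -/
structure Pres (F : Type) where
  /-- the domain of the presentation -/
  dom : Set ℕ
  /-- the element named by a number in the domain -/
  e : dom ≃ F

/-- The presentation `P` of the field `F` is computable: the domain is a computable set, and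
addition and multiplication are computable on the domain. -/
def Pres.IsComputable {F : Type} [Field F] (P : Pres F) : Prop :=
  ComputablePred (· ∈ P.dom) ∧
  (∃ f : ℕ × ℕ → ℕ, Computable f ∧ ∀ a b : P.dom, f (a, b) = (P.e.symm (P.e a + P.e b) : ℕ)) ∧
  ∃ f : ℕ × ℕ → ℕ, Computable f ∧ ∀ a b : P.dom, f (a, b) = (P.e.symm (P.e a * P.e b) : ℕ)

/-- The set of codes of pairs `(a, b)` of numbers in the domain such that the element named by
`a` is smaller than the element named by `b`. -/
def Pres.orderSet {F : Type} [LinearOrder F] (P : Pres F) : Set ℕ :=
  {n | ∃ a b : P.dom, n = Nat.pair a b ∧ P.e a < P.e b}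

/-- `A` is low: the Turing jump of `A` is Turing reducible to the jump of the empty set. -/
def Low (A : Set ℕ) : Prop := TuringReducible (chi (jump A)) (chi (jump ∅))

end Pool.Agent.H437R3.OrdField
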