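import Mathlib
import Pool.Agent.H437R3.IntC

/-!
Real numbers with sparse ternary expansions with the digits `0` and `1`.
-/

set_option autoImplicit false

namespace Pool.Agent.H437R3.LowReal

open Nat

open Classical in
noncomputable def dg (Y : Set ℕ) (N : ℕ) : ℕ := if N ∈ Y then 1 else 0

noncomputable def aa (Y : Set ℕ) : ℕ → ℕ
  | 0 => 0
  | N + 1 => 3 * aa Y N + dg Y N

/-- the real number whose ternary digit at `N + 1` is `1` if `N ∈ Y` and `0` otherwise -/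
noncomputable def rr (Y : Set ℕ) : ℝ := ⨆ N, (aa Y N : ℝ) / 3 ^ N

variable (Y : Set ℕ)

theorem dg_le (N : ℕ) : dg Y N ≤ 1 := by
  unfold dg
  split_ifs <;> omega

theorem lo_step (N : ℕ) : (aa Y N : ℝ) / 3 ^ N ≤ aa Y (N + 1) / 3 ^ (N + 1) := by
  have h : (aa Y (N + 1) : ℝ) = 3 * aa Y N + dg Y N := by
    show ((3 * aa Y N + dg Y N : ℕ) : ℝ) = _
    push_cast; ring
  rw [h, pow_succ, div_le_div_iff₀ (by positivity) (by positivity)]
  have h2 : (0 : ℝ) ≤ dg Y N * 3 ^ N := by positivity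
  nlinarith

theorem hi_step (N : ℕ) : ((aa Y (N + 1) : ℝ) + 1 / 2) / 3 ^ (N + 1) ≤
    ((aa Y N : ℝ) + 1 / 2) / 3 ^ N := by
  have h : (aa Y (N + 1) : ℝ) = 3 * aa Y N + dg Y N := by
    show ((3 * aa Y N + dg Y N : ℕ) : ℝ) = _
    push_cast; ring
  have h1 : (dg Y N : ℝ) ≤ 1 := by exact_mod_cast dg_le Y N
  rw [h, pow_succ, div_le_div_iff₀ (by positivity) (by positivity)]
  have h2 : (0 : ℝ) < 3 ^ N := by positivity
  nlinarith

theorem lo_mono : Monotone fun N => (aa Y N : ℝ) / 3 ^ N :=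
  monotone_nat_of_le_succ (lo_step Y)

theorem hi_anti : Antitone fun N => ((aa Y N : ℝ) + 1 / 2) / 3 ^ N :=
  antitone_nat_of_succ_le (hi_step Y)

theorem lo_le_hi (N M : ℕ) : (aa Y N : ℝ) / 3 ^ N ≤ ((aa Y M : ℝ) + 1 / 2) / 3 ^ M := by
  refine le_trans (lo_mono Y (le_max_left N M)) (le_trans ?_ (hi_anti Y (le_max_right N M)))
  refine div_le_div_of_nonneg_right ?_ (by positivity)
  linarith

theorem bdd : BddAbove (Set.range fun N => (aa Y N : ℝ) / 3 ^ N) := by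
  refine ⟨((aa Y 0 : ℝ) + 1 / 2) / 3 ^ 0, ?_⟩
  rintro _ ⟨N, rfl⟩
  exact lo_le_hi Y N 0

theorem lo_le (N : ℕ) : (aa Y N : ℝ) / 3 ^ N ≤ rr Y := le_ciSup (bdd Y) N

theorem le_hi (N : ℕ) : rr Y ≤ ((aa Y N : ℝ) + 1 / 2) / 3 ^ N :=
  ciSup_le fun M => lo_le_hi Y M N

theorem rr_nonneg : 0 ≤ rr Y := by
  have := lo_le Y 0
  have h : (aa Y 0 : ℝ) / 3 ^ 0 = 0 := by
    show ((0 : ℕ) : ℝ) / 3 ^ 0 = 0
    simp
  linarith

theorem rr_le : rr Y ≤ 1 / 2 := by
  have := le_hi Y 0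
  have h : ((aa Y 0 : ℝ) + 1 / 2) / 3 ^ 0 = 1 / 2 := by
    show (((0 : ℕ) : ℝ) + 1 / 2) / 3 ^ 0 = 1 / 2
    simp
  linarith

theorem mem_iff (N : ℕ) : N ∈ Y ↔ ((3 * aa Y N + 1 : ℕ) : ℝ) ≤ ((3 ^ (N + 1) : ℕ) : ℝ) * rr Y := by
  have h : (aa Y (N + 1) : ℝ) = 3 * aa Y N + dg Y N := by
    show ((3 * aa Y N + dg Y N : ℕ) : ℝ) = _
    push_cast; ring
  have hp : (0 : ℝ) < 3 ^ (N + 1) := by positivity
  constructor
  · intro hN
    have h1 : dg Y N = 1 := by unfold dg; rw [if_pos hN]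
    have h2 := lo_le Y (N + 1)
    rw [h, h1, div_le_iff₀ hp] at h2
    push_cast at h2 ⊢
    linarith
  · intro h2
    by_contra hN
    have h1 : dg Y N = 0 := by unfold dg; rw [if_neg hN]
    have h3 := le_hi Y (N + 1)
    rw [h, h1, le_div_iff₀ hp] at h3
    push_cast at h2 h3
    linarith

/-- `Y` is computable in the cut of the real number -/
theorem comp_of_cut (h : ComputablePred fun p : ℕ × ℕ => (p.1 : ℝ) ≤ (p.2 : ℝ) * rr Y) :
    ComputablePred (· ∈ Y) := by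
  classical
  have h3 : Computable fun N : ℕ => 3 ^ (N + 1) := by
    have h1 : Computable fun N : ℕ => (Nat.rec 3 (fun _ IH => 3 * IH) N : ℕ) :=
      Computable.nat_rec (f := fun N : ℕ => N) (g := fun _ => 3)
        (h := fun (_ : ℕ) (q : ℕ × ℕ) => 3 * q.2) Computable.id (Computable.const 3)
        (by
          show Computable fun x : ℕ × ℕ × ℕ => 3 * x.2.2
          fun_prop)
    refine h1.of_eq fun N => ?_
    induction N with
    | zero => rfl
    | succ N ih =>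
      show 3 * (Nat.rec 3 (fun _ IH => 3 * IH) N : ℕ) = _
      rw [ih]
      ring
  have hb : Computable fun p : ℕ × ℕ => decide ((p.1 : ℝ) ≤ (p.2 : ℝ) * rr Y) :=
    Pool.Agent.Helper578.JD.RE.cdecide h
  have haa : Computable (aa Y) := by
    have h1 : Computable fun N : ℕ => (Nat.rec 0 (fun N IH => 3 * IH +
        bif decide (((3 * IH + 1 : ℕ) : ℝ) ≤ ((3 ^ (N + 1) : ℕ) : ℝ) * rr Y) then 1 else 0) N : ℕ) := by
      refine Computable.nat_rec (f := fun N : ℕ => N) (g := fun _ => 0)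
        (h := fun (_ : ℕ) (q : ℕ × ℕ) => 3 * q.2 +
          bif decide (((3 * q.2 + 1 : ℕ) : ℝ) ≤ ((3 ^ (q.1 + 1) : ℕ) : ℝ) * rr Y) then 1 else 0)
        Computable.id (Computable.const 0) ?_
      show Computable fun x : ℕ × ℕ × ℕ => 3 * x.2.2 +
          bif decide (((3 * x.2.2 + 1 : ℕ) : ℝ) ≤ ((3 ^ (x.2.1 + 1) : ℕ) : ℝ) * rr Y) then 1 else 0
      have h2 : Computable fun x : ℕ × ℕ × ℕ =>
          decide (((3 * x.2.2 + 1 : ℕ) : ℝ) ≤ ((3 ^ (x.2.1 + 1) : ℕ) : ℝ) * rr Y) := by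
        refine hb.comp (g := fun x : ℕ × ℕ × ℕ => (3 * x.2.2 + 1, 3 ^ (x.2.1 + 1))) ?_
        exact Computable.pair (by fun_prop) (h3.comp (by fun_prop))
      fun_prop
    refine h1.of_eq fun N => ?_
    induction N with
    | zero => rfl
    | succ N ih =>
      show 3 * (Nat.rec 0 (fun N IH => 3 * IH +
        bif decide (((3 * IH + 1 : ℕ) : ℝ) ≤ ((3 ^ (N + 1) : ℕ) : ℝ) * rr Y) then 1 else 0) N : ℕ) +
        _ = 3 * aa Y N + dg Y N
      rw [ih]
      congr 1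
      have := mem_iff Y N
      unfold dg
      by_cases hN : N ∈ Y
      · rw [if_pos hN, decide_eq_true (this.1 hN)]; rfl
      · rw [if_neg hN, decide_eq_false (fun h => hN (this.2 h))]; rfl
  have h4 : ComputablePred fun N : ℕ =>
      ((3 * aa Y N + 1 : ℕ) : ℝ) ≤ ((3 ^ (N + 1) : ℕ) : ℝ) * rr Y :=
    Pool.Agent.Helper578.JD.RE.cp_comp (p := fun p : ℕ × ℕ => (p.1 : ℝ) ≤ (p.2 : ℝ) * rr Y) h
      (f := fun N => (3 * aa Y N + 1, 3 ^ (N + 1))) (Computable.pair (by fun_prop) h3)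
  exact h4.of_eq fun N => (mem_iff Y N).symm

/-! ### transcendence -/

/-- the sparse set coding `X` -/
def Ys (X : Set ℕ) : Set ℕ := {N | ∃ k ∈ X, (k + 1)! = N}

variable {Y}

theorem gap {N M : ℕ} (hNM : N ≤ M) (h : ∀ i, N ≤ i → i < M → i ∉ Y) :
    (aa Y M : ℝ) / 3 ^ M = (aa Y N : ℝ) / 3 ^ N := by
  induction M, hNM using Nat.le_induction with
  | base => rfl
  | succ M hM ih =>
    rw [← ih fun i h1 h2 => h i h1 (by omega)]
    have h1 : dg Y M = 0 := by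
      unfold dg
      rw [if_neg (h M hM (by omega))]
    have h2 : (aa Y (M + 1) : ℝ) = 3 * aa Y M := by
      show ((3 * aa Y M + dg Y M : ℕ) : ℝ) = _
      rw [h1]
      push_cast; ring
    rw [h2, pow_succ]
    field_simp

theorem liouville {X : Set ℕ} (hX : X.Infinite) : Liouville (rr (Ys X)) := by
  intro n
  set Y := Ys X with hY
  set N := (n + 1)! + 1 with hN
  set M := (n + 2)! with hM
  have hNM : N ≤ M := by
    have h1 : 1 ≤ (n + 1)! := Nat.factorial_pos _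
    have h2 : (n + 2)! = (n + 2) * (n + 1)! := Nat.factorial_succ (n + 1)
    rw [hN, hM, h2]
    nlinarith
  have hgap : ∀ i, N ≤ i → i < M → i ∉ Y := by
    rintro i h1 h2 ⟨k, _, rfl⟩
    by_cases hk : k ≤ n
    · have := Nat.factorial_le (show k + 1 ≤ n + 1 by omega)
      omega
    · have := Nat.factorial_le (show n + 2 ≤ k + 1 by omega)
      omega
  have hlo := lo_le Y N
  have hhi := le_hi Y M
  have hg := gap hNM hgap
  have hhi' : rr Y ≤ (aa Y N : ℝ) / 3 ^ N + (1 / 2) / 3 ^ M := by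
    rw [← hg, ← add_div]
    exact hhi
  refine ⟨(aa Y N : ℤ), (3 ^ N : ℤ), ?_, ?_, ?_⟩
  · exact_mod_cast Nat.one_lt_pow (by omega) (by norm_num)
  · push_cast
    -- there is a later digit
    obtain ⟨j, hj, hjn⟩ := hX.exists_gt n
    have hjY : (j + 1)! ∈ Y := ⟨j, hj, rfl⟩
    have hjN : N ≤ (j + 1)! := by
      have := Nat.factorial_le (show n + 2 ≤ j + 1 by omega)
      omega
    have h1 : (aa Y N : ℝ) / 3 ^ N ≤ aa Y (j + 1)! / 3 ^ (j + 1)! := lo_mono Y hjN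
    have h2 := lo_le Y ((j + 1)! + 1)
    have h3 : dg Y (j + 1)! = 1 := by unfold dg; rw [if_pos hjY]
    have h4 : (aa Y ((j + 1)! + 1) : ℝ) = 3 * aa Y (j + 1)! + 1 := by
      show ((3 * aa Y (j + 1)! + dg Y (j + 1)! : ℕ) : ℝ) = _
      rw [h3]
      push_cast; ring
    have h5 : (aa Y (j + 1)! : ℝ) / 3 ^ (j + 1)! < aa Y ((j + 1)! + 1) / 3 ^ ((j + 1)! + 1) := by
      rw [h4, pow_succ, div_lt_div_iff₀ (by positivity) (by positivity)]
      have : (0 : ℝ) < 3 ^ (j + 1)! := by positivity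
      nlinarith
    intro h
    linarith
  · push_cast
    rw [abs_of_nonneg (by linarith)]
    have h1 : (1 / 2 : ℝ) / 3 ^ M < 1 / 3 ^ M := by
      rw [div_lt_div_iff_of_pos_right (by positivity)]
      norm_num
    have h2 : (1 : ℝ) / 3 ^ M ≤ 1 / (3 ^ N) ^ n := by
      rw [← pow_mul]
      refine one_div_le_one_div_of_le (by positivity) (pow_le_pow_right₀ (by norm_num) ?_)
      have h3 : (n + 2)! = (n + 2) * (n + 1)! := Nat.factorial_succ (n + 1)
      have h4 : n + 1 ≤ (n + 1)! := Nat.self_le_factorial _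
      rw [hN, hM, h3]
      nlinarith
    linarith

theorem transc {X : Set ℕ} (hX : X.Infinite) : Transcendental ℤ (rr (Ys X)) :=
  (liouville hX).transcendental

end Pool.Agent.H437R3.LowReal
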