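import Mathlib
import Pool.Agent.H437R3.LowCode
import Pool.Agent.H437R3.LowReal
import Pool.Agent.H437R3.Low

/-!
The order of the field `ℚ(r)` is computable in the expansion of `r`.
-/

set_option autoImplicit false

namespace Pool.Agent.H437R3.LowOrd

open LowCode LowReal
open Pool.Agent.Helper578.JD Pool.Agent.Helper578.JD.Oracle Pool.Agent.Helper578.JD.Defs

/-! ### bounds -/

structure LB (f : ℝ → ℝ) (m L : ℝ) : Prop where
  m0 : 0 ≤ m
  L0 : 0 ≤ L
  bd : ∀ x, 0 ≤ x → x ≤ 1 → |f x| ≤ m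
  lip : ∀ x y, 0 ≤ x → x ≤ 1 → 0 ≤ y → y ≤ 1 → |f x - f y| ≤ L * |x - y|

variable {f g : ℝ → ℝ} {m L m' L' : ℝ}

theorem LB.mul (hf : LB f m L) (hg : LB g m' L') :
    LB (fun x => f x * g x) (m * m') (m * L' + m' * L) where
  m0 := mul_nonneg hf.m0 hg.m0
  L0 := add_nonneg (mul_nonneg hf.m0 hg.L0) (mul_nonneg hg.m0 hf.L0)
  bd := fun x h0 h1 => by
    rw [abs_mul]
    exact mul_le_mul (hf.bd x h0 h1) (hg.bd x h0 h1) (abs_nonneg _) hf.m0
  lip := fun x y hx0 hx1 hy0 hy1 => by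
    have e : f x * g x - f y * g y = f x * (g x - g y) + g y * (f x - f y) := by ring
    rw [e]
    refine (abs_add_le _ _).trans ?_
    rw [abs_mul, abs_mul, add_mul, mul_assoc, mul_assoc]
    refine add_le_add ?_ ?_
    · exact mul_le_mul (hf.bd x hx0 hx1) (hg.lip x y hx0 hx1 hy0 hy1) (abs_nonneg _) hf.m0
    · exact mul_le_mul (hg.bd y hy0 hy1) (hf.lip x y hx0 hx1 hy0 hy1) (abs_nonneg _) hg.m0

theorem LB.sub (hf : LB f m L) (hg : LB g m' L') :
    LB (fun x => f x - g x) (m + m') (L + L') where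
  m0 := add_nonneg hf.m0 hg.m0
  L0 := add_nonneg hf.L0 hg.L0
  bd := fun x h0 h1 => (abs_sub _ _).trans (add_le_add (hf.bd x h0 h1) (hg.bd x h0 h1))
  lip := fun x y hx0 hx1 hy0 hy1 => by
    have e : f x - g x - (f y - g y) = (f x - f y) - (g x - g y) := by ring
    rw [e, add_mul]
    exact (abs_sub _ _).trans (add_le_add (hf.lip x y hx0 hx1 hy0 hy1)
      (hg.lip x y hx0 hx1 hy0 hy1))

theorem LB.step (hf : LB f m L) (c : ℤ) :
    LB (fun x => f x * x + (c : ℝ)) (m + |(c : ℝ)|) (L + m) where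
  m0 := add_nonneg hf.m0 (abs_nonneg _)
  L0 := add_nonneg hf.L0 hf.m0
  bd := fun x h0 h1 => by
    refine (abs_add_le _ _).trans (add_le_add ?_ le_rfl)
    rw [abs_mul, abs_of_nonneg h0]
    have := hf.bd x h0 h1
    have h2 := abs_nonneg (f x)
    nlinarith
  lip := fun x y hx0 hx1 hy0 hy1 => by
    have e : f x * x + (c : ℝ) - (f y * y + (c : ℝ)) = f x * (x - y) + y * (f x - f y) := by ring
    rw [e]
    refine (abs_add_le _ _).trans ?_
    rw [abs_mul, abs_mul, abs_of_nonneg hy0]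
    have h1 := hf.bd x hx0 hx1
    have h2 := hf.lip x y hx0 hx1 hy0 hy1
    have h3 := abs_nonneg (x - y)
    have h4 := abs_nonneg (f x - f y)
    nlinarith [mul_le_mul_of_nonneg_right h1 h3, mul_le_mul_of_nonneg_right hy1 h4]

def bnd (l : List ℤ) (s : ℤ × ℤ) : ℤ × ℤ :=
  l.foldl (fun (s : ℤ × ℤ) (c : ℤ) => (s.1 + |c|, s.2 + s.1)) s

theorem LB_evl (l : List ℤ) : ∀ (f : ℝ → ℝ) (s : ℤ × ℤ), LB f s.1 s.2 →
    LB (fun x => evl l (f x) x) ((bnd l s).1 : ℤ) ((bnd l s).2 : ℤ) := by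
  induction l with
  | nil => intro f s h; exact h
  | cons c l ih =>
    intro f s h
    have h1 := h.step c
    refine ih (fun x => f x * x + (c : ℝ)) (s.1 + |c|, s.2 + s.1) ?_
    simp only
    push_cast
    exact h1

def nb (a : Cd) : ℤ × ℤ := bnd a.1 (0, 0)
def db (a : Cd) : ℤ × ℤ := bnd a.2.2 ((a.2.1 : ℤ) + 1, 0)

theorem LB_num (a : Cd) : LB (num a) ((nb a).1 : ℤ) ((nb a).2 : ℤ) := by
  refine LB_evl a.1 (fun _ => 0) (0, 0) ⟨by simp, by simp, fun x _ _ => by simp,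
    fun x y _ _ _ _ => by simp⟩

theorem LB_den (a : Cd) : LB (den a) ((db a).1 : ℤ) ((db a).2 : ℤ) := by
  refine LB_evl a.2.2 (fun _ => (a.2.1 : ℝ) + 1) ((a.2.1 : ℤ) + 1, 0)
    ⟨?_, by simp, fun x _ _ => ?_, fun x y _ _ _ _ => by simp⟩
  · push_cast; positivity
  · push_cast
    rw [abs_of_nonneg (by positivity)]

def Lam (a b : Cd) : ℤ :=
  ((nb b).1 * (db a).1 + (nb a).1 * (db b).1) * ((db a).1 * (db b).2 + (db b).1 * (db a).2) +
  ((db a).1 * (db b).1) * (((nb b).1 * (db a).2 + (db a).1 * (nb b).2) +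
    ((nb a).1 * (db b).2 + (db b).1 * (nb a).2))

def WW (a b : Cd) (x : ℝ) : ℝ :=
  (num b x * den a x - num a x * den b x) * (den a x * den b x)

theorem LB_W (a b : Cd) : ∃ m, LB (WW a b) m (Lam a b : ℤ) := by
  have h := (((LB_num b).mul (LB_den a)).sub ((LB_num a).mul (LB_den b))).mul
    ((LB_den a).mul (LB_den b))
  have e : ((Lam a b : ℤ) : ℝ) = (((nb b).1 : ℝ) * (db a).1 + (nb a).1 * (db b).1) *
      ((db a).1 * (db b).2 + (db b).1 * (db a).2) +
      (db a).1 * (db b).1 * ((nb b).1 * (db a).2 + (db a).1 * (nb b).2 +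
        ((nb a).1 * (db b).2 + (db b).1 * (nb a).2)) := by
    unfold Lam
    push_cast
    ring
  exact ⟨_, e ▸ h⟩

/-! ### homogeneous evaluation -/

def hm (l : List ℤ) (A D : ℤ) (s : ℤ × ℤ) : ℤ × ℤ :=
  l.foldl (fun (s : ℤ × ℤ) (c : ℤ) => (s.1 * A + c * (s.2 * D), s.2 * D)) s

theorem hm_spec (l : List ℤ) {A D : ℤ} (hD : 0 < D) : ∀ (s : ℤ × ℤ) (v : ℝ), 0 < s.2 →
    (s.1 : ℝ) = s.2 * v → 0 < (hm l A D s).2 ∧
      ((hm l A D s).1 : ℝ) = (hm l A D s).2 * evl l v ((A : ℝ) / D) := by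
  induction l with
  | nil => intro s v h1 h2; exact ⟨h1, h2⟩
  | cons c l ih =>
    intro s v h1 h2
    refine ih (s.1 * A + c * (s.2 * D), s.2 * D) (v * ((A : ℝ) / D) + c) (mul_pos h1 hD) ?_
    have hD' : (D : ℝ) ≠ 0 := by exact_mod_cast hD.ne'
    push_cast
    rw [h2]
    field_simp

def nh (a : Cd) (A D : ℤ) : ℤ × ℤ := hm a.1 A D (0, 1)
def dh (a : Cd) (A D : ℤ) : ℤ × ℤ := hm a.2.2 A D ((a.2.1 : ℤ) + 1, 1)

theorem nh_spec (a : Cd) {A D : ℤ} (hD : 0 < D) : 0 < (nh a A D).2 ∧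
    ((nh a A D).1 : ℝ) = (nh a A D).2 * num a ((A : ℝ) / D) :=
  hm_spec a.1 hD (0, 1) 0 (by norm_num) (by simp)

theorem dh_spec (a : Cd) {A D : ℤ} (hD : 0 < D) : 0 < (dh a A D).2 ∧
    ((dh a A D).1 : ℝ) = (dh a A D).2 * den a ((A : ℝ) / D) :=
  hm_spec a.2.2 hD ((a.2.1 : ℤ) + 1, 1) ((a.2.1 : ℝ) + 1) (by norm_num) (by simp)

def Test (a b : Cd) (A D : ℤ) : Prop :=
  Lam a b * ((nh b A D).2 * (dh a A D).2 * ((nh a A D).2 * (dh b A D).2) *
    ((dh a A D).2 * (dh b A D).2)) <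
  ((nh b A D).1 * (dh a A D).1 * ((nh a A D).2 * (dh b A D).2) -
    (nh a A D).1 * (dh b A D).1 * ((nh b A D).2 * (dh a A D).2)) *
    ((dh a A D).1 * (dh b A D).1) * D

theorem test_iff (a b : Cd) {A D : ℤ} (hD : 0 < D) :
    Test a b A D ↔ ((Lam a b : ℤ) : ℝ) / D < WW a b ((A : ℝ) / D) := by
  obtain ⟨h1, e1⟩ := nh_spec b (A := A) hD
  obtain ⟨h2, e2⟩ := dh_spec a (A := A) hD
  obtain ⟨h3, e3⟩ := nh_spec a (A := A) hD
  obtain ⟨h4, e4⟩ := dh_spec b (A := A) hD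
  have h1' : (0 : ℝ) < (nh b A D).2 := by exact_mod_cast h1
  have h2' : (0 : ℝ) < (dh a A D).2 := by exact_mod_cast h2
  have h3' : (0 : ℝ) < (nh a A D).2 := by exact_mod_cast h3
  have h4' : (0 : ℝ) < (dh b A D).2 := by exact_mod_cast h4
  have hD' : (0 : ℝ) < D := by exact_mod_cast hD
  unfold Test WW
  rw [← Int.cast_lt (R := ℝ)]
  push_cast
  rw [e1, e2, e3, e4]
  generalize ((nh b A D).2 : ℝ) = p at *
  generalize ((dh a A D).2 : ℝ) = q at *
  generalize ((nh a A D).2 : ℝ) = s at *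
  generalize ((dh b A D).2 : ℝ) = t at *
  generalize num b ((A : ℝ) / D) = B1
  generalize den a ((A : ℝ) / D) = A2
  generalize num a ((A : ℝ) / D) = A1
  generalize den b ((A : ℝ) / D) = B2
  generalize ((Lam a b : ℤ) : ℝ) = Λ
  generalize (D : ℝ) = D at *
  have hP : 0 < p * q * (s * t) * (q * t) := by positivity
  have e : (p * B1 * (q * A2) * (s * t) - s * A1 * (t * B2) * (p * q)) *
      (q * A2 * (t * B2)) * D = (p * q * (s * t) * (q * t)) *
      ((B1 * A2 - A1 * B2) * (A2 * B2) * D) := by ring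
  rw [e, mul_comm Λ, mul_lt_mul_iff_right₀ hP, div_lt_iff₀ hD']

theorem order_iff (Y : Set ℕ) (a b : Cd) :
    0 < WW a b (rr Y) ↔ ∃ N, Test a b (aa Y N) (3 ^ N) := by
  obtain ⟨m, h⟩ := LB_W a b
  have hclose : ∀ N : ℕ, |WW a b ((aa Y N : ℝ) / 3 ^ N) - WW a b (rr Y)| ≤
      ((Lam a b : ℤ) : ℝ) / 3 ^ N := by
    intro N
    have h1 := lo_le Y N
    have h2 := le_hi Y N
    have h3 := rr_le Y
    have h4 := rr_nonneg Y
    have hp : (0 : ℝ) < 3 ^ N := by positivity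
    have h5 := h.lip ((aa Y N : ℝ) / 3 ^ N) (rr Y) (by positivity) (by linarith) h4 (by linarith)
    refine h5.trans ?_
    rw [div_eq_mul_one_div ((Lam a b : ℤ) : ℝ)]
    refine mul_le_mul_of_nonneg_left ?_ h.L0
    rw [add_div] at h2
    have h6 : (1 / 2 : ℝ) / 3 ^ N ≤ 1 / 3 ^ N :=
      div_le_div_of_nonneg_right (by norm_num) hp.le
    rw [abs_sub_comm, abs_of_nonneg (by linarith)]
    linarith
  have hT : ∀ N : ℕ, Test a b (aa Y N) (3 ^ N) ↔
      ((Lam a b : ℤ) : ℝ) / 3 ^ N < WW a b ((aa Y N : ℝ) / 3 ^ N) := by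
    intro N
    rw [test_iff a b (by positivity)]
    push_cast
    rfl
  constructor
  · intro hW
    obtain ⟨N, hN⟩ := pow_unbounded_of_one_lt (2 * ((Lam a b : ℤ) : ℝ) / WW a b (rr Y))
      (show (1 : ℝ) < 3 by norm_num)
    refine ⟨N, (hT N).2 ?_⟩
    have hp : (0 : ℝ) < 3 ^ N := by positivity
    rw [div_lt_iff₀ hW] at hN
    have h1 := (abs_le.1 (hclose N)).1
    have h2 : 2 * (((Lam a b : ℤ) : ℝ) / 3 ^ N) < WW a b (rr Y) := by
      rw [← mul_div_assoc, div_lt_iff₀ hp]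
      linarith
    linarith
  · rintro ⟨N, hN⟩
    have h1 := (hT N).1 hN
    have h2 := (abs_le.1 (hclose N)).2
    linarith

theorem val_lt_iff {r : ℝ} (hr : Transcendental ℤ r) (a b : Cd) :
    val r a < val r b ↔ 0 < WW a b r := by
  have ha := den_r_ne hr a
  have hb := den_r_ne hr b
  have e : val r b - val r a = WW a b r / ((den a r * den b r) ^ 2) := by
    unfold val WW
    field_simp
  rw [← sub_pos, e]
  have hp : 0 < (den a r * den b r) ^ 2 := by
    have := mul_ne_zero ha hb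
    positivity
  constructor
  · intro h
    by_contra hc
    push Not at hc
    exact absurd h (not_lt.2 (div_nonpos_of_nonpos_of_nonneg hc hp.le))
  · intro h
    exact div_pos h hp

/-! ### computability -/

section
variable {α : Type*} [Primcodable α]

@[fun_prop] theorem c_bnd {l : α → List ℤ} {s : α → ℤ × ℤ} (hl : Computable l)
    (hs : Computable s) : Computable fun a => bnd (l a) (s a) := by
  have hh : Computable₂ (α := α) (β := (ℤ × ℤ) × ℤ) (σ := ℤ × ℤ)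
      fun _ p => (p.1.1 + |p.2|, p.1.2 + p.1.1) := by
    refine Computable.to₂ (f := fun q : α × (ℤ × ℤ) × ℤ =>
      ((q.2.1.1 + |q.2.2|, q.2.1.2 + q.2.1.1) : ℤ × ℤ)) ?_
    fun_prop
  unfold bnd
  exact RE.list_foldl (h := fun _ p => (p.1.1 + |p.2|, p.1.2 + p.1.1)) hl hs hh

@[fun_prop] theorem c_hm {l : α → List ℤ} {s : α → ℤ × ℤ} {A D : α → ℤ} (hl : Computable l)
    (hA : Computable A) (hD : Computable D) (hs : Computable s) :
    Computable fun a => hm (l a) (A a) (D a) (s a) := by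
  have hh : Computable₂ (α := α) (β := (ℤ × ℤ) × ℤ) (σ := ℤ × ℤ) fun a p =>
      (p.1.1 * A a + p.2 * (p.1.2 * D a), p.1.2 * D a) := by
    refine Computable.to₂ (f := fun q : α × (ℤ × ℤ) × ℤ =>
      ((q.2.1.1 * A q.1 + q.2.2 * (q.2.1.2 * D q.1), q.2.1.2 * D q.1) : ℤ × ℤ)) ?_
    fun_prop
  unfold hm
  exact RE.list_foldl (h := fun a p => (p.1.1 * A a + p.2 * (p.1.2 * D a), p.1.2 * D a)) hl hs hh

@[fun_prop] theorem c_nb {a : α → Cd} (ha : Computable a) : Computable fun p => nb (a p) := by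
  unfold nb; fun_prop
@[fun_prop] theorem c_db {a : α → Cd} (ha : Computable a) : Computable fun p => db (a p) := by
  unfold db; fun_prop
@[fun_prop] theorem c_nh {a : α → Cd} {A D : α → ℤ} (ha : Computable a)
    (hA : Computable A) (hD : Computable D) : Computable fun p => nh (a p) (A p) (D p) := by
  unfold nh; fun_prop
@[fun_prop] theorem c_dh {a : α → Cd} {A D : α → ℤ} (ha : Computable a)
    (hA : Computable A) (hD : Computable D) : Computable fun p => dh (a p) (A p) (D p) := by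
  unfold dh; fun_prop
@[fun_prop] theorem c_Lam {a b : α → Cd} (ha : Computable a) (hb : Computable b) :
    Computable fun p => Lam (a p) (b p) := by
  unfold Lam; fun_prop

theorem cp_Test {a b : α → Cd} {A D : α → ℤ} (ha : Computable a) (hb : Computable b)
    (hA : Computable A) (hD : Computable D) :
    ComputablePred fun p => Test (a p) (b p) (A p) (D p) := by
  unfold Test
  exact IntC.cp_ilt (by fun_prop) (by fun_prop)

theorem c_pow3 : Computable fun N : ℕ => ((3 : ℤ) ^ N) := by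
  have h1 : Computable fun N : ℕ => (Nat.rec 1 (fun _ IH => 3 * IH) N : ℤ) :=
    Computable.nat_rec (f := fun N : ℕ => N) (g := fun _ => (1 : ℤ))
      (h := fun (_ : ℕ) (q : ℕ × ℤ) => 3 * q.2) Computable.id (Computable.const 1)
      (by
        show Computable fun x : ℕ × ℕ × ℤ => 3 * x.2.2
        fun_prop)
  refine h1.of_eq fun N => ?_
  induction N with
  | zero => rfl
  | succ N ih =>
    show 3 * (Nat.rec 1 (fun _ IH => 3 * IH) N : ℤ) = _
    rw [ih]
    ring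

theorem tot_aa (Y : Set ℕ) : TotIn Y (aa Y) := by
  have hdg : ∀ N, dg Y N = chiN Y N := by
    intro N
    unfold dg
    by_cases h : N ∈ Y
    · rw [if_pos h, chiN_eq_one.2 h]
    · rw [if_neg h, chiN_eq_zero.2 h]
  have h1 : TotIn Y fun w => 3 * w.unpair.2.unpair.2 + chiN Y w.unpair.2.unpair.1 := by
    have h2 : TotIn Y fun w : ℕ => Nat.pair w.unpair.2.unpair.2 (chiN Y w.unpair.2.unpair.1) :=
      (TotIn.of_comp (f := fun w : ℕ => w.unpair.2.unpair.2) (by fun_prop)).pair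
        (TotIn.chi.comp (TotIn.of_comp (f := fun w : ℕ => w.unpair.2.unpair.1) (by fun_prop)))
    have h3 : TotIn Y fun w : ℕ => 3 * w.unpair.1 + w.unpair.2 := TotIn.of_comp (by fun_prop)
    have h4 := h3.comp h2
    simpa only [Nat.unpair_pair] using h4
  have h5 := TotIn.prec (TotIn.of_comp (A := Y) (f := fun _ : ℕ => 0) (by fun_prop)) h1
  have h6 := h5.comp (TotIn.of_comp (A := Y) (f := fun N : ℕ => Nat.pair 0 N) (by fun_prop))
  have e : (fun N => aa Y N) = fun n => Nat.rec (motive := fun _ => ℕ) 0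
      (fun y IH => 3 * IH + chiN Y y) n := by
    funext n
    induction n with
    | zero => rfl
    | succ n ih =>
      show 3 * aa Y n + dg Y n = 3 * (Nat.rec (motive := fun _ => ℕ) 0
        (fun y IH => 3 * IH + chiN Y y) n) + chiN Y n
      rw [← ih, hdg]
  show TotIn Y (fun N => aa Y N)
  rw [e]
  simpa only [Nat.unpair_pair] using h6

theorem re_aa (Y : Set ℕ) : REIn Y fun p : ℕ × ℕ => aa Y p.1 = p.2 := by
  refine (graph_of_recursiveIn (tot_aa Y)).of_eq fun p => ?_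
  rw [Part.mem_some_iff]
  exact eq_comm

theorem re_lt {Y : Set ℕ} (hr : Transcendental ℤ (rr Y)) {a b : α → Cd} (ha : Computable a)
    (hb : Computable b) : REIn Y fun p => val (rr Y) (a p) < val (rr Y) (b p) := by
  have h : REIn Y fun p => ∃ q : ℕ × ℕ, aa Y q.1 = q.2 ∧ Test (a p) (b p) (q.2 : ℕ) (3 ^ q.1) := by
    refine REIn.ex (S := fun p (q : ℕ × ℕ) => aa Y q.1 = q.2 ∧
      Test (a p) (b p) (q.2 : ℕ) (3 ^ q.1)) ?_
    refine ((re_aa Y).comp Computable.snd).and (REIn.of_re ?_)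
    refine (cp_Test (a := fun x : α × ℕ × ℕ => a x.1) (b := fun x => b x.1)
      (A := fun x => ((x.2.2 : ℕ) : ℤ)) (D := fun x => 3 ^ x.2.1) (by fun_prop) (by fun_prop)
      (by fun_prop) (c_pow3.comp (by fun_prop))).to_re
  refine h.of_eq fun p => ?_
  rw [val_lt_iff hr, order_iff]
  constructor
  · rintro ⟨⟨N, A⟩, h1, h2⟩
    simp only at h1 h2
    exact ⟨N, by rw [h1]; exact h2⟩
  · rintro ⟨N, hN⟩
    exact ⟨(N, aa Y N), rfl, hN⟩

end

end Pool.Agent.H437R3.LowOrd
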