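import Mathlib
import Pool.Agent.H437R3.LowDefs
import Pool.Agent.H437R3.LowOrd

/-!
The field `ℚ(r)` for a low real number `r`.
-/

set_option autoImplicit false

namespace Pool.Agent.H437R3.OrdField

open Pool.Agent.Helper578.JD Pool.Agent.Helper578.JD.Oracle Pool.Agent.Helper578.JD.Defs
open LowCode LowReal LowOrd Low Polynomial Denumerable

/-! ### the field -/

/-- the field `ℚ(r)` -/
def FF {r : ℝ} (hr : Transcendental ℤ r) : Subfield ℝ where
  carrier := {x | ∃ P Q : ℤ[X], Q ≠ 0 ∧ x = aeval r P / aeval r Q}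
  zero_mem' := ⟨0, 1, one_ne_zero, by simp⟩
  one_mem' := ⟨1, 1, one_ne_zero, by simp⟩
  add_mem' := by
    rintro _ _ ⟨P, Q, hQ, rfl⟩ ⟨P', Q', hQ', rfl⟩
    refine ⟨P * Q' + Q * P', Q * Q', mul_ne_zero hQ hQ', ?_⟩
    have h1 : aeval r Q ≠ 0 := fun h => hQ (transcendental_iff.1 hr _ h)
    have h2 : aeval r Q' ≠ 0 := fun h => hQ' (transcendental_iff.1 hr _ h)
    rw [map_add, map_mul, map_mul, map_mul, div_add_div _ _ h1 h2]
  mul_mem' := by
    rintro _ _ ⟨P, Q, hQ, rfl⟩ ⟨P', Q', hQ', rfl⟩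
    refine ⟨P * P', Q * Q', mul_ne_zero hQ hQ', ?_⟩
    rw [map_mul, map_mul, div_mul_div_comm]
  neg_mem' := by
    rintro _ ⟨P, Q, hQ, rfl⟩
    exact ⟨-P, Q, hQ, by rw [map_neg, neg_div]⟩
  inv_mem' := by
    rintro _ ⟨P, Q, hQ, rfl⟩
    by_cases hP : P = 0
    · refine ⟨0, 1, one_ne_zero, ?_⟩
      rw [hP]
      simp
    · exact ⟨Q, P, hP, by rw [inv_div]⟩

theorem mem_FF {r : ℝ} (hr : Transcendental ℤ r) (x : ℝ) : x ∈ FF hr ↔ ∃ a : Cd, val r a = x := by
  constructor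
  · rintro ⟨P, Q, hQ, rfl⟩
    exact exists_code hr P Q hQ
  · rintro ⟨a, rfl⟩
    refine ⟨num a X, den a X, den_ne a, ?_⟩
    unfold val
    rw [num_r, den_r]

section
variable {r : ℝ} (hr : Transcendental ℤ r)

/-- the value of a natural number -/
noncomputable def vn (r : ℝ) (n : ℕ) : ℝ := val r (ofNat Cd n)

theorem vn_mem (n : ℕ) : vn r n ∈ FF hr := (mem_FF hr _).2 ⟨_, rfl⟩

theorem vn_surj {x : ℝ} (hx : x ∈ FF hr) : ∃ n, vn r n = x := by
  obtain ⟨a, rfl⟩ := (mem_FF hr x).1 hx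
  exact ⟨Encodable.encode a, by unfold vn; rw [ofNat_encode]⟩

/-- the domain: the least codes -/
def D0 (r : ℝ) : Set ℕ := {n | ∀ m < n, ¬ vn r m = vn r n}

theorem least_mem {n : ℕ} {x : ℝ} (h1 : vn r n = x) (h2 : ∀ m < n, ¬ vn r m = x) : n ∈ D0 r :=
  fun m hm h => h2 m hm (h.trans h1)

theorem D0_inj {m n : ℕ} (hm : m ∈ D0 r) (hn : n ∈ D0 r) (h : vn r m = vn r n) : m = n := by
  rcases lt_trichotomy m n with h1 | h1 | h1
  · exact (hn m h1 h).elim
  · exact h1
  · exact (hm n h1 h.symm).elim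

/-- the presentation -/
noncomputable def P0 : Pres (FF hr) where
  dom := D0 r
  e := Equiv.ofBijective (fun n : D0 r => (⟨vn r n, vn_mem hr n⟩ : FF hr)) (by
    classical
    constructor
    · intro m n h
      exact Subtype.ext (D0_inj m.2 n.2 (congrArg Subtype.val h))
    · rintro ⟨x, hx⟩
      have hex := vn_surj hr hx
      refine ⟨⟨Nat.find hex, least_mem (Nat.find_spec hex) fun m hm => Nat.find_min hex hm⟩, ?_⟩
      exact Subtype.ext (Nat.find_spec hex))

theorem P0_e (n : D0 r) : (((P0 hr).e n : FF hr) : ℝ) = vn r n := rfl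

theorem P0_symm {x : FF hr} {n : ℕ} (hn : n ∈ D0 r) (h : vn r n = x) :
    ((P0 hr).e.symm x : ℕ) = n := by
  have h1 : (P0 hr).e ⟨n, hn⟩ = x := Subtype.ext h
  rw [← h1, Equiv.symm_apply_apply]

section
variable {α : Type*} [Primcodable α]

theorem c_ofNat {f : α → ℕ} (hf : Computable f) : Computable fun a => (ofNat Cd (f a)) :=
  (Computable.ofNat Cd).comp hf

theorem comp_least {R : ℕ × ℕ → ℕ → Prop} (hR : ComputablePred fun x : (ℕ × ℕ) × ℕ => R x.1 x.2)
    (hex : ∀ p, ∃ k, R p k) : ∃ f : ℕ × ℕ → ℕ, Computable f ∧ ∀ p, R p (f p) ∧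
      ∀ j < f p, ¬ R p j := by
  classical
  refine ⟨fun p => Nat.find (hex p), ?_, fun p => ⟨Nat.find_spec (hex p),
    fun j hj => Nat.find_min (hex p) hj⟩⟩
  refine RE.computable_of_graph ?_
  have h2 : REPred fun x : (ℕ × ℕ) × ℕ => ∀ j < x.2, ¬ R x.1 j := by
    refine RE.all_lt (p := fun (x : (ℕ × ℕ) × ℕ) j => ¬ R x.1 j) ?_ Computable.snd
    exact RE.comp hR.not.to_re (f := fun y : ((ℕ × ℕ) × ℕ) × ℕ => (y.1.1, y.2)) (by fun_prop)
  refine (RE.and hR.to_re h2).of_eq fun x => ?_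
  rw [Nat.find_eq_iff]

end

include hr in
theorem cp_D0 : ComputablePred (· ∈ D0 r) := by
  refine cp_ball (p := fun (n m : ℕ) => ¬ vn r m = vn r n) (f := fun n => n) ?_ Computable.id
  exact (cp_val_eq hr (c_ofNat Computable.snd) (c_ofNat Computable.fst)).not

theorem P0_comp : (P0 hr).IsComputable := by
  refine ⟨cp_D0 hr, ?_, ?_⟩
  · obtain ⟨f, hf, h⟩ := comp_least (R := fun p k => vn r p.1 + vn r p.2 = vn r k)
      (cp_val_add hr (c_ofNat (by fun_prop)) (c_ofNat (by fun_prop)) (c_ofNat (by fun_prop)))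
      (fun p => by
        obtain ⟨k, hk⟩ := vn_surj hr ((FF hr).add_mem (vn_mem hr p.1) (vn_mem hr p.2))
        exact ⟨k, hk.symm⟩)
    refine ⟨f, hf, fun a b => ?_⟩
    obtain ⟨h1, h2⟩ := h (a, b)
    symm
    refine P0_symm hr (least_mem (x := vn r a + vn r b) h1.symm fun m hm hc => h2 m hm hc.symm)
      h1.symm
  · obtain ⟨f, hf, h⟩ := comp_least (R := fun p k => vn r p.1 * vn r p.2 = vn r k)
      (cp_val_mul hr (c_ofNat (by fun_prop)) (c_ofNat (by fun_prop)) (c_ofNat (by fun_prop)))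
      (fun p => by
        obtain ⟨k, hk⟩ := vn_surj hr ((FF hr).mul_mem (vn_mem hr p.1) (vn_mem hr p.2))
        exact ⟨k, hk.symm⟩)
    refine ⟨f, hf, fun a b => ?_⟩
    obtain ⟨h1, h2⟩ := h (a, b)
    symm
    refine P0_symm hr (least_mem (x := vn r a * vn r b) h1.symm fun m hm hc => h2 m hm hc.symm)
      h1.symm

theorem mem_order (n : ℕ) : n ∈ (P0 hr).orderSet ↔
    (n.unpair.1 ∈ D0 r ∧ n.unpair.2 ∈ D0 r) ∧ vn r n.unpair.1 < vn r n.unpair.2 := by
  constructor
  · rintro ⟨a, b, rfl, h⟩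
    rw [Nat.unpair_pair]
    exact ⟨⟨a.2, b.2⟩, h⟩
  · rintro ⟨⟨h1, h2⟩, h3⟩
    exact ⟨⟨_, h1⟩, ⟨_, h2⟩, (Nat.pair_unpair n).symm, h3⟩

end

theorem red_order {Y : Set ℕ} (hr : Transcendental ℤ (rr Y)) : Red (P0 hr).orderSet Y := by
  rw [Red_iff]
  have h1 : Computable fun n : ℕ => n.unpair.1 := by fun_prop
  have h2 : Computable fun n : ℕ => n.unpair.2 := by fun_prop
  have hD := cp_D0 hr
  constructor
  · refine (((REIn.of_re (RE.comp hD.to_re h1)).and (REIn.of_re (RE.comp hD.to_re h2))).and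
      (re_lt hr (c_ofNat h1) (c_ofNat h2))).of_eq fun n => ?_
    exact (mem_order hr n).symm
  · refine (((REIn.of_re (RE.comp hD.not.to_re h1)).or (REIn.of_re (RE.comp hD.not.to_re h2))).or
      ((re_lt hr (c_ofNat h2) (c_ofNat h1)).or
        (REIn.of_re (cp_val_eq hr (c_ofNat h1) (c_ofNat h2)).to_re))).of_eq fun n => ?_
    rw [mem_order hr n]
    show _ ∨ (vn (rr Y) n.unpair.2 < vn (rr Y) n.unpair.1 ∨
      vn (rr Y) n.unpair.1 = vn (rr Y) n.unpair.2) ↔ _
    have h3 : (vn (rr Y) n.unpair.2 < vn (rr Y) n.unpair.1 ∨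
      vn (rr Y) n.unpair.1 = vn (rr Y) n.unpair.2) ↔
        ¬ vn (rr Y) n.unpair.1 < vn (rr Y) n.unpair.2 := by
      rw [not_lt, le_iff_lt_or_eq, eq_comm (a := vn (rr Y) n.unpair.1)]
    rw [h3]
    tauto

/-! ### the sparse set -/

theorem c_fact : Computable fun k : ℕ => (k + 1).factorial := by
  have h1 : Computable fun k : ℕ => (Nat.rec 1 (fun n IH => (n + 2) * IH) k : ℕ) :=
    Computable.nat_rec (f := fun N : ℕ => N) (g := fun _ => 1)
      (h := fun (_ : ℕ) (q : ℕ × ℕ) => (q.1 + 2) * q.2) Computable.id (Computable.const 1)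
      (by
        show Computable fun x : ℕ × ℕ × ℕ => (x.2.1 + 2) * x.2.2
        fun_prop)
  refine h1.of_eq fun k => ?_
  induction k with
  | zero => rfl
  | succ k ih =>
    show (k + 2) * (Nat.rec 1 (fun n IH => (n + 2) * IH) k : ℕ) = _
    rw [ih]
    rfl

theorem mem_Ys {X : Set ℕ} (k : ℕ) : (k + 1).factorial ∈ Ys X ↔ k ∈ X := by
  constructor
  · rintro ⟨j, hj, h⟩
    have : j = k := by
      rcases lt_trichotomy j k with h1 | h1 | h1
      · have := (Nat.factorial_lt (show 0 < j + 1 by omega)).2 (show j + 1 < k + 1 by omega)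
        omega
      · exact h1
      · have := (Nat.factorial_lt (show 0 < k + 1 by omega)).2 (show k + 1 < j + 1 by omega)
        omega
    rwa [← this]
  · intro h
    exact ⟨k, h, rfl⟩

theorem red_Ys (X : Set ℕ) : Red (Ys X) X := by
  rw [Red_iff]
  constructor
  · refine REIn.ex (S := fun (n k : ℕ) => k ∈ X ∧ (k + 1).factorial = n) ?_
    exact (REIn.mem Computable.snd).and (REIn.of_re (RE.eq (c_fact.comp Computable.snd)
      Computable.fst))
  · have h : REIn X fun n : ℕ => ∀ k < n, k ∉ X ∨ (k + 1).factorial ≠ n := by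
      refine REIn.all_lt (S := fun (n k : ℕ) => k ∉ X ∨ (k + 1).factorial ≠ n) ?_ Computable.id
      exact (REIn.not_mem Computable.snd).or (REIn.of_re (RE.ne (c_fact.comp Computable.snd)
        Computable.fst))
    refine h.of_eq fun n => ?_
    constructor
    · rintro h1 ⟨k, hk, rfl⟩
      have := Nat.self_le_factorial (k + 1)
      rcases h1 k (by omega) with h2 | h2
      · exact h2 hk
      · exact h2 rfl
    · intro h1 k _
      by_cases hk : k ∈ X
      · right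
        intro h2
        exact h1 ⟨k, hk, h2⟩
      · exact Or.inl hk

theorem infinite_of_not_comp {X : Set ℕ} (h : ¬ ComputablePred (· ∈ X)) : X.Infinite := by
  intro hf
  apply h
  refine (RE.cp_mem (f := fun n : ℕ => n) (l := fun _ : ℕ => hf.toFinset.toList) Computable.id
    (Computable.const _)).of_eq fun n => ?_
  simp

/-! ### the cut is computable in an ordered copy -/

theorem comp_copy {K : Type} [Field K] [LinearOrder K] [IsStrictOrderedRing K] {r : ℝ} {t : K}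
    (ht : ∀ m k : ℕ, (m : K) ≤ k * t ↔ (m : ℝ) ≤ k * r) (Q : Pres K) (hQ : Q.IsComputable)
    (hO : ComputablePred (· ∈ Q.orderSet)) :
    ComputablePred fun p : ℕ × ℕ => (p.1 : ℝ) ≤ (p.2 : ℝ) * r := by
  obtain ⟨_, ⟨f, hf, hf'⟩, _⟩ := hQ
  have key : ∀ s : K, Computable fun n : ℕ => (Q.e.symm ((n : K) * s) : ℕ) := by
    intro s
    have h1 : Computable fun n : ℕ => (Nat.rec (Q.e.symm 0 : ℕ)
        (fun _ IH => f (IH, (Q.e.symm s : ℕ))) n : ℕ) :=
      Computable.nat_rec (f := fun N : ℕ => N) (g := fun _ => (Q.e.symm 0 : ℕ))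
        (h := fun (_ : ℕ) (q : ℕ × ℕ) => f (q.2, (Q.e.symm s : ℕ))) Computable.id
        (Computable.const _)
        (by
          show Computable fun x : ℕ × ℕ × ℕ => f (x.2.2, (Q.e.symm s : ℕ))
          exact hf.comp (by fun_prop))
    refine h1.of_eq fun n => ?_
    induction n with
    | zero =>
      show (Q.e.symm 0 : ℕ) = _
      simp
    | succ n ih =>
      show f ((Nat.rec (Q.e.symm 0 : ℕ) (fun _ IH => f (IH, (Q.e.symm s : ℕ))) n : ℕ),
        (Q.e.symm s : ℕ)) = _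
      rw [ih, hf' (Q.e.symm ((n : K) * s)) (Q.e.symm s), Equiv.apply_symm_apply,
        Equiv.apply_symm_apply]
      congr 2
      push_cast
      ring
  have h1 : ComputablePred fun p : ℕ × ℕ =>
      Nat.pair (Q.e.symm ((p.2 : K) * t) : ℕ) (Q.e.symm ((p.1 : K) * 1) : ℕ) ∈ Q.orderSet :=
    RE.cp_comp (p := (· ∈ Q.orderSet)) hO (f := fun p : ℕ × ℕ =>
      Nat.pair (Q.e.symm ((p.2 : K) * t) : ℕ) (Q.e.symm ((p.1 : K) * 1) : ℕ))
      ((Primrec₂.natPair.to_comp).comp ((key t).comp Computable.snd)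
        ((key 1).comp Computable.fst))
  refine h1.not.of_eq fun p => ?_
  rw [← ht, ← not_lt, not_iff_not]
  constructor
  · rintro ⟨a, b, h2, h3⟩
    obtain ⟨h4, h5⟩ := Nat.pair_eq_pair.1 h2
    have h6 := Subtype.ext h4
    have h7 := Subtype.ext h5
    rw [← h6, ← h7, Equiv.apply_symm_apply, Equiv.apply_symm_apply, mul_one] at h3
    exact h3
  · intro h2
    refine ⟨_, _, rfl, ?_⟩
    rw [Equiv.apply_symm_apply, Equiv.apply_symm_apply, mul_one]
    exact h2

theorem main : ∃ (F : Type) (_ : Field F) (_ : LinearOrder F) (_ : IsStrictOrderedRing F)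
    (P : Pres F), P.IsComputable ∧ Low P.orderSet ∧
    ∀ (K : Type) (_ : Field K) (_ : LinearOrder K) (_ : IsStrictOrderedRing K) (_ : F ≃+*o K)
      (Q : Pres K), Q.IsComputable → ¬ ComputablePred (· ∈ Q.orderSet) := by
  obtain ⟨X, hX, hX'⟩ := exists_low
  have hr : Transcendental ℤ (rr (Ys X)) := transc (infinite_of_not_comp hX')
  refine ⟨FF hr, inferInstance, inferInstance, inferInstance, P0 hr, P0_comp hr, ?_, ?_⟩
  · have h1 : Red (P0 hr).orderSet X := (red_order hr).trans (red_Ys X)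
    exact (jump_mono h1).trans hX
  · intro K _ _ _ i Q hQ hO
    have hmem : rr (Ys X) ∈ FF hr := ⟨Polynomial.X, 1, one_ne_zero, by simp⟩
    have h1 := comp_copy (t := i ⟨rr (Ys X), hmem⟩) (r := rr (Ys X)) (fun m k => by
      have h2 : (m : K) = i (m : FF hr) := (map_natCast i m).symm
      have h3 : (k : K) = i (k : FF hr) := (map_natCast i k).symm
      rw [h2, h3, ← map_mul, map_le_map_iff]
      exact Iff.rfl) Q hQ hO
    have h2 := comp_of_cut (Ys X) h1
    apply hX'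
    exact (RE.cp_comp h2 c_fact).of_eq fun k => mem_Ys k

end Pool.Agent.H437R3.OrdField
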