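import Pool.Agent.H437R3.DepChoice

set_option autoImplicit false

/-!
A group given by a co-c.e. normal subgroup has a computable length function: the approximations.
-/

namespace Pool.Agent.H437R3

open Pool.Agent.Helper446

/-- Entry of a list, `0` beyond its end. -/
def gd (a : List ℕ) (i : ℕ) : ℕ := (a[i]?).getD 0

theorem gd_c : Computable fun x : List ℕ × ℕ => gd x.1 x.2 :=
  Computable.option_getD (Computable.list_getElem?.comp Computable.fst Computable.snd)
    (Computable.const 0)

@[fun_prop] theorem gd_comp {α : Type*} [Primcodable α] {f : α → List ℕ} {g : α → ℕ}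
    (hf : Computable f) (hg : Computable g) : Computable fun x => gd (f x) (g x) :=
  gd_c.comp (hf.pair hg)

/-- All lists of length `l` with entries below `B`. -/
def allL (B : ℕ) : ℕ → List (List ℕ)
  | 0 => [[]]
  | l + 1 => (allL B l).flatMap fun L => (List.range B).map fun j => j :: L

theorem mem_allL (B : ℕ) : ∀ (l : ℕ) (L : List ℕ), L ∈ allL B l ↔ L.length = l ∧ ∀ j ∈ L, j < B
  | 0, L => by
    simp only [allL, List.mem_singleton, List.length_eq_zero_iff]
    constructor
    · rintro rfl; simp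
    · exact fun h => h.1
  | l + 1, L => by
    simp only [allL, List.mem_flatMap, List.mem_map, List.mem_range]
    constructor
    · rintro ⟨L', h1, j, h2, rfl⟩
      rw [mem_allL B l] at h1
      refine ⟨by simp [h1.1], ?_⟩
      intro i hi
      rcases List.mem_cons.1 hi with rfl | hi
      · exact h2
      · exact h1.2 i hi
    · rintro ⟨h1, h2⟩
      cases L with
      | nil => simp at h1
      | cons j L =>
        refine ⟨L, (mem_allL B l L).2 ⟨by simpa using h1, fun i hi => h2 i (List.mem_cons_of_mem _ hi)⟩,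
          j, h2 j List.mem_cons_self, rfl⟩

theorem allL_c : Computable fun x : ℕ × ℕ => allL x.1 x.2 := by
  have h : Primrec fun x : ℕ × ℕ => allL x.1 x.2 := by
    have h1 := Primrec.nat_rec' (α := ℕ × ℕ) (β := List (List ℕ)) (f := fun x => x.2)
      (g := fun _ => [[]])
      (h := fun x y => (y.2).flatMap fun L => (List.range x.1).map fun j => j :: L)
      Primrec.snd (Primrec.const _) (by
        refine Primrec.list_flatMap (f := fun p : (ℕ × ℕ) × (ℕ × List (List ℕ)) => p.2.2)
          (g := fun p L => (List.range p.1.1).map fun j => j :: L)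
          (Primrec.snd.comp Primrec.snd) ?_
        refine Primrec.list_map (f := fun p : ((ℕ × ℕ) × (ℕ × List (List ℕ))) × List ℕ =>
          List.range p.1.1.1) (g := fun p j => j :: p.2) ?_ ?_
        · exact Primrec.list_range.comp
            (Primrec.fst.comp (Primrec.fst.comp Primrec.fst))
        · exact (Primrec.list_cons.comp Primrec.snd (Primrec.snd.comp Primrec.fst)).to₂)
    refine h1.of_eq fun x => ?_
    obtain ⟨B, l⟩ := x
    have h2 : ∀ l : ℕ, (Nat.rec (motive := fun _ => List (List ℕ)) [[]]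
        (fun _ y => y.flatMap fun L => (List.range B).map fun j => j :: L) l) = allL B l := by
      intro l
      induction l with
      | zero => rfl
      | succ l ih => rw [allL, ← ih]
    exact h2 l
  exact h.to_comp

/-- The cost of a list of indices. -/
def cost (a : List ℕ) (L : List ℕ) : ℕ := L.foldl (fun s j => s + (gd a j + 1)) 0

theorem cost_eq (a L : List ℕ) : cost a L = (L.map fun j => gd a j + 1).sum := by
  have h : ∀ (L : List ℕ) (s : ℕ), L.foldl (fun s j => s + (gd a j + 1)) s =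
      s + (L.map fun j => gd a j + 1).sum := by
    intro L
    induction L with
    | nil => intro s; simp
    | cons j L ih => intro s; simp only [List.foldl_cons, List.map_cons, List.sum_cons]; rw [ih]; omega
  unfold cost
  rw [h]
  simp

theorem cost_c : Computable fun x : List ℕ × List ℕ => cost x.1 x.2 := by
  refine RE.list_foldl (f := fun x : List ℕ × List ℕ => x.2) (g := fun _ => 0)
    (h := fun x y => y.1 + (gd x.1 y.2 + 1)) (by fun_prop) (by fun_prop) ?_
  unfold Computable₂
  fun_prop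

@[fun_prop] theorem cost_comp {α : Type*} [Primcodable α] {f : α → List ℕ} {g : α → List ℕ}
    (hf : Computable f) (hg : Computable g) : Computable fun x => cost (f x) (g x) :=
  cost_c.comp (hf.pair hg)

@[fun_prop] theorem two_pow_comp {α : Type*} [Primcodable α] {f : α → ℕ}
    (hf : Computable f) : Computable fun x => 2 ^ f x := by
  have hpow : Primrec₂ (fun m n : ℕ => m ^ n) := Primrec₂.unpaired'.1 Nat.Primrec.pow
  exact (hpow.comp (Primrec.const 2) Primrec.id).to_comp.comp hf

theorem le_cost (a L : List ℕ) : L.length ≤ cost a L := by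
  rw [cost_eq]
  induction L with
  | nil => simp
  | cons j L ih => simp only [List.length_cons, List.map_cons, List.sum_cons]; omega

section

variable {G : Type} [Group G] (v : ℕ → G) (N : Subgroup G)

/-- The bounds given by `a` at scale `2 ^ n` are consistent. -/
def Valid (n : ℕ) (a : List ℕ) : Prop :=
  a.length = n ∧ (∀ i < n, gd a i ≤ 2 ^ n) ∧
    ∀ i < n, ∀ L : List ℕ, (∀ j ∈ L, j < n) → (v i)⁻¹ * (L.map v).prod ∈ N → gd a i ≤ cost a L

/-- `a'` refines `a`. -/
def Step (q : ℕ → ℕ → Bool) (n : ℕ) (a a' : List ℕ) : Prop :=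
  a'.length = n + 1 ∧
  (∀ i < n, 2 * gd a i ≤ gd a' i ∧ gd a' i ≤ 2 * (gd a i + 1)) ∧
  (∀ i < n + 1, gd a' i ≤ 2 ^ (n + 1)) ∧
  (∀ i < n + 1, (∀ t < n + 1, q i t = false) ∨ 1 ≤ gd a' i) ∧
  ∀ i < n + 1, ∀ l < 2 ^ (n + 1), ∀ L ∈ allL (n + 1) l,
    gd a' i ≤ cost a' L ∨ (v i)⁻¹ * (L.map v).prod ∉ N

theorem Step_re (hre : REPred fun x : ℕ × List ℕ => (v x.1)⁻¹ * (x.2.map v).prod ∉ N)
    {q : ℕ → ℕ → Bool} (hq : Computable₂ q) :
    REPred fun x : (ℕ × List ℕ) × List ℕ => Step v N q x.1.1 x.1.2 x.2 := by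
  unfold Step
  refine RE.and (RE.eq (by fun_prop) (by fun_prop)) (RE.and ?_ (RE.and ?_ (RE.and ?_ ?_)))
  · refine RE.all_lt (p := fun (x : (ℕ × List ℕ) × List ℕ) i => 2 * gd x.1.2 i ≤ gd x.2 i ∧
      gd x.2 i ≤ 2 * (gd x.1.2 i + 1)) ?_ (by fun_prop)
    exact RE.and (RE.le (by fun_prop) (by fun_prop)) (RE.le (by fun_prop) (by fun_prop))
  · refine RE.all_lt (p := fun (x : (ℕ × List ℕ) × List ℕ) i => gd x.2 i ≤ 2 ^ (x.1.1 + 1)) ?_
      (by fun_prop)
    exact RE.le (by fun_prop) (by fun_prop)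
  · refine RE.all_lt (p := fun (x : (ℕ × List ℕ) × List ℕ) i =>
      (∀ t < x.1.1 + 1, q i t = false) ∨ 1 ≤ gd x.2 i) ?_ (by fun_prop)
    refine RE.or ?_ (RE.le (by fun_prop) (by fun_prop))
    refine RE.all_lt (p := fun (x : ((ℕ × List ℕ) × List ℕ) × ℕ) t => q x.2 t = false) ?_
      (by fun_prop)
    have hq2 : Computable fun x : ℕ × ℕ => q x.1 x.2 := hq
    have hq3 : Computable fun x : (((ℕ × List ℕ) × List ℕ) × ℕ) × ℕ => q x.1.2 x.2 :=
      hq2.comp (g := fun x : (((ℕ × List ℕ) × List ℕ) × ℕ) × ℕ => (x.1.2, x.2)) (by fun_prop)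
    exact RE.eq hq3 (Computable.const false)
  · refine RE.all_lt (p := fun (x : (ℕ × List ℕ) × List ℕ) i => ∀ l < 2 ^ (x.1.1 + 1),
      ∀ L ∈ allL (x.1.1 + 1) l, gd x.2 i ≤ cost x.2 L ∨ (v i)⁻¹ * (L.map v).prod ∉ N) ?_
      (by fun_prop)
    refine RE.all_lt (p := fun (x : ((ℕ × List ℕ) × List ℕ) × ℕ) l =>
      ∀ L ∈ allL (x.1.1.1 + 1) l, gd x.1.2 x.2 ≤ cost x.1.2 L ∨
        (v x.2)⁻¹ * (L.map v).prod ∉ N) ?_ (by fun_prop)
    refine RE.all_mem (p := fun (x : (((ℕ × List ℕ) × List ℕ) × ℕ) × ℕ) L =>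
      gd x.1.1.2 x.1.2 ≤ cost x.1.1.2 L ∨ (v x.1.2)⁻¹ * (L.map v).prod ∉ N)
      (l := fun x => allL (x.1.1.1.1 + 1) x.2) ?_ ?_
    · refine RE.or (RE.le (by fun_prop) (by fun_prop)) ?_
      exact RE.comp hre (f := fun x : ((((ℕ × List ℕ) × List ℕ) × ℕ) × ℕ) × List ℕ =>
        (x.1.1.2, x.2)) (by fun_prop)
    · exact allL_c.comp (f := fun x : ℕ × ℕ => allL x.1 x.2)
        (g := fun x : (((ℕ × List ℕ) × List ℕ) × ℕ) × ℕ => (x.1.1.1.1 + 1, x.2)) (by fun_prop)

theorem valid_of_step {q : ℕ → ℕ → Bool} {n : ℕ} {a a' : List ℕ} (h : Step v N q n a a') :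
    Valid v N (n + 1) a' := by
  obtain ⟨h1, h2, h3, h4, h5⟩ := h
  refine ⟨h1, h3, ?_⟩
  intro i hi L hL hN
  by_cases hl : L.length < 2 ^ (n + 1)
  · rcases h5 i hi L.length hl L ((mem_allL _ _ _).2 ⟨rfl, hL⟩) with h6 | h6
    · exact h6
    · exact absurd hN h6
  · exact (h3 i hi).trans ((not_lt.1 hl).trans (le_cost _ _))

theorem step_exists (hN : N.Normal) {q : ℕ → ℕ → Bool} (hq : ∀ i, v i ∉ N ↔ ∃ t, q i t = true)
    {n : ℕ} {a : List ℕ} (h : Valid v N n a) : ∃ a', Step v N q n a a' := by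
  classical
  obtain ⟨h1, h2, h3⟩ := h
  -- the length function given by the upper bounds
  let S : G → Set ℕ := fun g => {x | x = 2 ^ n ∨ ∃ L : List ℕ, (∀ j ∈ L, j < n) ∧
    g⁻¹ * (L.map v).prod ∈ N ∧ x = cost a L}
  have hne : ∀ g, (S g).Nonempty := fun g => ⟨2 ^ n, Or.inl rfl⟩
  let c : G → ℕ := fun g => sInf (S g)
  have hmem : ∀ g, c g ∈ S g := fun g => Nat.sInf_mem (hne g)
  have hle : ∀ g x, x ∈ S g → c g ≤ x := fun g x hx => Nat.sInf_le hx
  have hcap : ∀ g, c g ≤ 2 ^ n := fun g => hle g _ (Or.inl rfl)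
  have htri : ∀ g g', c (g * g') ≤ c g + c g' := by
    intro g g'
    rcases hmem g with hg | ⟨L, hL1, hL2, hL3⟩
    · exact (hcap _).trans (by omega)
    rcases hmem g' with hg | ⟨L', hL1', hL2', hL3'⟩
    · exact (hcap _).trans (by omega)
    apply hle
    right
    refine ⟨L ++ L', ?_, ?_, ?_⟩
    · intro j hj
      rcases List.mem_append.1 hj with hj | hj
      exacts [hL1 j hj, hL1' j hj]
    · rw [List.map_append, List.prod_append]
      have e : (g * g')⁻¹ * ((L.map v).prod * (L'.map v).prod) =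
          (g'⁻¹ * (g⁻¹ * (L.map v).prod) * (g'⁻¹)⁻¹) * (g'⁻¹ * (L'.map v).prod) := by group
      rw [e]
      exact N.mul_mem (hN.conj_mem _ hL2 _) hL2'
    · rw [hL3, hL3', cost_eq, cost_eq, cost_eq, List.map_append, List.sum_append]
  have hc0 : ∀ g ∈ N, c g = 0 := by
    intro g hg
    have : c g ≤ cost a [] := hle g _ (Or.inr ⟨[], by simp, by simpa using N.inv_mem hg, rfl⟩)
    simpa [cost] using this
  have hc1 : ∀ g, g ∉ N → 1 ≤ c g := by
    intro g hg
    by_contra hcon
    have h0 : c g = 0 := by omega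
    rcases hmem g with h5 | ⟨L, hL1, hL2, hL3⟩
    · have := Nat.two_pow_pos n
      omega
    · have h6 := le_cost a L
      have h7 : L.length = 0 := by omega
      rw [List.length_eq_zero_iff] at h7
      subst h7
      apply hg
      have := N.inv_mem hL2
      simpa using this
  have hprod : ∀ L : List ℕ, c ((L.map v).prod) ≤ (L.map fun j => c (v j)).sum := by
    intro L
    induction L with
    | nil => simpa using hc0 1 N.one_mem
    | cons j L ih =>
      simp only [List.map_cons, List.prod_cons, List.sum_cons]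
      exact (htri _ _).trans (by omega)
  have hlow : ∀ i < n, gd a i ≤ c (v i) := by
    intro i hi
    rcases hmem (v i) with h5 | ⟨L, hL1, hL2, hL3⟩
    · rw [h5]; exact h2 i hi
    · rw [hL3]; exact h3 i hi L hL1 hL2
  have hup : ∀ i < n, c (v i) ≤ gd a i + 1 := by
    intro i hi
    have : c (v i) ≤ cost a [i] := hle _ _ (Or.inr ⟨[i], by simpa using hi, by simp, rfl⟩)
    simpa [cost] using this
  let a' : List ℕ := (List.range (n + 1)).map fun i => 2 * c (v i)
  have hgd : ∀ i < n + 1, gd a' i = 2 * c (v i) := by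
    intro i hi
    simp [gd, a', List.getElem?_map, List.getElem?_range hi]
  refine ⟨a', by simp [a'], ?_, ?_, ?_, ?_⟩
  · intro i hi
    rw [hgd i (by omega)]
    have := hlow i hi
    have := hup i hi
    omega
  · intro i hi
    rw [hgd i hi, pow_succ]
    have := hcap (v i)
    omega
  · intro i hi
    by_cases hiN : v i ∈ N
    · left
      intro t _
      by_contra hcon
      rw [Bool.not_eq_false] at hcon
      exact (hq i).2 ⟨t, hcon⟩ hiN
    · right
      rw [hgd i hi]
      have := hc1 _ hiN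
      omega
  · intro i hi l hl L hL
    by_cases hN' : (v i)⁻¹ * (L.map v).prod ∈ N
    · left
      rw [mem_allL] at hL
      rw [hgd i hi, cost_eq]
      have h5 : c (v i) ≤ c ((L.map v).prod) + 0 := by
        have e : v i = (L.map v).prod * ((v i)⁻¹ * (L.map v).prod)⁻¹ := by group
        calc c (v i) = c ((L.map v).prod * ((v i)⁻¹ * (L.map v).prod)⁻¹) := by rw [← e]
          _ ≤ _ := htri _ _
          _ = _ := by rw [hc0 _ (N.inv_mem hN')]
      have h6 := hprod L
      have h7 : ∀ L : List ℕ, (∀ j ∈ L, j < n + 1) →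
          2 * (L.map fun j => c (v j)).sum ≤ (L.map fun j => gd a' j + 1).sum := by
        intro L
        induction L with
        | nil => intro _; simp
        | cons j L ih =>
          intro hL
          simp only [List.map_cons, List.sum_cons]
          have := ih fun i hi => hL i (List.mem_cons_of_mem _ hi)
          rw [hgd j (hL j List.mem_cons_self)]
          omega
      have := h7 L hL.2
      omega
    · right
      exact hN'

/-- The computable approximations of a length function. -/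
theorem norm_exists (hN : N.Normal)
    (hre : REPred fun x : ℕ × List ℕ => (v x.1)⁻¹ * (x.2.map v).prod ∉ N) :
    ∃ f : ℕ → List ℕ, Computable f ∧ (∀ n, Valid v N n (f n)) ∧
      (∀ n, ∀ i < n, 2 * gd (f n) i ≤ gd (f (n + 1)) i ∧
        gd (f (n + 1)) i ≤ 2 * (gd (f n) i + 1)) ∧
      ∀ i, v i ∉ N → ∃ n, i < n ∧ 1 ≤ gd (f n) i := by
  have h1 : REPred fun i : ℕ => v i ∉ N := by
    refine (RE.comp hre (f := fun i : ℕ => (i, ([] : List ℕ))) (by fun_prop)).of_eq fun i => ?_
    simp
  obtain ⟨q, hq, hq'⟩ := RE.re_iff.1 h1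
  obtain ⟨f, hf, -, hf'⟩ := dep_choice (Step v N q) (Step_re v N hre hq) (Valid v N) []
    ⟨rfl, by intro i hi; omega, by intro i hi; omega⟩
    (fun n a h => step_exists v N hN hq' h) (fun n a a' _ h => valid_of_step v N h)
  refine ⟨f, hf, fun n => (hf' n).1, fun n => (hf' n).2.2.1, ?_⟩
  intro i hi
  obtain ⟨t, ht⟩ := (hq' i).1 hi
  refine ⟨max i t + 1, by omega, ?_⟩
  rcases (hf' (max i t)).2.2.2.2.1 i (by omega) with h | h
  · have := h t (by omega)
    rw [ht] at this
    exact absurd this (by simp)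
  · exact h

end

end Pool.Agent.H437R3
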