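import Pool.Agent.H437R3.Norm

set_option autoImplicit false

/-!
The length function on a group given by a co-c.e. normal subgroup.
-/

namespace Pool.Agent.H437R3

open Pool.Agent.Helper446

/-- If `x ≤ y + C / 2 ^ n` for all large `n` then `x ≤ y`. -/
lemma le_of_two_pow {x y C : ℝ} {K : ℕ} (h : ∀ n, K < n → x ≤ y + C / 2 ^ n) : x ≤ y := by
  have h1 : Filter.Tendsto (fun n : ℕ => y + C / 2 ^ n) Filter.atTop (nhds (y + 0)) := by
    apply Filter.Tendsto.const_add
    have h2 : Filter.Tendsto (fun n : ℕ => C * (1 / 2 : ℝ) ^ n) Filter.atTop (nhds (C * 0)) :=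
      (tendsto_pow_atTop_nhds_zero_of_lt_one (by norm_num) (by norm_num)).const_mul C
    simpa [div_eq_mul_inv] using h2
  rw [add_zero] at h1
  exact ge_of_tendsto h1 (Filter.eventually_atTop.2 ⟨K + 1, fun n hn => h n (by omega)⟩)

theorem norm_lim {G : Type} [Group G] (v : ℕ → G) (hv : Function.Surjective v) (N : Subgroup G)
    (hN : N.Normal) (hre : REPred fun x : ℕ × List ℕ => (v x.1)⁻¹ * (x.2.map v).prod ∉ N) :
    ∃ (ρ : G → ℝ) (f : ℕ → List ℕ), Computable f ∧ (∀ g, 0 ≤ ρ g) ∧ (∀ g, ρ g = 0 ↔ g ∈ N) ∧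
      (∀ g h, ρ (g * h) ≤ ρ g + ρ h) ∧
      ∀ n, ∀ i < n, (gd (f n) i : ℝ) / 2 ^ n ≤ ρ (v i) ∧ ρ (v i) ≤ ((gd (f n) i : ℝ) + 2) / 2 ^ n := by
  obtain ⟨f, hf, hval, hstep, hpos⟩ := norm_exists v N hN hre
  have p2 : ∀ n : ℕ, (0 : ℝ) < 2 ^ n := fun n => by positivity
  -- monotonicity
  have mono1 : ∀ i n, i < n → (gd (f n) i : ℝ) / 2 ^ n ≤ (gd (f (n + 1)) i : ℝ) / 2 ^ (n + 1) := by
    intro i n hi
    have h1 : ((2 * gd (f n) i : ℕ) : ℝ) ≤ (gd (f (n + 1)) i : ℝ) := by exact_mod_cast (hstep n i hi).1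
    rw [div_le_div_iff₀ (p2 _) (p2 _), pow_succ]
    push_cast at h1
    nlinarith [p2 n]
  have mono2 : ∀ i n, i < n → ((gd (f (n + 1)) i : ℝ) + 2) / 2 ^ (n + 1) ≤
      ((gd (f n) i : ℝ) + 2) / 2 ^ n := by
    intro i n hi
    have h1 : (gd (f (n + 1)) i : ℝ) ≤ ((2 * (gd (f n) i + 1) : ℕ) : ℝ) := by
      exact_mod_cast (hstep n i hi).2
    rw [div_le_div_iff₀ (p2 _) (p2 _), pow_succ]
    push_cast at h1
    nlinarith [p2 n]
  have mono1' : ∀ i n m, i < n → n ≤ m → (gd (f n) i : ℝ) / 2 ^ n ≤ (gd (f m) i : ℝ) / 2 ^ m := by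
    intro i n m hi hnm
    induction m, hnm using Nat.le_induction with
    | base => exact le_refl _
    | succ m hm ih => exact ih.trans (mono1 i m (by omega))
  have mono2' : ∀ i n m, i < n → n ≤ m → ((gd (f m) i : ℝ) + 2) / 2 ^ m ≤
      ((gd (f n) i : ℝ) + 2) / 2 ^ n := by
    intro i n m hi hnm
    induction m, hnm using Nat.le_induction with
    | base => exact le_refl _
    | succ m hm ih => exact (mono2 i m (by omega)).trans ih
  have cross : ∀ i n m, i < n → i < m → (gd (f n) i : ℝ) / 2 ^ n ≤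
      ((gd (f m) i : ℝ) + 2) / 2 ^ m := by
    intro i n m hi hj
    have hmid : ∀ k, (gd (f k) i : ℝ) / 2 ^ k ≤ ((gd (f k) i : ℝ) + 2) / 2 ^ k := by
      intro k
      apply div_le_div_of_nonneg_right _ (p2 k).le
      linarith
    rcases le_total n m with h | h
    · exact (mono1' i n m hi h).trans (hmid m)
    · exact (hmid n).trans (mono2' i m n hj h)
  let r : ℕ → ℝ := fun i => sSup (Set.range fun n : {n : ℕ // i < n} => (gd (f n) i : ℝ) / 2 ^ (n : ℕ))
  have hne : ∀ i, (Set.range fun n : {n : ℕ // i < n} => (gd (f n) i : ℝ) / 2 ^ (n : ℕ)).Nonempty :=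
    fun i => ⟨_, ⟨⟨i + 1, by omega⟩, rfl⟩⟩
  have hbd : ∀ i, BddAbove (Set.range fun n : {n : ℕ // i < n} =>
      (gd (f n) i : ℝ) / 2 ^ (n : ℕ)) := by
    intro i
    refine ⟨((gd (f (i + 1)) i : ℝ) + 2) / 2 ^ (i + 1), ?_⟩
    rintro x ⟨n, rfl⟩
    exact cross i n (i + 1) n.2 (by omega)
  have hr1 : ∀ i n, i < n → (gd (f n) i : ℝ) / 2 ^ n ≤ r i := fun i n hi =>
    le_csSup (hbd i) ⟨⟨n, hi⟩, rfl⟩
  have hr2 : ∀ i n, i < n → r i ≤ ((gd (f n) i : ℝ) + 2) / 2 ^ n := by
    intro i n hi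
    apply csSup_le (hne i)
    rintro x ⟨m, rfl⟩
    exact cross i m n m.2 hi
  have key : ∀ i (L : List ℕ), (v i)⁻¹ * (L.map v).prod ∈ N → r i ≤ (L.map r).sum := by
    intro i L hL
    obtain ⟨K, hK⟩ : ∃ K, ∀ j ∈ L, j ≤ K := by
      clear hL
      induction L with
      | nil => exact ⟨0, by simp⟩
      | cons j L ih =>
        obtain ⟨K, hK⟩ := ih
        refine ⟨max K j, ?_⟩
        intro k hk
        rcases List.mem_cons.1 hk with rfl | hk
        · exact le_max_right _ _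
        · exact (hK k hk).trans (le_max_left _ _)
    apply le_of_two_pow (K := max K i) (C := (L.length : ℝ) + 2)
    intro n hn
    have hin : i < n := by omega
    have hLn : ∀ j ∈ L, j < n := fun j hj => by have := hK j hj; omega
    have h1 := (hval n).2.2 i hin L hLn hL
    have h2 : ∀ L : List ℕ, (∀ j ∈ L, j < n) → ((cost (f n) L : ℕ) : ℝ) / 2 ^ n ≤
        (L.map r).sum + (L.length : ℝ) / 2 ^ n := by
      intro L
      induction L with
      | nil => intro _; simp [cost]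
      | cons j L ih =>
        intro hL
        have h3 := ih fun k hk => hL k (List.mem_cons_of_mem _ hk)
        have h4 := hr1 j n (hL j List.mem_cons_self)
        have h5 : ((cost (f n) (j :: L) : ℕ) : ℝ) / 2 ^ n =
            (gd (f n) j : ℝ) / 2 ^ n + 1 / 2 ^ n + ((cost (f n) L : ℕ) : ℝ) / 2 ^ n := by
          rw [cost_eq, cost_eq, List.map_cons, List.sum_cons]
          push_cast
          ring
        have h6 : (((j :: L).length : ℕ) : ℝ) / 2 ^ n = 1 / 2 ^ n + (L.length : ℝ) / 2 ^ n := by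
          rw [List.length_cons]
          push_cast
          ring
        rw [h5, h6, List.map_cons, List.sum_cons]
        linarith
    have h3 := hr2 i n hin
    have h4 : (gd (f n) i : ℝ) / 2 ^ n ≤ ((cost (f n) L : ℕ) : ℝ) / 2 ^ n := by
      apply div_le_div_of_nonneg_right _ (p2 n).le
      exact_mod_cast h1
    have h5 := h2 L hLn
    have h6 : ((gd (f n) i : ℝ) + 2) / 2 ^ n = (gd (f n) i : ℝ) / 2 ^ n + 2 / 2 ^ n := by ring
    have h7 : ((L.length : ℝ) + 2) / 2 ^ n = (L.length : ℝ) / 2 ^ n + 2 / 2 ^ n := by ring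
    rw [h6] at h3
    rw [h7]
    linarith
  choose idx hidx using hv
  have hnn : ∀ i, 0 ≤ r i := fun i => le_trans (by positivity) (hr1 i (i + 1) (by omega))
  have hinv : ∀ i, r (idx (v i)) = r i := by
    intro i
    apply le_antisymm
    · have := key (idx (v i)) [i] (by simp [hidx])
      simpa using this
    · have := key i [idx (v i)] (by simp [hidx])
      simpa using this
  refine ⟨fun g => r (idx g), f, hf, fun g => hnn _, ?_, ?_, ?_⟩
  · intro g
    constructor
    · intro h0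
      by_contra hg
      have hg' : v (idx g) ∉ N := by rwa [hidx]
      obtain ⟨n, hn1, hn2⟩ := hpos (idx g) hg'
      have h3 := hr1 (idx g) n hn1
      have h4 : (0 : ℝ) < (gd (f n) (idx g) : ℝ) / 2 ^ n := by
        apply div_pos _ (p2 n)
        exact_mod_cast hn2
      have h0' : r (idx g) = 0 := h0
      linarith
    · intro hg
      have h1 := key (idx g) [] (by simpa [hidx] using N.inv_mem hg)
      apply le_antisymm (by simpa using h1) (hnn _)
  · intro g h
    have := key (idx (g * h)) [idx g, idx h] (by simp [hidx])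
    simpa using this
  · intro n i hi
    show _ ≤ r (idx (v i)) ∧ r (idx (v i)) ≤ _
    rw [hinv]
    exact ⟨hr1 i n hi, hr2 i n hi⟩

end Pool.Agent.H437R3
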