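import Mathlib

set_option autoImplicit false

/-!
Infinitary formulas of finite rank, Scott sentences, and a criterion for a finitely generated
structure to have a `d-Σ₂` Scott sentence.
-/

namespace Pool.Agent.H437R3.Scott

open FirstOrder FirstOrder.Language

/-- `Fml L true k n` is the type of the `Σ_k` formulas of `L_{ω₁ω}` with free variables
`x_0, …, x_{n-1}`, and `Fml L false k n` is the type of the `Π_k` formulas. The formulas of rank `0`
are the finitary quantifier-free formulas. A `Σ_{k+1}` (`Π_{k+1}`) formula is given by countably many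
`Π_j` (`Σ_j`) formulas `φ i` with `j ≤ k`, the first `m i` variables of which are bound by a block of
existential (universal) quantifiers; it is the disjunction (conjunction) over all `i`. -/
inductive Fml (L : FirstOrder.Language.{0, 0}) : Bool → ℕ → ℕ → Type
  | qf (b : Bool) (n : ℕ) (φ : L.Formula (Fin n)) (h : φ.IsQF) : Fml L b 0 n
  | block (b : Bool) (k n : ℕ) (lev m : ℕ → ℕ) (hlev : ∀ i, lev i ≤ k)
      (φ : ∀ i : ℕ, Fml L (!b) (lev i) (m i + n)) : Fml L b (k + 1) n

/-- Truth of a formula in a structure, at an assignment of the free variables. -/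
def Fml.Realize {L : FirstOrder.Language.{0, 0}} (A : Type) [L.Structure A] :
    ∀ {b : Bool} {k n : ℕ}, Fml L b k n → (Fin n → A) → Prop
  | _, _, _, .qf _ _ φ _, v => φ.Realize v
  | _, _, _, .block true _ _ _ m _ φ, v =>
      ∃ i, ∃ y : Fin (m i) → A, (φ i).Realize A (Fin.append y v)
  | _, _, _, .block false _ _ _ m _ φ, v =>
      ∀ i, ∀ y : Fin (m i) → A, (φ i).Realize A (Fin.append y v)

/-- The structure `A` has a `d-Σ_k` Scott sentence: a conjunction of a `Σ_k` sentence and a `Π_k`
sentence whose countable models are exactly the structures isomorphic to `A`. -/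
def HasDSigmaScottSentence (L : FirstOrder.Language.{0, 0}) (k : ℕ) (A : Type) [L.Structure A] : Prop :=
  ∃ (σ : Fml L true k 0) (π : Fml L false k 0), ∀ (B : Type) [L.Structure B] [Countable B],
    (σ.Realize B (fun i => i.elim0) ∧ π.Realize B (fun i => i.elim0)) ↔ Nonempty (B ≃[L] A)

variable {L : FirstOrder.Language.{0, 0}}

/-- countably many formulas of rank `k` give one of rank `k + 1` -/
lemma exists_block_true (k n : ℕ) {ι : Type} [Countable ι] [Nonempty ι] (m : ι → ℕ)
    (φ : ∀ i : ι, Fml L false k (m i + n)) : ∃ ψ : Fml L true (k + 1) n,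
      ∀ (A : Type) [L.Structure A] (v : Fin n → A), ψ.Realize A v ↔
        ∃ i, ∃ y : Fin (m i) → A, (φ i).Realize A (Fin.append y v) := by
  obtain ⟨f, hf⟩ := exists_surjective_nat ι
  refine ⟨.block true k n (fun _ => k) (fun i => m (f i)) (fun _ => le_refl k)
    (fun i => φ (f i)), ?_⟩
  intro A _ v
  constructor
  · rintro ⟨i, y, h⟩
    exact ⟨f i, y, h⟩
  · rintro ⟨i, y, h⟩
    obtain ⟨j, rfl⟩ := hf i
    exact ⟨j, y, h⟩

lemma exists_block_false (k n : ℕ) {ι : Type} [Countable ι] [Nonempty ι] (m : ι → ℕ)
    (φ : ∀ i : ι, Fml L true k (m i + n)) : ∃ ψ : Fml L false (k + 1) n,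
      ∀ (A : Type) [L.Structure A] (v : Fin n → A), ψ.Realize A v ↔
        ∀ i, ∀ y : Fin (m i) → A, (φ i).Realize A (Fin.append y v) := by
  obtain ⟨f, hf⟩ := exists_surjective_nat ι
  refine ⟨.block false k n (fun _ => k) (fun i => m (f i)) (fun _ => le_refl k)
    (fun i => φ (f i)), ?_⟩
  intro A _ v
  constructor
  · intro h i
    obtain ⟨j, rfl⟩ := hf i
    exact h j
  · intro h i
    exact h (f i)

/-- the universal formulas true of `g` -/
def UType (A : Type) [L.Structure A] {n : ℕ} (g : Fin n → A) : Type :=
  Σ m : ℕ, {φ : L.Formula (Fin (m + n)) // φ.IsQF ∧ ∀ y : Fin m → A, φ.Realize (Fin.append y g)}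

/-- `x` satisfies all universal formulas true of `g` -/
def Theta {A : Type} [L.Structure A] {n : ℕ} (g : Fin n → A) (B : Type) [L.Structure B]
    (x : Fin n → B) : Prop :=
  ∀ c : UType (L := L) A g, ∀ y : Fin c.1 → B, (c.2.1 : L.Formula _).Realize (Fin.append y x)

instance [Countable L.Symbols] (A : Type) [L.Structure A] {n : ℕ} (g : Fin n → A) :
    Countable (UType (L := L) A g) := by
  unfold UType
  infer_instance

instance (A : Type) [L.Structure A] {n : ℕ} (g : Fin n → A) :
    Nonempty (UType (L := L) A g) :=
  ⟨⟨0, ⊤, BoundedFormula.IsQF.top, fun y => by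
    simp [Formula.Realize]⟩⟩

lemma append_comp {A B : Type} {m n : ℕ} (f : A → B) (y : Fin m → A) (x : Fin n → A) :
    f ∘ Fin.append y x = Fin.append (f ∘ y) (f ∘ x) := by
  funext i
  refine Fin.addCases ?_ ?_ i <;> intro j <;> simp

lemma Theta_equiv {A : Type} [L.Structure A] {n : ℕ} (g : Fin n → A) {B C : Type} [L.Structure B]
    [L.Structure C] (e : B ≃[L] C) (x : Fin n → B) (h : Theta (L := L) g C (e ∘ x)) :
    Theta (L := L) g B x := by
  intro c y
  have h1 := h c (e ∘ y)
  rw [← append_comp] at h1
  exact (StrongHomClass.realize_formula e _).1 h1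

lemma Theta_self {A : Type} [L.Structure A] {n : ℕ} (g : Fin n → A) : Theta (L := L) g A g :=
  fun c => c.2.2.2

/-- satisfying the universal type of `g` means satisfying the same quantifier-free formulas -/
lemma Theta_qf {A : Type} [L.Structure A] {n : ℕ} {g : Fin n → A} {B : Type} [L.Structure B]
    {x : Fin n → B} (h : Theta (L := L) g B x) (φ : L.Formula (Fin n)) (hφ : φ.IsQF) :
    φ.Realize x ↔ φ.Realize g := by
  have key : ∀ φ : L.Formula (Fin n), φ.IsQF → φ.Realize g → φ.Realize x := by
    intro φ hφ hg
    let ψ : L.Formula (Fin (0 + n)) := φ.relabel (Fin.natAdd 0)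
    have hψ : ψ.IsQF := hφ.relabel _
    have hr : ∀ (C : Type) [L.Structure C] (y : Fin 0 → C) (z : Fin n → C),
        ψ.Realize (Fin.append y z) ↔ φ.Realize z := by
      intro C _ y z
      show Formula.Realize (Formula.relabel (Fin.natAdd 0) φ) _ ↔ _
      rw [Formula.realize_relabel]
      have : Fin.append y z ∘ Fin.natAdd 0 = z := by
        funext i; exact Fin.append_right _ _ _
      rw [this]
    have h1 := h ⟨0, ψ, hψ, fun y => (hr A y g).2 hg⟩ (fun i => i.elim0)
    exact (hr B _ x).1 h1
  constructor
  · intro hx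
    by_contra hg
    exact (key φ.not hφ.not (by simpa using hg)) hx
  · exact key φ hφ

/-- if `x` generates `B` and satisfies the universal type of a generating tuple of `A` then `B` is
isomorphic to `A` -/
lemma exists_equiv {A : Type} [L.Structure A] {n : ℕ} {g : Fin n → A}
    (hg : ∀ a : A, ∃ t : L.Term (Fin n), t.realize g = a) {B : Type} [L.Structure B]
    {x : Fin n → B} (hx : ∀ b : B, ∃ t : L.Term (Fin n), t.realize x = b)
    (h : Theta (L := L) g B x) : Nonempty (B ≃[L] A) := by
  classical
  choose T hT using hx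
  have heq : ∀ t s : L.Term (Fin n), t.realize x = s.realize x ↔ t.realize g = s.realize g := by
    intro t s
    have h1 := Theta_qf h (t.equal s) (by
      unfold Term.equal
      exact (BoundedFormula.IsAtomic.equal _ _).isQF)
    rwa [Formula.realize_equal, Formula.realize_equal] at h1
  have hF : ∀ t : L.Term (Fin n), (T (t.realize x)).realize g = t.realize g := fun t =>
    (heq _ _).1 (hT _)
  refine ⟨⟨Equiv.ofBijective (fun b => (T b).realize g) ⟨?_, ?_⟩, ?_, ?_⟩⟩
  · intro a b hab
    have := (heq _ _).2 hab
    rwa [hT, hT] at this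
  · intro a
    obtain ⟨t, rfl⟩ := hg a
    exact ⟨t.realize x, hF t⟩
  · intro k f v
    show (T (Structure.funMap f v)).realize g = Structure.funMap f (fun i => (T (v i)).realize g)
    have h1 : Structure.funMap f v = (Term.func f (fun i => T (v i))).realize x := by
      simp [Term.realize, hT]
    rw [h1, hF]
    rfl
  · intro k r v
    show Structure.RelMap r (fun i => (T (v i)).realize g) ↔ Structure.RelMap r v
    have h1 := Theta_qf h (r.formula (fun i => T (v i))) (by
      unfold Relations.formula
      exact (BoundedFormula.IsAtomic.rel _ _).isQF)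
    rw [Formula.realize_rel, Formula.realize_rel] at h1
    rw [← h1]
    simp [hT]

/-- A criterion for a finitely generated structure to have a `d-Σ₂` Scott sentence: every tuple
which satisfies all the universal formulas true of a generating tuple `g` generates the structure. -/
theorem criterion [Countable L.Symbols] {A : Type} [L.Structure A] {n : ℕ} (g : Fin n → A)
    (hg : ∀ a : A, ∃ t : L.Term (Fin n), t.realize g = a)
    (H : ∀ x : Fin n → A, Theta (L := L) g A x → ∀ a : A, ∃ t : L.Term (Fin n), t.realize x = a) :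
    HasDSigmaScottSentence L 2 A := by
  classical
  -- the formula `Θ(x)`
  obtain ⟨Θ, hΘ⟩ := exists_block_false (L := L) 0 n (ι := UType (L := L) A g) (fun c => c.1)
    (fun c => .qf true _ c.2.1 c.2.2.1)
  have hΘ' : ∀ (B : Type) [L.Structure B] (x : Fin n → B), Θ.Realize B x ↔ Theta (L := L) g B x :=
    fun B _ x => hΘ B x
  -- the sentence `∃ x, Θ(x)`
  obtain ⟨σ, hσ⟩ := exists_block_true (L := L) 1 0 (ι := Unit) (fun _ => n) (fun _ => Θ)
  -- the formula `¬ Θ(x) ∨ ⋁ y = t(x)`
  let ψ : (UType (L := L) A g ⊕ L.Term (Fin n)) → Σ m : ℕ, Fml L false 0 (m + (n + 1)) := fun c =>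
    match c with
    | Sum.inl c => ⟨c.1, .qf false _ (Formula.not (Formula.relabel
        (Fin.append (fun i : Fin c.1 => (Fin.castAdd (n + 1) i : Fin (c.1 + (n + 1))))
          (fun i : Fin n => Fin.natAdd c.1 i.castSucc)) c.2.1)) (by
            exact (BoundedFormula.IsQF.relabel c.2.2.1 _).not)⟩
    | Sum.inr t => ⟨0, .qf false _ (Term.equal (Term.var (Fin.natAdd 0 (Fin.last n)))
        (t.relabel (fun i : Fin n => Fin.natAdd 0 i.castSucc))) (by
          unfold Term.equal
          exact (BoundedFormula.IsAtomic.equal _ _).isQF)⟩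
  obtain ⟨χ, hχ⟩ := exists_block_true (L := L) 0 (n + 1) (fun c => (ψ c).1) (fun c => (ψ c).2)
  have hχ' : ∀ (B : Type) [L.Structure B] (w : Fin (n + 1) → B), χ.Realize B w ↔
      (Theta (L := L) g B (w ∘ Fin.castSucc) → ∃ t : L.Term (Fin n),
        w (Fin.last n) = t.realize (w ∘ Fin.castSucc)) := by
    intro B _ w
    rw [hχ]
    constructor
    · rintro ⟨c | t, y, h⟩ hw
      · exfalso
        have h1 : ¬ (c.2.1 : L.Formula _).Realize ((Fin.append y w) ∘
          (Fin.append (fun i : Fin c.1 => (Fin.castAdd (n + 1) i : Fin (c.1 + (n + 1))))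
          (fun i : Fin n => Fin.natAdd c.1 i.castSucc))) := by
          have h2 : Formula.Realize (Formula.not (Formula.relabel
            (Fin.append (fun i : Fin c.1 => (Fin.castAdd (n + 1) i : Fin (c.1 + (n + 1))))
            (fun i : Fin n => Fin.natAdd c.1 i.castSucc)) c.2.1)) (Fin.append y w) := h
          rw [Formula.realize_not, Formula.realize_relabel] at h2
          exact h2
        apply h1
        have h3 := hw c y
        rw [append_comp]
        have e1 : (Fin.append y w) ∘ (fun i : Fin c.1 => (Fin.castAdd (n + 1) i :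
          Fin (c.1 + (n + 1)))) = y := by
          funext i; simp
        have e2 : (Fin.append y w) ∘ (fun i : Fin n => (Fin.natAdd c.1 i.castSucc :
          Fin (c.1 + (n + 1)))) = w ∘ Fin.castSucc := by
          funext i; exact Fin.append_right _ _ _
        rw [e1, e2]
        exact h3
      · refine ⟨t, ?_⟩
        have h2 : (Term.equal (Term.var (Fin.natAdd 0 (Fin.last n)))
          (t.relabel (fun i : Fin n => (Fin.natAdd 0 i.castSucc : Fin (0 + (n + 1))))) :
            L.Formula _).Realize (Fin.append y w) := h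
        rw [Formula.realize_equal, Term.realize_relabel, Term.realize_var] at h2
        have e1 : (Fin.append y w) (Fin.natAdd 0 (Fin.last n)) = w (Fin.last n) :=
          Fin.append_right _ _ _
        have e2 : (Fin.append y w) ∘ (fun i : Fin n => (Fin.natAdd 0 i.castSucc :
          Fin (0 + (n + 1)))) = w ∘ Fin.castSucc := by
          funext i; exact Fin.append_right _ _ _
        rw [e2] at h2
        rw [← e1]
        exact h2
    · intro h
      by_cases hw : Theta (L := L) g B (w ∘ Fin.castSucc)
      · obtain ⟨t, ht⟩ := h hw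
        refine ⟨Sum.inr t, fun i => i.elim0, ?_⟩
        show (Term.equal (Term.var (Fin.natAdd 0 (Fin.last n)))
          (t.relabel (fun i : Fin n => (Fin.natAdd 0 i.castSucc : Fin (0 + (n + 1))))) :
            L.Formula _).Realize (Fin.append _ w)
        rw [Formula.realize_equal, Term.realize_relabel, Term.realize_var]
        have e1 : ∀ y : Fin 0 → B, (Fin.append y w) (Fin.natAdd 0 (Fin.last n)) = w (Fin.last n) :=
          fun y => Fin.append_right _ _ _
        have e2 : ∀ y : Fin 0 → B, (Fin.append y w) ∘ (fun i : Fin n => (Fin.natAdd 0 i.castSucc :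
          Fin (0 + (n + 1)))) = w ∘ Fin.castSucc := by
          intro y; funext i; exact Fin.append_right _ _ _
        rw [e1, e2]
        exact ht
      · unfold Theta at hw
        push Not at hw
        obtain ⟨c, y, hc⟩ := hw
        refine ⟨Sum.inl c, y, ?_⟩
        show Formula.Realize (Formula.not (Formula.relabel
            (Fin.append (fun i : Fin c.1 => (Fin.castAdd (n + 1) i : Fin (c.1 + (n + 1))))
            (fun i : Fin n => Fin.natAdd c.1 i.castSucc)) c.2.1)) (Fin.append y w)
        rw [Formula.realize_not, Formula.realize_relabel, append_comp]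
        have e1 : (Fin.append y w) ∘ (fun i : Fin c.1 => (Fin.castAdd (n + 1) i :
          Fin (c.1 + (n + 1)))) = y := by
          funext i; simp
        have e2 : (Fin.append y w) ∘ (fun i : Fin n => (Fin.natAdd c.1 i.castSucc :
          Fin (c.1 + (n + 1)))) = w ∘ Fin.castSucc := by
          funext i; exact Fin.append_right _ _ _
        rw [e1, e2]
        exact hc
  obtain ⟨π, hπ⟩ := exists_block_false (L := L) 1 0 (ι := Unit) (fun _ => n + 1) (fun _ => χ)
  have app0 : ∀ (B : Type) (m : ℕ) (y : Fin m → B) (v : Fin 0 → B),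
      (Fin.append y v : Fin (m + 0) → B) = y := by
    intro B m y v
    rw [Fin.append_right_nil y v rfl]
    rfl
  have hσ' : ∀ (B : Type) [L.Structure B] (v : Fin 0 → B), σ.Realize B v ↔
      ∃ x : Fin n → B, Theta (L := L) g B x := by
    intro B _ v
    rw [hσ]
    constructor
    · rintro ⟨_, y, h⟩
      rw [app0, hΘ'] at h
      exact ⟨y, h⟩
    · rintro ⟨y, h⟩
      refine ⟨(), y, ?_⟩
      rw [app0, hΘ']
      exact h
  have hπ' : ∀ (B : Type) [L.Structure B] (v : Fin 0 → B), π.Realize B v ↔
      ∀ (x : Fin n → B), Theta (L := L) g B x → ∀ b : B, ∃ t : L.Term (Fin n), t.realize x = b := by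
    intro B _ v
    rw [hπ]
    constructor
    · intro h x hx b
      have h1 := h () (Fin.snoc x b)
      rw [app0, hχ'] at h1
      have e1 : (Fin.snoc x b : Fin (n + 1) → B) ∘ Fin.castSucc = x := by
        funext i; simp
      rw [e1] at h1
      obtain ⟨t, ht⟩ := h1 hx
      rw [Fin.snoc_last] at ht
      exact ⟨t, ht.symm⟩
    · intro h _ w
      rw [app0, hχ']
      intro hw
      obtain ⟨t, ht⟩ := h _ hw (w (Fin.last n))
      exact ⟨t, ht.symm⟩
  refine ⟨σ, π, ?_⟩
  intro B _ _
  rw [hσ', hπ']
  constructor
  · rintro ⟨⟨x, hx⟩, h⟩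
    exact exists_equiv hg (h x hx) hx
  · rintro ⟨e⟩
    constructor
    · refine ⟨e.symm ∘ g, Theta_equiv g e _ ?_⟩
      have : (e : B → A) ∘ ((e.symm : A → B) ∘ g) = g := by
        funext i; simp
      rw [this]
      exact Theta_self g
    · intro x hx b
      have h1 : Theta (L := L) g A (e ∘ x) := by
        apply Theta_equiv g e.symm
        have : (e.symm : A → B) ∘ ((e : B → A) ∘ x) = x := by
          funext i; simp
        rw [this]
        exact hx
      obtain ⟨t, ht⟩ := H _ h1 (e b)
      refine ⟨t, ?_⟩
      apply e.injective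
      rw [← ht]
      exact (HomClass.realize_term e).symm ▸ rfl

end Pool.Agent.H437R3.Scott
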