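import Pool.Agent.H437R3.Scott

set_option autoImplicit false

namespace Pool.Agent.H437R3.Scott

open FirstOrder FirstOrder.Language

variable {L : FirstOrder.Language.{0, 0}}

/-- elements of the substructure generated by a tuple are values of terms -/
lemma exists_term_of_closure {A : Type} [L.Structure A] {n : ℕ} (g : Fin n → A)
    (hg : Substructure.closure L (Set.range g) = ⊤) (a : A) :
    ∃ t : L.Term (Fin n), t.realize g = a := by
  have ha : a ∈ Substructure.closure L (Set.range g) := by rw [hg]; trivial
  rw [Substructure.mem_closure_iff_exists_term] at ha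
  obtain ⟨t, ht⟩ := ha
  choose i hi using fun s : Set.range g => s.2
  refine ⟨t.relabel i, ?_⟩
  rw [Term.realize_relabel, ← ht]
  congr 1
  funext s
  exact hi s

/-- finite conjunctions -/
lemma exists_conj {m : ℕ} (S : List (L.Formula (Fin m))) (hS : ∀ φ ∈ S, φ.IsQF) :
    ∃ φ : L.Formula (Fin m), φ.IsQF ∧ ∀ (A : Type) [L.Structure A] (v : Fin m → A),
      φ.Realize v ↔ ∀ ψ ∈ S, ψ.Realize v := by
  induction S with
  | nil => exact ⟨⊤, BoundedFormula.IsQF.top, fun A _ v => by simp [Formula.Realize]⟩
  | cons a S ih =>
    obtain ⟨φ, h1, h2⟩ := ih (fun ψ hψ => hS ψ (List.mem_cons_of_mem _ hψ))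
    refine ⟨a ⊓ φ, (hS a List.mem_cons_self).inf h1, fun A _ v => ?_⟩
    rw [Formula.realize_inf, h2]
    simp

/-- A surjective endomorphism of a Noetherian ring is injective. -/
lemma injective_of_surjective {R : Type} [CommRing R] [IsNoetherianRing R] (f : R →+* R)
    (hf : Function.Surjective f) : Function.Injective f := by
  have hs : ∀ n : ℕ, Function.Surjective (f ^ n : R →+* R) := by
    intro n
    rw [RingHom.coe_pow]
    exact hf.iterate n
  let K : ℕ →o Ideal R := ⟨fun n => RingHom.ker (f ^ n : R →+* R), by
    apply monotone_nat_of_le_succ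
    intro n x hx
    rw [RingHom.mem_ker] at hx ⊢
    rw [pow_succ']
    show f ((f ^ n : R →+* R) x) = 0
    rw [hx, map_zero]⟩
  obtain ⟨n, hn⟩ := monotone_stabilizes_iff_noetherian.mpr inferInstance K
  have h1 : K n = K (n + 1) := hn (n + 1) (Nat.le_succ n)
  rw [injective_iff_map_eq_zero]
  intro a ha
  obtain ⟨b, rfl⟩ := hs n a
  have h2 : b ∈ K (n + 1) := by
    show b ∈ RingHom.ker (f ^ (n + 1) : R →+* R)
    rw [RingHom.mem_ker, pow_succ']
    exact ha
  rw [← h1] at h2
  exact h2

/-- Every finitely generated commutative ring has a `d-Σ₂` Scott sentence. -/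
theorem commRing (A : Type) [CommRing A] [FirstOrder.Ring.CompatibleRing A]
    (hfg : Structure.FG FirstOrder.Language.ring A) :
    HasDSigmaScottSentence FirstOrder.Language.ring 2 A := by
  classical
  obtain ⟨n, g, hg⟩ := Substructure.fg_iff_exists_fin_generating_family.1 (Structure.fg_def.1 hfg)
  have hterm := exists_term_of_closure g hg
  -- the ring is a quotient of a free commutative ring
  have hlift : ∀ (t : FirstOrder.Language.ring.Term (Fin n)), ∃ p : FreeCommRing (Fin n),
      ∀ v : Fin n → A, t.realize v = FreeCommRing.lift v p := by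
    intro t
    induction t with
    | var i => exact ⟨FreeCommRing.of i, fun v => by simp⟩
    | func f ts ih =>
      choose p hp using ih
      cases f with
      | add => exact ⟨p 0 + p 1, fun v => by
          show Structure.funMap _ (fun i => (ts i).realize v) = _
          rw [map_add, ← hp 0 v, ← hp 1 v]
          exact FirstOrder.Ring.CompatibleRing.funMap_add _⟩
      | mul => exact ⟨p 0 * p 1, fun v => by
          show Structure.funMap _ (fun i => (ts i).realize v) = _
          rw [map_mul, ← hp 0 v, ← hp 1 v]
          exact FirstOrder.Ring.CompatibleRing.funMap_mul _⟩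
      | neg => exact ⟨- p 0, fun v => by
          show Structure.funMap _ (fun i => (ts i).realize v) = _
          rw [map_neg, ← hp 0 v]
          exact FirstOrder.Ring.CompatibleRing.funMap_neg _⟩
      | zero => exact ⟨0, fun v => by
          show Structure.funMap _ (fun i => (ts i).realize v) = _
          rw [map_zero]
          exact FirstOrder.Ring.CompatibleRing.funMap_zero _⟩
      | one => exact ⟨1, fun v => by
          show Structure.funMap _ (fun i => (ts i).realize v) = _
          rw [map_one]
          exact FirstOrder.Ring.CompatibleRing.funMap_one _⟩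
  have hsurj : Function.Surjective (FreeCommRing.lift g) := by
    intro a
    obtain ⟨t, rfl⟩ := hterm a
    obtain ⟨p, hp⟩ := hlift t
    exact ⟨p, (hp g).symm⟩
  haveI : IsNoetherianRing (FreeCommRing (Fin n)) :=
    isNoetherianRing_of_ringEquiv _ (freeCommRingEquivMvPolynomialInt (Fin n)).symm
  haveI : IsNoetherianRing A := isNoetherianRing_of_surjective _ _ _ hsurj
  obtain ⟨T, hT⟩ : (RingHom.ker (FreeCommRing.lift g)).FG := IsNoetherian.noetherian _
  refine criterion g hterm ?_
  intro x hx
  choose p hp using fun i => hsurj (x i)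
  -- the formula `χ(y, x)`
  let F1 : FreeCommRing (Fin n) → FirstOrder.Language.ring.Formula (Fin (n + n)) := fun r =>
    Term.equal ((FirstOrder.Ring.termOfFreeCommRing r).relabel (Fin.castAdd n)) 0
  let F2 : Fin n → FirstOrder.Language.ring.Formula (Fin (n + n)) := fun i =>
    Term.equal ((FirstOrder.Ring.termOfFreeCommRing (p i)).relabel (Fin.castAdd n))
      (Term.var (Fin.natAdd n i))
  obtain ⟨χ, hχ1, hχ2⟩ := exists_conj (T.toList.map F1 ++ (List.finRange n).map F2) (by
    intro φ hφ
    rw [List.mem_append, List.mem_map, List.mem_map] at hφ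
    rcases hφ with ⟨r, _, rfl⟩ | ⟨i, _, rfl⟩
    · exact (BoundedFormula.IsAtomic.equal _ _).isQF
    · exact (BoundedFormula.IsAtomic.equal _ _).isQF)
  have hχ : ∀ y z : Fin n → A, χ.Realize (Fin.append y z) ↔
      (∀ r ∈ T, FreeCommRing.lift y r = 0) ∧ ∀ i, FreeCommRing.lift y (p i) = z i := by
    intro y z
    have e1 : Fin.append y z ∘ Fin.castAdd n = y := by
      funext i; exact Fin.append_left _ _ _
    have h1 : ∀ r, (F1 r).Realize (Fin.append y z) ↔ FreeCommRing.lift y r = 0 := by
      intro r
      show Formula.Realize (Term.equal _ _) _ ↔ _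
      rw [Formula.realize_equal, Term.realize_relabel, e1,
        FirstOrder.Ring.realize_termOfFreeCommRing, FirstOrder.Ring.realize_zero]
    have h2 : ∀ i, (F2 i).Realize (Fin.append y z) ↔ FreeCommRing.lift y (p i) = z i := by
      intro i
      show Formula.Realize (Term.equal _ _) _ ↔ _
      rw [Formula.realize_equal, Term.realize_relabel, e1,
        FirstOrder.Ring.realize_termOfFreeCommRing, Term.realize_var, Fin.append_right]
    rw [hχ2]
    constructor
    · intro h
      constructor
      · intro r hr
        exact (h1 r).1 (h _ (List.mem_append_left _ (List.mem_map.2 ⟨r, Finset.mem_toList.2 hr, rfl⟩)))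
      · intro i
        exact (h2 i).1 (h _ (List.mem_append_right _ (List.mem_map.2 ⟨i, List.mem_finRange i, rfl⟩)))
    · rintro ⟨h3, h4⟩ ψ hψ
      rw [List.mem_append, List.mem_map, List.mem_map] at hψ
      rcases hψ with ⟨r, hr, rfl⟩ | ⟨i, _, rfl⟩
      · exact (h1 r).2 (h3 r (Finset.mem_toList.1 hr))
      · exact (h2 i).2 (h4 i)
  have hker : ∀ r ∈ T, FreeCommRing.lift g r = 0 := by
    intro r hr
    rw [← RingHom.mem_ker, ← hT]
    exact Ideal.subset_span hr
  -- there is `y` with `χ(y, g)`
  obtain ⟨y, hy⟩ : ∃ y : Fin n → A, χ.Realize (Fin.append y g) := by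
    by_contra hno
    push Not at hno
    have h1 := hx ⟨n, χ.not, hχ1.not, fun y => by
      show Formula.Realize (Formula.not χ) _
      rw [Formula.realize_not]
      exact hno y⟩ g
    have h2 : ¬ χ.Realize (Fin.append g x) := by
      have h3 : Formula.Realize (Formula.not χ) (Fin.append g x) := h1
      rwa [Formula.realize_not] at h3
    exact h2 ((hχ g x).2 ⟨hker, hp⟩)
  rw [hχ] at hy
  -- the endomorphism
  have hle : RingHom.ker (FreeCommRing.lift g) ≤ RingHom.ker (FreeCommRing.lift y) := by
    rw [← hT, Submodule.span_le]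
    intro r hr
    exact hy.1 r hr
  let ψ : A →+* A := RingHom.liftOfSurjective (FreeCommRing.lift g) hsurj
    ⟨FreeCommRing.lift y, hle⟩
  have hψ : ∀ q, ψ (FreeCommRing.lift g q) = FreeCommRing.lift y q := fun q =>
    RingHom.liftOfRightInverse_comp_apply _ _ _ ⟨FreeCommRing.lift y, hle⟩ q
  have hψx : ∀ i, ψ (x i) = g i := by
    intro i
    rw [← hp i, hψ, hy.2 i]
  have hψq : ∀ q, ψ (FreeCommRing.lift x q) = FreeCommRing.lift g q := by
    intro q
    have : (ψ.comp (FreeCommRing.lift x)) = FreeCommRing.lift g := by
      apply FreeCommRing.hom_ext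
      intro i
      simp [hψx]
    exact RingHom.congr_fun this q
  have hψs : Function.Surjective ψ := by
    intro a
    obtain ⟨q, rfl⟩ := hsurj a
    exact ⟨_, hψq q⟩
  have hψi := injective_of_surjective ψ hψs
  intro a
  obtain ⟨q, hq⟩ := hsurj (ψ a)
  refine ⟨FirstOrder.Ring.termOfFreeCommRing q, ?_⟩
  rw [FirstOrder.Ring.realize_termOfFreeCommRing]
  apply hψi
  rw [hψq, hq]

end Pool.Agent.H437R3.Scott
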